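import Pool.Agent.Lib.MP_4eed4e_an_P.PBase

/-!
MP_4eed4e_an, project P, block F (injectivity at the marked triangle): definitions.
See `/team-store/MP_4eed4e_P.md`, section 6.
-/

namespace Pool.Agent.MP4eed4eP.F

open Real Set MeasureTheory Filter Topology

noncomputable section

/-- The profile of the normal derivatives of the eigenfunctions `(4 ^ j, 5 * 4 ^ j)`. -/
def g1 (τ : ℝ) : ℝ := 5 * sin τ - 4 * sin (2 * τ) + sin (3 * τ)

/-- `Q1' = g1 ^ 2 - 21`. -/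
def Q1 (τ : ℝ) : ℝ :=
  -24 * sin τ - 15 / 4 * sin (2 * τ) + 20 / 3 * sin (3 * τ) - 13 / 4 * sin (4 * τ)
    + 4 / 5 * sin (5 * τ) - 1 / 12 * sin (6 * τ)

/-- `Q2' = Q1`. -/
def Q2 (τ : ℝ) : ℝ :=
  24 * cos τ + 15 / 8 * cos (2 * τ) - 20 / 9 * cos (3 * τ) + 13 / 16 * cos (4 * τ)
    - 4 / 25 * cos (5 * τ) + 1 / 72 * cos (6 * τ)

/-- `4 ^ j * th` comes arbitrarily close to `y` modulo `2`, for arbitrarily large `j`. -/
def Near {m : ℕ} (th y : Fin m → ℝ) : Prop :=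
  ∃ (J : ℕ → ℕ) (z : ℕ → Fin m → ℤ), Tendsto J atTop atTop ∧
    ∀ i, Tendsto (fun l => (4 : ℝ) ^ J l * th i - 2 * z l i) atTop (𝓝 (y i))

/-- `psi` is affine on the intervals between the nodes: `psi x = al j + be j * x` on the interval
`(nd th j, nd th (j + 1))`, `j = 0, ..., m`. -/
def PL {m : ℕ} (th : Fin m → ℝ) (psi : ℝ → ℝ) (al be : ℕ → ℝ) : Prop :=
  ∀ j ≤ m, ∀ x ∈ Ioo (nd th j) (nd th (j + 1)), psi x = al j + be j * x

/-- The jump at the node `j ≥ 1`. -/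
def jm {m : ℕ} (th : Fin m → ℝ) (al be : ℕ → ℝ) (j : ℕ) : ℝ :=
  (al j + be j * nd th j) - (al (j - 1) + be (j - 1) * nd th j)

/-- The node values `0, w 0, ..., w (m - 1), 0, 0, ...` of the function with the values `w i` at
the marks. -/
def nv {m : ℕ} (w : Fin m → ℝ) (j : ℕ) : ℝ :=
  if j = 0 then 0 else if h : j - 1 < m then w ⟨j - 1, h⟩ else 0

/-- The slope of the interpolation on the interval `(nd th j, nd th (j + 1))`. -/
def sl {m : ℕ} (th w : Fin m → ℝ) (j : ℕ) : ℝ :=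
  (nv w (j + 1) - nv w j) / (nd th (j + 1) - nd th j)

/-- The piecewise affine function with the values `w i` at the marks and `0` at `0` and `1`. -/
def Wf {m : ℕ} (th w : Fin m → ℝ) (x : ℝ) : ℝ := ∑ i, w i * hat th i x

/-- The piecewise affine function which is, on the interval number `j`, equal to minus the slope of
`Wf th w` times the interpolation of `t`: the derivative of `Wf (th + τ t) w` at `τ = 0`. -/
def Zf {m : ℕ} (th w t : Fin m → ℝ) (x : ℝ) : ℝ :=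
  ∑ j ∈ Finset.range (m + 1), (Ioo (nd th j) (nd th (j + 1))).indicator
    (fun x => -(sl th w j) * (nv t j + sl th t j * (x - nd th j))) x

/-- The profile of the normal derivatives on the side `x = √3`, for `(4 ^ j, 5 * 4 ^ j)`,
`j ≥ 1`. -/
def gp (τ : ℝ) : ℝ := sin (5 * τ) - 2 * sin (4 * τ) + 3 * sin τ

/-- The same for `(1, 5)`. -/
def gm (τ : ℝ) : ℝ := -sin (5 * τ) - 2 * sin (4 * τ) - 3 * sin τ

/-- `c1 = 59049 / (11200 π ^ 2)`. -/
def c1 : ℝ := 59049 / (11200 * π ^ 2)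

/-- `IO` for the eigenfunction `(4 ^ j, 5 * 4 ^ j)`. -/
def IOj (j : ℕ) (psi : ℝ → ℝ) : ℝ := 2 / 21 * ∫ x in (0 : ℝ)..1, g1 (4 ^ j * π * x) ^ 2 * psi x

/-- `IA` for the eigenfunction `(4 ^ j, 5 * 4 ^ j)`. -/
def IAj (j : ℕ) (psi : ℝ → ℝ) : ℝ :=
  1 / 7 * ∫ x in (0 : ℝ)..1,
    (if j = 0 then gm (π / 3 * x) else gp (4 ^ j * π / 3 * x)) ^ 2 * psi x

end

end Pool.Agent.MP4eed4eP.F
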