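import Mathlib

/-!
MP_4eed4e_an, project P, block F, module FDetA: injectivity gives a nonzero determinant.
-/

namespace Pool.Agent.MP4eed4eP.F

open Set Filter Topology

variable {ι : Type*} [Fintype ι] [DecidableEq ι]

omit [DecidableEq ι] in
/-- The vectors `L a`, `a ≥ 2`, span everything. -/
private theorem FDetA_span (L : ℕ → ι → ℝ)
    (hinj : ∀ v : ι → ℝ, (∀ a : ℕ, 2 ≤ a → ∑ i, v i * L a i = 0) → v = 0) :
    Submodule.span ℝ (Set.range fun a : {a : ℕ // 2 ≤ a} => L a) = ⊤ := by
  classical
  by_contra h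
  obtain ⟨f, hf0, hf⟩ := Submodule.exists_le_ker_of_lt_top _ (lt_top_iff_ne_top.2 h)
  have hfu : ∀ u : ι → ℝ, f u = ∑ i, f (Pi.single i 1) * u i := by
    intro u
    have h1 : u = ∑ i, u i • (Pi.single i 1 : ι → ℝ) := by
      funext j
      rw [Finset.sum_apply, Finset.sum_eq_single j]
      · rw [Pi.smul_apply, Pi.single_eq_same, smul_eq_mul, mul_one]
      · intro i _ hij
        rw [Pi.smul_apply, Pi.single_eq_of_ne hij.symm, smul_zero]
      · intro hj
        exact absurd (Finset.mem_univ j) hj
    conv_lhs => rw [h1]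
    rw [map_sum]
    refine Finset.sum_congr rfl fun i _ => ?_
    rw [map_smul, smul_eq_mul, mul_comm]
  have hv := hinj (fun i => f (Pi.single i 1)) (by
    intro a ha
    rw [← hfu (L a)]
    exact hf (Submodule.subset_span ⟨⟨a, ha⟩, rfl⟩))
  apply hf0
  refine LinearMap.ext fun u => ?_
  rw [hfu u, LinearMap.zero_apply]
  refine Finset.sum_eq_zero fun i _ => ?_
  rw [congrFun hv i, Pi.zero_apply, zero_mul]

/-- Proof. Let `V` be the span in `ι → ℝ` of the vectors `L a`, `a ≥ 2`. If `V` is not everything
then some nonzero vector `v` is orthogonal to it (`Submodule.exists_le_ker_of_lt_top`, and every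
linear functional of `ι → ℝ` is `u ↦ ∑ i, v i * u i`), against the hypothesis. So `V = ⊤` and the
family contains a basis (`exists_linearIndependent`, or `Submodule.exists_fun_fin_finrank_span_eq`,
or induction on `s`: for every `s ≤ card ι` there are `s` linearly independent members of the
family); as `finrank = card ι` it is indexed by `ι`, and a square matrix with linearly independent
rows has nonzero determinant (`Matrix.linearIndependent_rows_iff_isUnit`,
`Matrix.isUnit_iff_isUnit_det`). -/
theorem exists_det (L : ℕ → ι → ℝ)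
    (hinj : ∀ v : ι → ℝ, (∀ a : ℕ, 2 ≤ a → ∑ i, v i * L a i = 0) → v = 0) :
    ∃ a : ι → ℕ, (∀ i, 2 ≤ a i) ∧ (Matrix.of fun i j => L (a i) j).det ≠ 0 := by
  obtain ⟨κ, a, -, hspan, hli⟩ :=
    exists_linearIndependent' ℝ (fun a : {a : ℕ // 2 ≤ a} => L a)
  rw [FDetA_span L hinj] at hspan
  have B := Module.Basis.mk hli hspan.ge
  have : Finite κ := Module.Finite.finite_basis B
  have : Fintype κ := Fintype.ofFinite κ
  have hcard : Fintype.card ι = Fintype.card κ := by
    rw [← Module.finrank_eq_card_basis B, Module.finrank_fintype_fun_eq_card]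
  obtain ⟨e⟩ := Fintype.card_eq.1 hcard
  refine ⟨fun i => (a (e i) : ℕ), fun i => (a (e i)).2, ?_⟩
  have h1 : LinearIndependent ℝ (Matrix.of fun i j => L ((a (e i) : ℕ)) j).row :=
    hli.comp e e.injective
  have h2 := (Matrix.isUnit_iff_isUnit_det _).1 (Matrix.linearIndependent_rows_iff_isUnit.1 h1)
  exact h2.ne_zero

end Pool.Agent.MP4eed4eP.F
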