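import Pool.Agent.Lib.MP_4eed4e_an_PF.FDetA

/-!
MP_4eed4e_an, project P, block F, module FDetB: the Jacobian near a point at which some columns
vanish.
-/

namespace Pool.Agent.MP4eed4eP.F

open Set Filter Topology

variable {ι : Type*} [Fintype ι] [DecidableEq ι]

/-- Proof. `fderiv ℝ F` is continuous at `c`. -/
theorem col_reg {F : (ι → ℝ) → ℝ} {c : ι → ℝ} (hF : ContDiffAt ℝ 2 F c) (w e : ι → ℝ) :
    Tendsto (fun ε : ℝ => fderiv ℝ F (c + ε • w) e) (𝓝[>] 0) (𝓝 (fderiv ℝ F c e)) := by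
  have h1 : ContinuousAt (fderiv ℝ F) c :=
    (hF.fderiv_right (m := 1) (by norm_num)).continuousAt
  have h2 : Tendsto (fun ε : ℝ => c + ε • w) (𝓝[>] 0) (𝓝 c) := by
    have h3 : ContinuousAt (fun ε : ℝ => c + ε • w) 0 := by fun_prop
    have h4 : Tendsto (fun ε : ℝ => c + ε • w) (𝓝 0) (𝓝 (c + (0 : ℝ) • w)) := h3
    rw [zero_smul, add_zero] at h4
    exact h4.mono_left nhdsWithin_le_nhds
  have h5 : Tendsto (fun ε : ℝ => fderiv ℝ F (c + ε • w)) (𝓝[>] 0) (𝓝 (fderiv ℝ F c)) :=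
    h1.tendsto.comp h2
  have h6 : Continuous (fun L : (ι → ℝ) →L[ℝ] ℝ => L e) := by fun_prop
  exact (h6.tendsto _).comp h5

/-- Proof. `ε ↦ fderiv ℝ F (c + ε • w) e` has the derivative `fderiv ℝ (fderiv ℝ F) c w e` at `0`
(chain rule) and the value `0` at `0`. -/
theorem col_sing {F : (ι → ℝ) → ℝ} {c : ι → ℝ} (hF : ContDiffAt ℝ 2 F c) (w e : ι → ℝ)
    (h0 : fderiv ℝ F c e = 0) :
    Tendsto (fun ε : ℝ => fderiv ℝ F (c + ε • w) e / ε) (𝓝[>] 0)
      (𝓝 (fderiv ℝ (fderiv ℝ F) c w e)) := by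
  have h1 : HasFDerivAt (fderiv ℝ F) (fderiv ℝ (fderiv ℝ F) c) c :=
    ((hF.fderiv_right (m := 1) (by norm_num)).differentiableAt (by norm_num)).hasFDerivAt
  have h2 : HasDerivAt (fun ε : ℝ => c + ε • w) w 0 := by
    have := ((hasDerivAt_id (0 : ℝ)).smul_const w).const_add c
    simpa using this
  have h3 : HasDerivAt (fun ε : ℝ => fderiv ℝ F (c + ε • w))
      (fderiv ℝ (fderiv ℝ F) c w) 0 := by
    have h1' : HasFDerivAt (fderiv ℝ F) (fderiv ℝ (fderiv ℝ F) c) (c + (0 : ℝ) • w) := by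
      rw [zero_smul, add_zero]; exact h1
    exact h1'.comp_hasDerivAt (0 : ℝ) h2
  have h4 : HasDerivAt (fun ε : ℝ => fderiv ℝ F (c + ε • w) e)
      (fderiv ℝ (fderiv ℝ F) c w e) 0 := by
    have := h3.clm_apply (hasDerivAt_const (0 : ℝ) e)
    simpa using this
  have h5 := (hasDerivAt_iff_tendsto_slope.1 h4).mono_left
    (nhdsWithin_mono (0 : ℝ) (fun x hx => ne_of_gt hx : Ioi (0 : ℝ) ⊆ {0}ᶜ))
  refine h5.congr' ?_
  filter_upwards with ε
  rw [slope_def_field]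
  simp [h0]

/-- Proof. `exists_det` gives `a` with `det (L (a i) j) ≠ 0`. For `ε > 0` divide the columns `j`
with `T j` by `ε`: the determinant of the new matrix `M ε` is `ε ^ (- card T)` times the old one
(`Matrix.det_mul_row` or `det_mul_column`), and `M ε` tends to the matrix `L (a i) j`
(`col_reg`, `col_sing`), so `det (M ε)` tends to a nonzero number (`Continuous.matrix_det`,
`tendsto_pi_nhds`). -/
theorem det_near (T : ι → Prop) (F : ℕ → (ι → ℝ) → ℝ) (c w : ι → ℝ)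
    (hF : ∀ a : ℕ, 2 ≤ a → ContDiffAt ℝ 2 (F a) c)
    (hT : ∀ a : ℕ, 2 ≤ a → ∀ i, T i → fderiv ℝ (F a) c (Pi.single i 1) = 0)
    (L : ℕ → ι → ℝ)
    (h1 : ∀ a : ℕ, 2 ≤ a → ∀ i, ¬ T i → L a i = fderiv ℝ (F a) c (Pi.single i 1))
    (h2 : ∀ a : ℕ, 2 ≤ a → ∀ i, T i →
      L a i = fderiv ℝ (fderiv ℝ (F a)) c w (Pi.single i 1))
    (hinj : ∀ v : ι → ℝ, (∀ a : ℕ, 2 ≤ a → ∑ i, v i * L a i = 0) → v = 0) :
    ∃ a : ι → ℕ, (∀ i, 2 ≤ a i) ∧ ∀ᶠ ε in 𝓝[>] (0 : ℝ),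
      (Matrix.of fun i j => fderiv ℝ (F (a i)) (c + ε • w) (Pi.single j 1)).det ≠ 0 := by
  obtain ⟨a, ha, hdet⟩ := exists_det L hinj
  refine ⟨a, ha, ?_⟩
  classical
  have hM : ∀ i j, Tendsto (fun ε : ℝ => (if T j then ε⁻¹ else 1) *
      fderiv ℝ (F (a i)) (c + ε • w) (Pi.single j 1)) (𝓝[>] 0) (𝓝 (L (a i) j)) := by
    intro i j
    by_cases hj : T j
    · rw [h2 (a i) (ha i) j hj]
      refine (col_sing (hF (a i) (ha i)) w (Pi.single j 1) (hT (a i) (ha i) j hj)).congr ?_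
      intro ε
      rw [if_pos hj, div_eq_inv_mul]
    · rw [h1 (a i) (ha i) j hj]
      refine (col_reg (hF (a i) (ha i)) w (Pi.single j 1)).congr ?_
      intro ε
      rw [if_neg hj, one_mul]
  have hMt : Tendsto (fun ε : ℝ => Matrix.of fun i j => (if T j then ε⁻¹ else 1) *
      fderiv ℝ (F (a i)) (c + ε • w) (Pi.single j 1)) (𝓝[>] 0)
      (𝓝 (Matrix.of fun i j => L (a i) j)) := by
    refine tendsto_pi_nhds.2 fun i => tendsto_pi_nhds.2 fun j => ?_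
    exact hM i j
  have hd : Tendsto (fun ε : ℝ => (Matrix.of fun i j => (if T j then ε⁻¹ else 1) *
      fderiv ℝ (F (a i)) (c + ε • w) (Pi.single j 1)).det) (𝓝[>] 0)
      (𝓝 (Matrix.of fun i j => L (a i) j).det) := by
    have hc : Continuous (fun A : Matrix ι ι ℝ => A.det) := continuous_id.matrix_det
    exact (hc.tendsto _).comp hMt
  filter_upwards [hd.eventually_ne hdet] with ε hε h0
  apply hε
  have := Matrix.det_mul_row (fun j => (if T j then ε⁻¹ else 1 : ℝ))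
    (Matrix.of fun i j => fderiv ℝ (F (a i)) (c + ε • w) (Pi.single j 1))
  simp only [Matrix.of_apply] at this
  rw [this, h0, mul_zero]

end Pool.Agent.MP4eed4eP.F
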