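import Pool.Agent.Lib.MP_4eed4e_an_PF.FPiece

/-!
MP_4eed4e_an, project P, block F, module FNum: explicit values of `IOj` and `IAj`.
-/

namespace Pool.Agent.MP4eed4eP.F

open Real Set MeasureTheory Filter Topology

private theorem ss (a b : ℝ) : sin a * sin b = (cos (a - b) - cos (a + b)) / 2 := by
  rw [cos_sub, cos_add]; ring

private theorem half_int : ∫ x in (0 : ℝ)..1, ((0 : ℝ) + 1 * x) = 1 / 2 := by
  have : (fun x : ℝ => (0 : ℝ) + 1 * x) = fun x => x := by funext x; ring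
  rw [this, integral_id]; norm_num

/-- Proof. `piece_int` with `al = 0`, `be = 1`, `lam = 4 ^ j * π`: `Q1_pi`, `Q1_zero`, and
`Q2 lam = Q2 0` for `j ≥ 1` (`Q2_per`). -/
theorem IO_x {j : ℕ} (hj : 1 ≤ j) : IOj j (fun x => x) = 1 := by
  have hl : 0 < (4 : ℝ) ^ j * π := by positivity
  have h := piece_int hl 0 1 0 1
  rw [half_int] at h
  have e : (fun x : ℝ => g1 (4 ^ j * π * x) ^ 2 * (0 + 1 * x)) =
      fun x => g1 (4 ^ j * π * x) ^ 2 * x := by
    funext x; ring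
  rw [e] at h
  have q1 : Q1 (4 ^ j * π) = 0 := by
    have := Q1_pi (4 ^ j)
    push_cast at this
    exact this
  have q2 : Q2 (4 ^ j * π) = Q2 0 := by
    have := Q2_per (4 ^ j * π) (2 * 4 ^ (j - 1))
    rw [← this]
    congr 1
    obtain ⟨i, rfl⟩ : ∃ i, j = i + 1 := ⟨j - 1, by omega⟩
    push_cast
    rw [pow_succ]
    ring
  unfold IOj
  rw [h, mul_one, mul_zero, q1, q2, Q1_zero]
  ring

/-- Proof. `piece_int` and `Q2_pi`. -/
theorem IO_x0 : IOj 0 (fun x => x) = 1 + 19456 / (4725 * π ^ 2) := by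
  have h := piece_int pi_pos 0 1 0 1
  rw [half_int] at h
  have e : (fun x : ℝ => g1 (π * x) ^ 2 * (0 + 1 * x)) =
      fun x => g1 (π * x) ^ 2 * x := by
    funext x; ring
  rw [e] at h
  have q1 : Q1 π = 0 := by
    have := Q1_pi 1
    push_cast at this
    rwa [one_mul] at this
  have q2 := Q2_pi
  unfold IOj
  simp only [pow_zero, one_mul]
  rw [h, mul_one, mul_zero, q1, Q1_zero]
  have hp : π ≠ 0 := pi_pos.ne'
  have q3 : Q2 π = Q2 0 - 9728 / 225 := by linarith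
  rw [q3]
  field_simp
  ring

/-- `gp ^ 2 = 7 + R1'` with the sine polynomial `R1` of frequencies up to `10`. -/
theorem gp_sq (τ : ℝ) : gp τ ^ 2 = 7 - 2 * cos τ - 9 / 2 * cos (2 * τ) - 6 * cos (3 * τ)
    + 3 * cos (4 * τ) + 6 * cos (5 * τ) - 3 * cos (6 * τ) - 2 * cos (8 * τ) + 2 * cos (9 * τ)
    - 1 / 2 * cos (10 * τ) := by
  have e : gp τ ^ 2 = sin (5 * τ) * sin (5 * τ) + 4 * (sin (4 * τ) * sin (4 * τ))
      + 9 * (sin τ * sin τ) - 4 * (sin (5 * τ) * sin (4 * τ)) + 6 * (sin (5 * τ) * sin τ)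
      - 12 * (sin (4 * τ) * sin τ) := by
    unfold gp; ring
  rw [e, ss, ss, ss, ss, ss, ss]
  have a1 : 5 * τ - 5 * τ = 0 := by ring
  have a2 : 5 * τ + 5 * τ = 10 * τ := by ring
  have a3 : 4 * τ - 4 * τ = 0 := by ring
  have a4 : 4 * τ + 4 * τ = 8 * τ := by ring
  have a5 : τ - τ = 0 := by ring
  have a6 : τ + τ = 2 * τ := by ring
  have a7 : 5 * τ - 4 * τ = τ := by ring
  have a8 : 5 * τ + 4 * τ = 9 * τ := by ring
  have a9 : 5 * τ - τ = 4 * τ := by ring
  have a10 : 5 * τ + τ = 6 * τ := by ring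
  have a11 : 4 * τ - τ = 3 * τ := by ring
  have a12 : 4 * τ + τ = 5 * τ := by ring
  rw [a1, a2, a3, a4, a5, a6, a7, a8, a9, a10, a11, a12, cos_zero]
  ring

theorem gm_sq (τ : ℝ) : gm τ ^ 2 = 7 + 2 * cos τ - 9 / 2 * cos (2 * τ) + 6 * cos (3 * τ)
    + 3 * cos (4 * τ) - 6 * cos (5 * τ) - 3 * cos (6 * τ) - 2 * cos (8 * τ) - 2 * cos (9 * τ)
    - 1 / 2 * cos (10 * τ) := by
  have e : gm τ ^ 2 = sin (5 * τ) * sin (5 * τ) + 4 * (sin (4 * τ) * sin (4 * τ))
      + 9 * (sin τ * sin τ) + 4 * (sin (5 * τ) * sin (4 * τ)) + 6 * (sin (5 * τ) * sin τ)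
      + 12 * (sin (4 * τ) * sin τ) := by
    unfold gm; ring
  rw [e, ss, ss, ss, ss, ss, ss]
  have a1 : 5 * τ - 5 * τ = 0 := by ring
  have a2 : 5 * τ + 5 * τ = 10 * τ := by ring
  have a3 : 4 * τ - 4 * τ = 0 := by ring
  have a4 : 4 * τ + 4 * τ = 8 * τ := by ring
  have a5 : τ - τ = 0 := by ring
  have a6 : τ + τ = 2 * τ := by ring
  have a7 : 5 * τ - 4 * τ = τ := by ring
  have a8 : 5 * τ + 4 * τ = 9 * τ := by ring
  have a9 : 5 * τ - τ = 4 * τ := by ring
  have a10 : 5 * τ + τ = 6 * τ := by ring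
  have a11 : 4 * τ - τ = 3 * τ := by ring
  have a12 : 4 * τ + τ = 5 * τ := by ring
  rw [a1, a2, a3, a4, a5, a6, a7, a8, a9, a10, a11, a12, cos_zero]
  ring

private theorem gen_int {R S C : ℝ → ℝ} (hS : ∀ t, HasDerivAt S (R t) t)
    (hC : ∀ t, HasDerivAt C (S t) t) (hR : Continuous R) {lam : ℝ} (hl : 0 < lam)
    (h0 : S 0 = 0) (h1 : S lam = 0) (al be : ℝ) :
    ∫ x in (0 : ℝ)..1, (7 + R (lam * x)) * (al + be * x) =
      7 * (al + be / 2) + be * ((C 0 - C lam) / lam ^ 2) := by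
  have hd : ∀ x ∈ uIcc (0 : ℝ) 1, HasDerivAt (fun x => 7 * (al * x + be / 2 * x ^ 2)
      + S (lam * x) * (al + be * x) / lam - be * C (lam * x) / lam ^ 2)
      ((7 + R (lam * x)) * (al + be * x)) x := by
    intro x _
    have hm : HasDerivAt (fun x : ℝ => lam * x) lam x := by
      simpa using (hasDerivAt_id x).const_mul lam
    have hS' : HasDerivAt (fun x => S (lam * x)) (R (lam * x) * lam) x :=
      (hS (lam * x)).comp x hm
    have hC' : HasDerivAt (fun x => C (lam * x)) (S (lam * x) * lam) x :=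
      (hC (lam * x)).comp x hm
    have ha : HasDerivAt (fun x : ℝ => al + be * x) be x := by
      simpa using ((hasDerivAt_id x).const_mul be).const_add al
    have hb : HasDerivAt (fun x : ℝ => 7 * (al * x + be / 2 * x ^ 2))
        (7 * (al * 1 + be / 2 * (2 * x))) x := by
      have h2 : HasDerivAt (fun x : ℝ => x ^ 2) (2 * x) x := by
        simpa using hasDerivAt_pow 2 x
      exact ((((hasDerivAt_id x).const_mul al)).add (h2.const_mul (be / 2))).const_mul 7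
    have hc := (hb.add ((hS'.mul ha).div_const lam)).sub ((hC'.const_mul be).div_const (lam ^ 2))
    refine hc.congr_deriv ?_
    have : lam ≠ 0 := hl.ne'
    field_simp
    ring
  rw [intervalIntegral.integral_eq_sub_of_hasDerivAt hd]
  · have z0 : lam * 0 = 0 := mul_zero lam
    have z1 : lam * 1 = lam := mul_one lam
    rw [z0, z1, h0, h1]
    ring
  · apply Continuous.intervalIntegrable
    fun_prop

/-- Sine polynomial with derivative `gp ^ 2 - 7`. -/
private noncomputable def Sp (s : ℝ) (t : ℝ) : ℝ :=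
  -s * 2 * sin t - 9 / 4 * sin (2 * t) - s * 2 * sin (3 * t) + 3 / 4 * sin (4 * t)
    + s * (6 / 5) * sin (5 * t) - 1 / 2 * sin (6 * t) - 1 / 4 * sin (8 * t)
    + s * (2 / 9) * sin (9 * t) - 1 / 20 * sin (10 * t)

private noncomputable def Rp (s : ℝ) (t : ℝ) : ℝ :=
  - s * 2 * cos t - 9 / 2 * cos (2 * t) - s * 6 * cos (3 * t)
    + 3 * cos (4 * t) + s * 6 * cos (5 * t) - 3 * cos (6 * t) - 2 * cos (8 * t)
    + s * 2 * cos (9 * t) - 1 / 2 * cos (10 * t)

private noncomputable def Cp (s : ℝ) (t : ℝ) : ℝ :=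
  s * 2 * cos t + 9 / 8 * cos (2 * t) + s * (2 / 3) * cos (3 * t) - 3 / 16 * cos (4 * t)
    - s * (6 / 25) * cos (5 * t) + 1 / 12 * cos (6 * t) + 1 / 32 * cos (8 * t)
    - s * (2 / 81) * cos (9 * t) + 1 / 200 * cos (10 * t)

private theorem dsin (k t : ℝ) : HasDerivAt (fun t => sin (k * t)) (cos (k * t) * k) t := by
  have hm : HasDerivAt (fun x : ℝ => k * x) k t := by
    simpa using (hasDerivAt_id t).const_mul k
  exact (hasDerivAt_sin (k * t)).comp t hm

private theorem dcos (k t : ℝ) : HasDerivAt (fun t => cos (k * t)) (-sin (k * t) * k) t := by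
  have hm : HasDerivAt (fun x : ℝ => k * x) k t := by
    simpa using (hasDerivAt_id t).const_mul k
  exact (hasDerivAt_cos (k * t)).comp t hm

private theorem Sp_d (s t : ℝ) : HasDerivAt (Sp s) (Rp s t) t := by
  have h := (((((((((hasDerivAt_sin t).const_mul (-s * 2)).sub ((dsin 2 t).const_mul (9 / 4))).sub
    ((dsin 3 t).const_mul (s * 2))).add ((dsin 4 t).const_mul (3 / 4))).add
    ((dsin 5 t).const_mul (s * (6 / 5)))).sub ((dsin 6 t).const_mul (1 / 2))).sub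
    ((dsin 8 t).const_mul (1 / 4))).add ((dsin 9 t).const_mul (s * (2 / 9)))).sub
    ((dsin 10 t).const_mul (1 / 20))
  refine h.congr_deriv ?_
  unfold Rp
  ring

private theorem Cp_d (s t : ℝ) : HasDerivAt (Cp s) (Sp s t) t := by
  have h := (((((((((hasDerivAt_cos t).const_mul (s * 2)).add ((dcos 2 t).const_mul (9 / 8))).add
    ((dcos 3 t).const_mul (s * (2 / 3)))).sub ((dcos 4 t).const_mul (3 / 16))).sub
    ((dcos 5 t).const_mul (s * (6 / 25)))).add ((dcos 6 t).const_mul (1 / 12))).add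
    ((dcos 8 t).const_mul (1 / 32))).sub ((dcos 9 t).const_mul (s * (2 / 81)))).add
    ((dcos 10 t).const_mul (1 / 200))
  refine h.congr_deriv ?_
  unfold Sp
  ring

private theorem Rp_c (s : ℝ) : Continuous (Rp s) := by
  unfold Rp
  fun_prop

private theorem Sp_0 (s : ℝ) : Sp s 0 = 0 := by
  unfold Sp
  simp

private theorem s3 : sin (π / 3) = √3 / 2 := sin_pi_div_three

private theorem c3 : cos (π / 3) = 1 / 2 := cos_pi_div_three

/-- The values at the multiples of `π / 3`. -/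
private theorem tri (z : ℤ) : sin (2 * π * z) = 0 ∧ cos (2 * π * z) = 1 := by
  constructor
  · have := sin_int_mul_pi (2 * z)
    push_cast at this
    rw [← this]; congr 1; ring
  · have := cos_int_mul_two_pi z
    rw [← this]; congr 1; ring

private theorem sinz (a : ℝ) (z : ℤ) : sin (a + 2 * π * z) = sin a := by
  rw [sin_add, (tri z).1, (tri z).2]; ring

private theorem cosz (a : ℝ) (z : ℤ) : cos (a + 2 * π * z) = cos a := by
  rw [cos_add, (tri z).1, (tri z).2]; ring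

private theorem sneg : sin (-(π / 3)) = -(√3 / 2) := by rw [sin_neg, s3]

private theorem cneg : cos (-(π / 3)) = 1 / 2 := by rw [cos_neg, c3]

private theorem s23 : sin (2 * π / 3) = √3 / 2 := by
  have : 2 * π / 3 = π - π / 3 := by ring
  rw [this, sin_pi_sub, s3]

private theorem c23 : cos (2 * π / 3) = -(1 / 2) := by
  have : 2 * π / 3 = π - π / 3 := by ring
  rw [this, cos_pi_sub, c3]

private theorem four_pow {j : ℕ} (hj : 1 ≤ j) : ∃ n : ℤ, (4 : ℝ) ^ j = 4 + 6 * n := by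
  induction j, hj using Nat.le_induction with
  | base => exact ⟨0, by norm_num⟩
  | succ i _ ih =>
    obtain ⟨n, hn⟩ := ih
    refine ⟨4 * n + 2, ?_⟩
    rw [pow_succ, hn]
    push_cast
    ring

/-- `lam = -2 π / 3 + 2 π (n + 1)`. -/
private theorem lam_eq {j : ℕ} (hj : 1 ≤ j) :
    ∃ n : ℤ, (4 : ℝ) ^ j * π / 3 = -(2 * π / 3) + 2 * π * n := by
  obtain ⟨n, hn⟩ := four_pow hj
  refine ⟨n + 1, ?_⟩
  rw [hn]
  push_cast
  ring

private theorem valS (n : ℤ) : Sp 1 (-(2 * π / 3) + 2 * π * n) = 0 := by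
  unfold Sp
  have e1 : sin (-(2 * π / 3) + 2 * π * n) = -(√3 / 2) := by
    rw [sinz, sin_neg, s23]
  have e2 : sin (2 * (-(2 * π / 3) + 2 * π * n)) = √3 / 2 := by
    have : 2 * (-(2 * π / 3) + 2 * π * n) = 2 * π / 3 + 2 * π * ((2 * n - 1 : ℤ) : ℝ) := by
      push_cast; ring
    rw [this, sinz, s23]
  have e3 : sin (3 * (-(2 * π / 3) + 2 * π * n)) = 0 := by
    have : 3 * (-(2 * π / 3) + 2 * π * n) = 0 + 2 * π * ((3 * n - 1 : ℤ) : ℝ) := by
      push_cast; ring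
    rw [this, sinz, sin_zero]
  have e4 : sin (4 * (-(2 * π / 3) + 2 * π * n)) = -(√3 / 2) := by
    have : 4 * (-(2 * π / 3) + 2 * π * n) = -(2 * π / 3) + 2 * π * ((4 * n - 1 : ℤ) : ℝ) := by
      push_cast; ring
    rw [this, sinz, sin_neg, s23]
  have e5 : sin (5 * (-(2 * π / 3) + 2 * π * n)) = √3 / 2 := by
    have : 5 * (-(2 * π / 3) + 2 * π * n) = 2 * π / 3 + 2 * π * ((5 * n - 2 : ℤ) : ℝ) := by
      push_cast; ring
    rw [this, sinz, s23]
  have e6 : sin (6 * (-(2 * π / 3) + 2 * π * n)) = 0 := by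
    have : 6 * (-(2 * π / 3) + 2 * π * n) = 0 + 2 * π * ((6 * n - 2 : ℤ) : ℝ) := by
      push_cast; ring
    rw [this, sinz, sin_zero]
  have e8 : sin (8 * (-(2 * π / 3) + 2 * π * n)) = √3 / 2 := by
    have : 8 * (-(2 * π / 3) + 2 * π * n) = 2 * π / 3 + 2 * π * ((8 * n - 3 : ℤ) : ℝ) := by
      push_cast; ring
    rw [this, sinz, s23]
  have e9 : sin (9 * (-(2 * π / 3) + 2 * π * n)) = 0 := by
    have : 9 * (-(2 * π / 3) + 2 * π * n) = 0 + 2 * π * ((9 * n - 3 : ℤ) : ℝ) := by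
      push_cast; ring
    rw [this, sinz, sin_zero]
  have e10 : sin (10 * (-(2 * π / 3) + 2 * π * n)) = -(√3 / 2) := by
    have : 10 * (-(2 * π / 3) + 2 * π * n) = -(2 * π / 3) + 2 * π * ((10 * n - 3 : ℤ) : ℝ) := by
      push_cast; ring
    rw [this, sinz, sin_neg, s23]
  rw [e1, e2, e3, e4, e5, e6, e8, e9, e10]
  ring

private theorem valC (n : ℤ) : Cp 1 0 - Cp 1 (-(2 * π / 3) + 2 * π * n) =
    7 * 59049 / (9 * 11200) := by
  unfold Cp
  have e1 : cos (-(2 * π / 3) + 2 * π * n) = -(1 / 2) := by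
    rw [cosz, cos_neg, c23]
  have e2 : cos (2 * (-(2 * π / 3) + 2 * π * n)) = -(1 / 2) := by
    have : 2 * (-(2 * π / 3) + 2 * π * n) = 2 * π / 3 + 2 * π * ((2 * n - 1 : ℤ) : ℝ) := by
      push_cast; ring
    rw [this, cosz, c23]
  have e3 : cos (3 * (-(2 * π / 3) + 2 * π * n)) = 1 := by
    have : 3 * (-(2 * π / 3) + 2 * π * n) = 0 + 2 * π * ((3 * n - 1 : ℤ) : ℝ) := by
      push_cast; ring
    rw [this, cosz, cos_zero]
  have e4 : cos (4 * (-(2 * π / 3) + 2 * π * n)) = -(1 / 2) := by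
    have : 4 * (-(2 * π / 3) + 2 * π * n) = -(2 * π / 3) + 2 * π * ((4 * n - 1 : ℤ) : ℝ) := by
      push_cast; ring
    rw [this, cosz, cos_neg, c23]
  have e5 : cos (5 * (-(2 * π / 3) + 2 * π * n)) = -(1 / 2) := by
    have : 5 * (-(2 * π / 3) + 2 * π * n) = 2 * π / 3 + 2 * π * ((5 * n - 2 : ℤ) : ℝ) := by
      push_cast; ring
    rw [this, cosz, c23]
  have e6 : cos (6 * (-(2 * π / 3) + 2 * π * n)) = 1 := by
    have : 6 * (-(2 * π / 3) + 2 * π * n) = 0 + 2 * π * ((6 * n - 2 : ℤ) : ℝ) := by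
      push_cast; ring
    rw [this, cosz, cos_zero]
  have e8 : cos (8 * (-(2 * π / 3) + 2 * π * n)) = -(1 / 2) := by
    have : 8 * (-(2 * π / 3) + 2 * π * n) = 2 * π / 3 + 2 * π * ((8 * n - 3 : ℤ) : ℝ) := by
      push_cast; ring
    rw [this, cosz, c23]
  have e9 : cos (9 * (-(2 * π / 3) + 2 * π * n)) = 1 := by
    have : 9 * (-(2 * π / 3) + 2 * π * n) = 0 + 2 * π * ((9 * n - 3 : ℤ) : ℝ) := by
      push_cast; ring
    rw [this, cosz, cos_zero]
  have e10 : cos (10 * (-(2 * π / 3) + 2 * π * n)) = -(1 / 2) := by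
    have : 10 * (-(2 * π / 3) + 2 * π * n) = -(2 * π / 3) + 2 * π * ((10 * n - 3 : ℤ) : ℝ) := by
      push_cast; ring
    rw [this, cosz, cos_neg, c23]
  rw [e1, e2, e3, e4, e5, e6, e8, e9, e10]
  simp only [mul_zero, cos_zero]
  norm_num

private theorem valS0 : Sp (-1) (π / 3) = 0 := by
  unfold Sp
  have e2 : sin (2 * (π / 3)) = √3 / 2 := by
    have : 2 * (π / 3) = 2 * π / 3 := by ring
    rw [this, s23]
  have e3 : sin (3 * (π / 3)) = 0 := by
    have : 3 * (π / 3) = π := by ring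
    rw [this, sin_pi]
  have e4 : sin (4 * (π / 3)) = -(√3 / 2) := by
    have : 4 * (π / 3) = -(2 * π / 3) + 2 * π * ((1 : ℤ) : ℝ) := by push_cast; ring
    rw [this, sinz, sin_neg, s23]
  have e5 : sin (5 * (π / 3)) = -(√3 / 2) := by
    have : 5 * (π / 3) = -(π / 3) + 2 * π * ((1 : ℤ) : ℝ) := by push_cast; ring
    rw [this, sinz, sin_neg, s3]
  have e6 : sin (6 * (π / 3)) = 0 := by
    have : 6 * (π / 3) = 0 + 2 * π * ((1 : ℤ) : ℝ) := by push_cast; ring
    rw [this, sinz, sin_zero]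
  have e8 : sin (8 * (π / 3)) = √3 / 2 := by
    have : 8 * (π / 3) = 2 * π / 3 + 2 * π * ((1 : ℤ) : ℝ) := by push_cast; ring
    rw [this, sinz, s23]
  have e9 : sin (9 * (π / 3)) = 0 := by
    have : 9 * (π / 3) = π + 2 * π * ((1 : ℤ) : ℝ) := by push_cast; ring
    rw [this, sinz, sin_pi]
  have e10 : sin (10 * (π / 3)) = -(√3 / 2) := by
    have : 10 * (π / 3) = -(2 * π / 3) + 2 * π * ((2 : ℤ) : ℝ) := by push_cast; ring
    rw [this, sinz, sin_neg, s23]
  rw [s3, e2, e3, e4, e5, e6, e8, e9, e10]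
  ring

private theorem IA_pos {j : ℕ} (hj : 1 ≤ j) (al be : ℝ) : IAj j (fun x => al + be * x) =
    al + be / 2 + be * (c1 / 16 ^ j) := by
  obtain ⟨n, hn⟩ := lam_eq hj
  have hl : 0 < (4 : ℝ) ^ j * π / 3 := by positivity
  have h := gen_int (Sp_d 1) (Cp_d 1) (Rp_c 1) hl (Sp_0 1) (by rw [hn]; exact valS n) al be
  have hc : Cp 1 0 - Cp 1 (4 ^ j * π / 3) = 7 * 59049 / (9 * 11200) := by
    rw [hn]; exact valC n
  rw [hc] at h
  have hj0 : j ≠ 0 := by omega
  have e : (fun x : ℝ => (if j = 0 then gm (π / 3 * x) else gp (4 ^ j * π / 3 * x)) ^ 2 *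
      (fun x => al + be * x) x) =
      fun x => (7 + Rp 1 (4 ^ j * π / 3 * x)) * (al + be * x) := by
    funext x
    rw [if_neg hj0, gp_sq]
    unfold Rp
    ring
  unfold IAj
  rw [e, h]
  unfold c1
  have hp : π ≠ 0 := pi_pos.ne'
  have h16 : (16 : ℝ) ^ j = (4 ^ j) ^ 2 := by
    rw [← pow_mul, mul_comm, pow_mul]; norm_num
  rw [h16]
  have h4 : (4 : ℝ) ^ j ≠ 0 := by positivity
  field_simp
  ring

private theorem IA_zero (al be : ℝ) : IAj 0 (fun x => al + be * x) =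
    al + be / 2 + be / 7 * ((Cp (-1) 0 - Cp (-1) (π / 3)) / (π / 3) ^ 2) := by
  have hl : 0 < π / 3 := by positivity
  have h := gen_int (Sp_d (-1)) (Cp_d (-1)) (Rp_c (-1)) hl (Sp_0 (-1)) valS0 al be
  have e : (fun x : ℝ => (if (0 : ℕ) = 0 then gm (π / 3 * x) else gp (4 ^ 0 * π / 3 * x)) ^ 2 *
      (fun x => al + be * x) x) =
      fun x => (7 + Rp (-1) (π / 3 * x)) * (al + be * x) := by
    funext x
    rw [if_pos rfl, gm_sq]
    unfold Rp
    ring
  unfold IAj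
  rw [e, h]
  ring

/-- Proof. `∫_0^1 cos (k lam x) dx = sin (k lam) / (k lam)`. For `j ≥ 1` put `lam = 4 ^ j π / 3`;
`4 ^ j = 4 + 6 n`, so `sin (k lam) = sin (k 4 π / 3)`; for `j = 0`, `lam = π / 3`. In units of
`√3 / 2` the sums of `c_k sin (k lam) / k` are
`2 - 9 / 4 - 3 / 4 + 6 / 5 - 1 / 4 + 1 / 20 = 0` (both cases; the multiples of `3` give `0`). -/
theorem IA_one (j : ℕ) : IAj j (fun _ => 1) = 1 := by
  have e : (fun _ : ℝ => (1 : ℝ)) = fun x : ℝ => 1 + 0 * x := by funext x; ring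
  rw [e]
  rcases Nat.eq_zero_or_pos j with rfl | hj
  · rw [IA_zero]; ring
  · rw [IA_pos hj]; ring

/-- Proof. `∫_0^1 x cos (k lam x) dx = sin (k lam) / (k lam) + (cos (k lam) - 1) / (k lam) ^ 2`; the
sine terms add up to zero as in `IA_one`, and `∑ c_k (cos (k 4 π / 3) - 1) / k ^ 2` is
`7 * 59049 / (9 * 11200)` (`cos (k 4 π / 3) = - 1 / 2` unless `k` is a multiple of `3`). -/
theorem IA_x {j : ℕ} (hj : 1 ≤ j) : IAj j (fun x => x) = 1 / 2 + c1 / 16 ^ j := by
  have e : (fun x : ℝ => x) = fun x : ℝ => 0 + 1 * x := by funext x; ring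
  rw [e, IA_pos hj]
  ring

theorem IA_1x {j : ℕ} (hj : 1 ≤ j) : IAj j (fun x => 1 - x) = 1 / 2 - c1 / 16 ^ j := by
  have e : (fun x : ℝ => 1 - x) = fun x : ℝ => 1 + (-1) * x := by funext x; ring
  rw [e, IA_pos hj]
  ring

theorem IA_add (j : ℕ) : IAj j (fun x => x) + IAj j (fun x => 1 - x) = 1 := by
  have e : (fun x : ℝ => x) = fun x : ℝ => 0 + 1 * x := by funext x; ring
  have e' : (fun x : ℝ => 1 - x) = fun x : ℝ => 1 + (-1) * x := by funext x; ring
  rw [e', e]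
  rcases Nat.eq_zero_or_pos j with rfl | hj
  · rw [IA_zero, IA_zero]; ring
  · rw [IA_pos hj, IA_pos hj]; ring

end Pool.Agent.MP4eed4eP.F
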