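import Pool.Agent.Lib.MP_4eed4e_an_PF.FPiece

/-!
MP_4eed4e_an, project P, block F, module FPsi: a piecewise affine function which is not seen by
the eigenfunctions `(4 ^ j, 5 * 4 ^ j)` vanishes, if the marks are good.
-/

namespace Pool.Agent.MP4eed4eP.F

open Real Set MeasureTheory Filter Topology

variable {m : ℕ} {th : Fin m → ℝ}

/-- Proof. `4 ^ j * π * th k = π * (4 ^ j * th k - 2 z) + z * (2 * π)`; `Q1_per`, `Q1_cont`. -/
theorem near_Q1 {y : Fin m → ℝ} {J : ℕ → ℕ} {z : ℕ → Fin m → ℤ}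
    (hz : ∀ i, Tendsto (fun l => (4 : ℝ) ^ J l * th i - 2 * z l i) atTop (𝓝 (y i))) (k : Fin m) :
    Tendsto (fun l => Q1 (4 ^ J l * π * th k)) atTop (𝓝 (Q1 (π * y k))) := by
  have h1 : ∀ l, Q1 (4 ^ J l * π * th k) = Q1 (π * ((4 : ℝ) ^ J l * th k - 2 * z l k)) := by
    intro l
    rw [← Q1_per (4 ^ J l * π * th k) (z l k)]
    congr 1
    ring
  simp only [h1]
  exact (Q1_cont.tendsto _).comp ((hz k).const_mul π)

theorem near_Q2 {y : Fin m → ℝ} {J : ℕ → ℕ} {z : ℕ → Fin m → ℤ}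
    (hz : ∀ i, Tendsto (fun l => (4 : ℝ) ^ J l * th i - 2 * z l i) atTop (𝓝 (y i))) (k : Fin m) :
    Tendsto (fun l => Q2 (4 ^ J l * π * th k)) atTop (𝓝 (Q2 (π * y k))) := by
  have h1 : ∀ l, Q2 (4 ^ J l * π * th k) = Q2 (π * ((4 : ℝ) ^ J l * th k - 2 * z l k)) := by
    intro l
    rw [← Q2_per (4 ^ J l * π * th k) (z l k)]
    congr 1
    ring
  simp only [h1]
  exact (Q2_cont.tendsto _).comp ((hz k).const_mul π)

private theorem FPsi_sum (f : ℕ → ℝ) (m : ℕ) :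
    ∑ j ∈ Finset.Icc 1 m, f j = ∑ i : Fin m, f (i + 1) := by
  rw [Fin.sum_univ_eq_sum_range (fun i => f (i + 1)) m, Finset.range_eq_Ico,
    Finset.sum_Ico_add' f 0 m 1]
  rfl

private theorem FPsi_tel (be : ℕ → ℝ) (m : ℕ) : ∑ i : Fin m, (be (i + 1) - be i) = be m - be 0 := by
  rw [Fin.sum_univ_eq_sum_range (fun i => be (i + 1) - be i) m, Finset.sum_range_sub]

private theorem FPsi_bdd {f : ℝ → ℝ} {B : ℝ} (hf : ∀ x, |f x| ≤ B) (c : Fin m → ℝ)
    (x : ℕ → Fin m → ℝ) (j : ℕ) : |∑ i, c i * f (x j i)| ≤ ∑ i, |c i| * B := by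
  refine (Finset.abs_sum_le_sum_abs _ _).trans (Finset.sum_le_sum fun i _ => ?_)
  rw [abs_mul]
  exact mul_le_mul_of_nonneg_left (hf _) (abs_nonneg _)

private theorem FPsi_small {s : ℕ → ℝ} {B : ℝ} (hs : ∀ j, |s j| ≤ B) {u : ℕ → ℝ}
    (hu : Tendsto u atTop (𝓝 0)) : Tendsto (fun j => s j * u j) atTop (𝓝 0) := by
  refine squeeze_zero_norm (a := fun j => B * |u j|) (fun j => ?_) ?_
  · rw [Real.norm_eq_abs, abs_mul]
    exact mul_le_mul_of_nonneg_right (hs j) (abs_nonneg _)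
  · have h := hu.abs.const_mul B
    simpa using h

private theorem FPsi_pow (c : ℝ) (hc : 1 < c) :
    Tendsto (fun j : ℕ => (1 : ℝ) / c ^ j) atTop (𝓝 0) := by
  have h := tendsto_pow_atTop_nhds_zero_of_lt_one (inv_nonneg.2 (by linarith : (0 : ℝ) ≤ c))
    (inv_lt_one_of_one_lt₀ hc)
  refine h.congr fun j => ?_
  rw [inv_pow, one_div]

private theorem FPsi_single (c : Fin m → ℝ) (g : ℝ → ℝ) (h0 : g 0 = 0) (i : Fin m) :
    ∑ k, c k * g (π * (if k = i then 1 / 2 else 0)) = c i * g (π / 2) := by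
  rw [Finset.sum_eq_single i]
  · rw [if_pos rfl]
    congr 2
    ring
  · intro k _ hk
    rw [if_neg hk, mul_zero, h0, mul_zero]
  · intro h
    exact absurd (Finset.mem_univ i) h

/-- Proof. Put `lam = 4 ^ j * π`; `Q1 lam = 0` (`Q1_pi`), `Q2 lam = Q2 0` for `j ≥ 1` (`Q2_per`,
`4 ^ j` is even). By `pl_int` the hypothesis says, for `j ≥ 1`,
`C + K1 / 16 ^ j + (2 / 21) (- S1 j / lam + S2 j / lam ^ 2) = 0` with `C = K0 + 2 ∫ psi`,
`S1 j = ∑ jm i * Q1 (lam th)`, `S2 j = ∑ (be i - be (i - 1)) Q2 (lam th) + (be 0 - be m) Q2 0`.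
`S1`, `S2` are bounded (`Q1_bdd`, `Q2_bdd`), so `C = 0`. Multiply by `lam`: `S1 j → 0`. Along the
sequence of `Near th (e_i / 2)` one has `S1 (J l) → jm (i + 1) * Q1 (π / 2)` (`near_Q1`,
`Q1_zero`), so `jm (i + 1) = 0` by `Q1_half`, all `i`. Hence `S1 = 0`; multiply by `lam ^ 2`:
`π ^ 2 K1 + (2 / 21) S2 j = 0` for all `j ≥ 1`. The limits along `Near th 0` and `Near th (e_i / 2)`
give `(be (i + 1) - be i) (Q2 (π / 2) - Q2 0) = 0`, so `be (i + 1) = be i` by `Q2_half`. So all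
`be j` are equal and (jumps `0`) all `al j` are equal; `al 0 = 0` and `al m + be m = 0` give `0`.
Then `K0 + K1 / 16 ^ j = 0` for `j ≥ 1` by `pl_zero`, so `K1 = K0 = 0`. -/
theorem psi_zero (h : th ∈ MK m) (hn0 : Near th 0)
    (hn : ∀ i, Near th (fun k => if k = i then 1 / 2 else 0)) {psi : ℝ → ℝ} {al be : ℕ → ℝ}
    (hi : IntervalIntegrable psi volume 0 1) (hp : PL th psi al be) (h0 : al 0 = 0)
    (h1 : al m + be m = 0) {K0 K1 : ℝ}
    (hE : ∀ j : ℕ, 1 ≤ j → K0 + K1 / 16 ^ j + IOj j psi = 0) :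
    (∀ j ≤ m, al j = 0 ∧ be j = 0) ∧ K0 = 0 ∧ K1 = 0 := by
  set I : ℝ := ∫ x in (0 : ℝ)..1, psi x with hI
  set S1 : ℕ → ℝ := fun j => ∑ i : Fin m, jm th al be (i + 1) * Q1 (4 ^ j * π * th i) with hS1
  set S2 : ℕ → ℝ := fun j => ∑ i : Fin m, (be (i + 1) - be i) * (Q2 (4 ^ j * π * th i) - Q2 0)
    with hS2
  have hpi : (0 : ℝ) < π := pi_pos
  -- the main equation
  have hmain : ∀ j : ℕ, 1 ≤ j → (K0 + 2 * I) + K1 / 16 ^ j +
      2 / 21 * (-(S1 j) / (4 ^ j * π) + S2 j / (4 ^ j * π) ^ 2) = 0 := by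
    intro j hj
    have hl : (0 : ℝ) < 4 ^ j * π := by positivity
    have hq1 : Q1 (4 ^ j * π) = 0 := by
      have := Q1_pi (4 ^ j)
      push_cast at this
      exact this
    have hq2 : Q2 (4 ^ j * π) = Q2 0 := by
      obtain ⟨k, rfl⟩ : ∃ k, j = k + 1 := ⟨j - 1, by omega⟩
      rw [← Q2_per (4 ^ (k + 1) * π) (2 * 4 ^ k)]
      congr 1
      push_cast
      ring
    have h2 := hE j hj
    unfold IOj at h2
    rw [pl_int h hi hp hl, FPsi_sum (fun k => jm th al be k * Q1 (4 ^ j * π * nd th k)) m,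
      FPsi_sum (fun k => (be k - be (k - 1)) * Q2 (4 ^ j * π * nd th k)) m, hq1, hq2] at h2
    simp only [nd_mark, Nat.add_sub_cancel, zero_mul, zero_div, add_zero] at h2
    have h3 : S2 j = (∑ i : Fin m, (be (i + 1) - be i) * Q2 (4 ^ j * π * th i)) + be 0 * Q2 0 -
        be m * Q2 0 := by
      have h4 := FPsi_tel be m
      have h5 : S2 j = (∑ i : Fin m, (be (i + 1) - be i) * Q2 (4 ^ j * π * th i)) -
          (∑ i : Fin m, (be (i + 1) - be i)) * Q2 0 := by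
        rw [Finset.sum_mul, ← Finset.sum_sub_distrib]
        exact Finset.sum_congr rfl fun i _ => mul_sub _ _ _
      rw [h5, h4]
      ring
    rw [h3]
    simp only [hS1]
    linear_combination h2
  -- bounds
  have hb1 : ∀ j, |S1 j| ≤ ∑ i : Fin m, |jm th al be (i + 1)| * 40 := fun j =>
    FPsi_bdd Q1_bdd (fun i : Fin m => jm th al be (i + 1)) (fun j i => 4 ^ j * π * th i) j
  have hb2 : ∀ j, |S2 j| ≤ ∑ i : Fin m, |be (i + 1) - be i| * (30 + |Q2 0|) := fun j =>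
    FPsi_bdd (f := fun x => Q2 x - Q2 0) (fun x => (abs_sub _ _).trans (by
      have := Q2_bdd x
      linarith)) (fun i : Fin m => be (i + 1) - be i) (fun j i => 4 ^ j * π * th i) j
  have hu : Tendsto (fun j : ℕ => (1 : ℝ) / 4 ^ j) atTop (𝓝 0) := FPsi_pow 4 (by norm_num)
  have hu1 : Tendsto (fun j : ℕ => 1 / ((4 : ℝ) ^ j * π)) atTop (𝓝 0) := by
    have h2 := hu.mul_const (1 / π)
    rw [zero_mul] at h2
    refine h2.congr fun j => ?_
    rw [one_div_mul_one_div]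
  have hu2 : Tendsto (fun j : ℕ => 1 / ((4 : ℝ) ^ j * π) ^ 2) atTop (𝓝 0) := by
    have h2 := hu1.mul hu1
    rw [zero_mul] at h2
    refine h2.congr fun j => ?_
    rw [one_div_mul_one_div, sq]
  have hu3 : Tendsto (fun j : ℕ => (1 : ℝ) / 16 ^ j) atTop (𝓝 0) := FPsi_pow 16 (by norm_num)
  -- `C = 0`
  have hC : K0 + 2 * I = 0 := by
    have h2 : Tendsto (fun j : ℕ => -(K1 * (1 / 16 ^ j)) + 2 / 21 * (S1 j * (1 / (4 ^ j * π)) -
        S2 j * (1 / (4 ^ j * π) ^ 2))) atTop (𝓝 (-(K1 * 0) + 2 / 21 * (0 - 0))) :=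
      (hu3.const_mul K1).neg.add (((FPsi_small hb1 hu1).sub (FPsi_small hb2 hu2)).const_mul _)
    have h3 : Tendsto (fun _ : ℕ => K0 + 2 * I) atTop (𝓝 (-(K1 * 0) + 2 / 21 * (0 - 0))) := by
      refine h2.congr' ?_
      filter_upwards [eventually_ge_atTop 1] with j hj
      have h4 := hmain j hj
      have h5 : -(S1 j) / (4 ^ j * π) = -(S1 j * (1 / (4 ^ j * π))) := by ring
      have h6 : S2 j / (4 ^ j * π) ^ 2 = S2 j * (1 / (4 ^ j * π) ^ 2) := by ring
      have h7 : K1 / 16 ^ j = K1 * (1 / 16 ^ j) := by ring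
      rw [h5, h6, h7] at h4
      linarith
    have h4 := tendsto_nhds_unique tendsto_const_nhds h3
    rw [h4]
    ring
  have hmain2 : ∀ j : ℕ, 1 ≤ j → S1 j * (4 ^ j * π) = 21 / 2 * (π ^ 2 * K1) + S2 j := by
    intro j hj
    have hl : (0 : ℝ) < 4 ^ j * π := by positivity
    have h2 := hmain j hj
    rw [hC, zero_add] at h2
    have h16 : (16 : ℝ) ^ j = 4 ^ j * 4 ^ j := by rw [← mul_pow]; norm_num
    rw [h16] at h2
    have h4 : (4 : ℝ) ^ j ≠ 0 := by positivity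
    field_simp at h2
    linarith
  -- `S1 → 0`
  have hS1t : Tendsto S1 atTop (𝓝 0) := by
    have h2 : Tendsto (fun j : ℕ => 21 / 2 * (π ^ 2 * K1) * (1 / (4 ^ j * π)) +
        S2 j * (1 / (4 ^ j * π))) atTop (𝓝 (21 / 2 * (π ^ 2 * K1) * 0 + 0)) :=
      (hu1.const_mul _).add (FPsi_small hb2 hu1)
    rw [mul_zero, add_zero] at h2
    refine h2.congr' ?_
    filter_upwards [eventually_ge_atTop 1] with j hj
    have hl : (0 : ℝ) < 4 ^ j * π := by positivity
    rw [← add_mul, ← hmain2 j hj]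
    field_simp
  -- the jumps vanish
  have hjm : ∀ i : Fin m, jm th al be (i + 1) = 0 := by
    intro i
    obtain ⟨J, z, hJ, hz⟩ := hn i
    have h2 : Tendsto (fun l => S1 (J l)) atTop (𝓝 0) := hS1t.comp hJ
    have h3 : Tendsto (fun l => S1 (J l)) atTop (𝓝 (∑ k : Fin m, jm th al be (k + 1) *
        Q1 (π * (if k = i then 1 / 2 else 0)))) :=
      tendsto_finsetSum _ fun k _ => (near_Q1 hz k).const_mul _
    have h4 := tendsto_nhds_unique h2 h3
    rw [FPsi_single (fun k : Fin m => jm th al be (k + 1)) Q1 Q1_zero i] at h4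
    rcases mul_eq_zero.1 h4.symm with h5 | h5
    · exact h5
    · exact absurd h5 Q1_half
  have hS1z : ∀ j, S1 j = 0 := by
    intro j
    simp only [hS1]
    exact Finset.sum_eq_zero fun i _ => by rw [hjm i, zero_mul]
  have hS2c : ∀ j : ℕ, 1 ≤ j → S2 j = -(21 / 2 * (π ^ 2 * K1)) := by
    intro j hj
    have h2 := hmain2 j hj
    rw [hS1z, zero_mul] at h2
    linarith
  have hlim : ∀ {J : ℕ → ℕ}, Tendsto J atTop atTop →
      Tendsto (fun l => S2 (J l)) atTop (𝓝 (-(21 / 2 * (π ^ 2 * K1)))) := by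
    intro J hJ
    refine tendsto_const_nhds.congr' ?_
    filter_upwards [hJ.eventually (eventually_ge_atTop 1)] with l hl
    exact (hS2c _ hl).symm
  -- `K1 = 0`
  have hK1 : K1 = 0 := by
    obtain ⟨J, z, hJ, hz⟩ := hn0
    have h3 : Tendsto (fun l => S2 (J l)) atTop (𝓝 (∑ k : Fin m, (be (k + 1) - be k) *
        (Q2 (π * (0 : Fin m → ℝ) k) - Q2 0))) :=
      tendsto_finsetSum _ fun k _ => ((near_Q2 hz k).sub_const _).const_mul _
    have h4 := tendsto_nhds_unique (hlim hJ) h3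
    simp only [Pi.zero_apply, mul_zero, sub_self, Finset.sum_const_zero] at h4
    have h5 : π ^ 2 * K1 = 0 := by linarith
    rcases mul_eq_zero.1 h5 with h6 | h6
    · exact absurd h6 (by positivity)
    · exact h6
  have hbe : ∀ i : Fin m, be (i + 1) = be i := by
    intro i
    obtain ⟨J, z, hJ, hz⟩ := hn i
    have h3 : Tendsto (fun l => S2 (J l)) atTop (𝓝 (∑ k : Fin m, (be (k + 1) - be k) *
        (Q2 (π * (if k = i then 1 / 2 else 0)) - Q2 0))) :=
      tendsto_finsetSum _ fun k _ => ((near_Q2 hz k).sub_const _).const_mul _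
    have h4 := tendsto_nhds_unique (hlim hJ) h3
    rw [FPsi_single (fun k : Fin m => be (k + 1) - be k) (fun x => Q2 x - Q2 0) (sub_self _) i,
      hK1] at h4
    have h5 : (be (i + 1) - be i) * (Q2 (π / 2) - Q2 0) = 0 := by
      rw [← h4]
      ring
    rcases mul_eq_zero.1 h5 with h6 | h6
    · linarith
    · exact absurd (sub_eq_zero.1 h6) Q2_half
  -- all slopes and all constants are equal
  have hall : ∀ j ≤ m, al j = 0 ∧ be j = be 0 := by
    intro j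
    induction j with
    | zero => exact fun _ => ⟨h0, rfl⟩
    | succ j ih =>
      intro hj
      obtain ⟨h2, h3⟩ := ih (by omega)
      have h4 : be (j + 1) = be j := hbe ⟨j, by omega⟩
      have h5 : jm th al be (j + 1) = 0 := hjm ⟨j, by omega⟩
      unfold jm at h5
      rw [Nat.add_sub_cancel, h4, h2] at h5
      exact ⟨by linarith, h4.trans h3⟩
  have hbe0 : be 0 = 0 := by
    obtain ⟨h2, h3⟩ := hall m (le_refl _)
    rw [h2, h3, zero_add] at h1
    exact h1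
  have hfin : ∀ j ≤ m, al j = 0 ∧ be j = 0 := fun j hj =>
    ⟨(hall j hj).1, (hall j hj).2.trans hbe0⟩
  refine ⟨hfin, ?_, hK1⟩
  have h2 := pl_zero h hp hfin (fun _ => 1)
  simp only [one_mul] at h2
  rw [← hI] at h2
  rw [h2] at hC
  linarith

end Pool.Agent.MP4eed4eP.F
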