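import Pool.Agent.Lib.MP_4eed4e_an_PF.FHat
import Pool.Agent.Lib.MP_4eed4e_an_PF.FPsi
import Pool.Agent.Lib.MP_4eed4e_an_PF.FNum

/-!
MP_4eed4e_an, project P, block F, module FInj: injectivity of the variation.
-/

namespace Pool.Agent.MP4eed4eP.F

open Real Set MeasureTheory Filter Topology

variable {m : ℕ} {th : Fin m → ℝ}

/-- the value of an interpolation at the right end of an interval -/
private theorem finj_sl (h : th ∈ MK m) (w : Fin m → ℝ) {j : ℕ} (hj : j ≤ m) :
    nv w j + sl th w j * (nd th (j + 1) - nd th j) = nv w (j + 1) := by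
  have h1 : nd th (j + 1) - nd th j ≠ 0 := (sub_pos.2 (nd_lt h hj)).ne'
  rw [sl, div_mul_cancel₀ _ h1]
  ring

/-- Proof. `w = fun i => th i * (1 - th i)`, `psi = Wf th v + Zf th w t`. By `IO_x`, `IA_x`, `IA_1x`
the hypothesis for `j ≥ 1` is that of `psi_zero` with `K0 = (a + b) / 2 - c`, `K1 = (a - b) * c1`
and the coefficients `al j = nv v j - sl th v j * nd th j - sl th w j * (nv t j - sl th t j * nd
th j)`, `be j = sl th v j - sl th w j * sl th t j` (`Wf_pl`, `Zf_pl`); `al 0 = 0` and `al m + be
m = 0` by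
`nv_zero`, `nv_last`, `nd_zero`, `nd_last` (`nv v m + sl th v m * (1 - nd th m) = nv v (m + 1)`, the
same for `t`). So all `al j`, `be j` vanish, `(a + b) / 2 = c`, `a = b` (`c1 ≠ 0`). At the mark `i`:
`al i + be i * nd th (i + 1) = v i - sl th w i * t i` (left) and
`al (i + 1) + be (i + 1) * nd th (i + 1) = v i - sl th w (i + 1) * t i` (right), so
`(sl th w (i + 1) - sl th w i) * t i = 0` and `t i = 0` (`sl_par`, `nd_lt`), then `v i = 0`. For
`j = 0`: `a * 1 - c * (1 + 19456 / (4725 π ^ 2)) = 0` (`IA_add`, `IO_x0`, `pl_zero`), so `c = 0`. -/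
theorem inj (h : th ∈ MK m) (hn0 : Near th 0)
    (hn : ∀ i, Near th (fun k => if k = i then 1 / 2 else 0)) (a b c : ℝ) (v t : Fin m → ℝ)
    (hE : ∀ j : ℕ, a * IAj j (fun x => x) + b * IAj j (fun x => 1 - x) -
      c * IOj j (fun x => x) +
        IOj j (fun x => Wf th v x + Zf th (fun i => th i * (1 - th i)) t x) = 0) :
    a = 0 ∧ b = 0 ∧ c = 0 ∧ v = 0 ∧ t = 0 := by
  obtain ⟨w, hw⟩ : ∃ w : Fin m → ℝ, w = fun i => th i * (1 - th i) := ⟨_, rfl⟩
  rw [← hw] at hE
  have hc1 : 0 < c1 := by
    rw [c1]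
    positivity
  have hpl : PL th (fun x => Wf th v x + Zf th w t x)
      (fun j => (nv v j - sl th v j * nd th j) +
        -(sl th w j) * (nv t j - sl th t j * nd th j))
      (fun j => sl th v j + -(sl th w j) * sl th t j) := by
    intro j hj x hx
    have e1 := Wf_pl h v j hj x hx
    have e2 := Zf_pl h w t j hj x hx
    simp only at e1 e2 ⊢
    rw [e1, e2]
    ring
  have hint : IntervalIntegrable (fun x => Wf th v x + Zf th w t x) volume 0 1 :=
    ((Wf_cont th v).intervalIntegrable 0 1).add (Zf_int th w t 0 1)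
  obtain ⟨hz, hK0, hK1⟩ := psi_zero h hn0 hn (K0 := (a + b) / 2 - c) (K1 := (a - b) * c1)
    hint hpl (by
      simp only [nv_zero, nd_zero]
      ring) (by
      have e1 := finj_sl h v (le_refl m)
      have e2 := finj_sl h t (le_refl m)
      rw [nv_last, nd_last] at e1 e2
      linear_combination e1 - sl th w m * e2) (fun j hj => by
      have e1 := hE j
      rw [IA_x hj, IA_1x hj, IO_x hj] at e1
      linear_combination e1)
  have hab : a = b := by
    rcases mul_eq_zero.1 hK1 with h1 | h1
    · exact sub_eq_zero.1 h1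
    · exact absurd h1 hc1.ne'
  have hac : a = c := by
    rw [← hab] at hK0
    linarith
  have hm : ∀ i, t i = 0 ∧ v i = 0 := by
    intro i
    have hi : (i : ℕ) ≤ m := i.2.le
    have hi' : (i : ℕ) + 1 ≤ m := i.2
    have l1 := (hz i hi).1
    have l2 := (hz i hi).2
    have r1 := (hz (i + 1) hi').1
    have r2 := (hz (i + 1) hi').2
    have e1 := finj_sl h v hi
    have e2 := finj_sl h t hi
    have n1 := nv_mark v i
    have n2 := nv_mark t i
    have k1 : v i - sl th w i * t i = 0 := by
      rw [← n1, ← n2, ← e1, ← e2]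
      linear_combination l1 + nd th (i + 1) * l2
    have k2 : v i - sl th w (i + 1) * t i = 0 := by
      rw [← n1, ← n2]
      linear_combination r1 + nd th (i + 1) * r2
    have s1 : sl th w i = 1 - nd th i - nd th (i + 1) := by
      rw [hw]
      exact sl_par h hi
    have s2 : sl th w (i + 1) = 1 - nd th (i + 1) - nd th (i + 1 + 1) := by
      rw [hw]
      exact sl_par h hi'
    have d1 := nd_lt h hi
    have d2 := nd_lt h hi'
    have k3 : (nd th (i + 1 + 1) - nd th i) * t i = 0 := by
      rw [s1] at k1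
      rw [s2] at k2
      linear_combination k2 - k1
    have k4 : t i = 0 := by
      rcases mul_eq_zero.1 k3 with h1 | h1
      · linarith
      · exact h1
    refine ⟨k4, ?_⟩
    rw [k4, mul_zero, sub_zero] at k1
    exact k1
  have hv : v = 0 := funext fun i => (hm i).2
  have ht : t = 0 := funext fun i => (hm i).1
  have e0 := hE 0
  have hpsi : IOj 0 (fun x => Wf th v x + Zf th w t x) = 0 := by
    have h1 : (fun x => Wf th v x + Zf th w t x) = fun _ => (0 : ℝ) := by
      funext x
      have h2 := Wf_smul th v 0 x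
      have h3 := Zf_lin th w t t 0 0 x
      have h4 : (0 : ℝ) • v = v := by
        rw [hv, smul_zero]
      have h5 : (0 : ℝ) • t + (0 : ℝ) • t = t := by
        rw [ht, smul_zero, add_zero]
      rw [h4, zero_mul] at h2
      rw [h5, zero_mul, zero_add] at h3
      rw [h2, h3, add_zero]
    rw [h1, IOj]
    simp
  have hadd := IA_add 0
  rw [hpsi, IO_x0, ← hab, ← hac] at e0
  have h6 : a * (19456 / (4725 * π ^ 2)) = 0 := by
    linear_combination a * hadd - e0
  have h7 : (0 : ℝ) < 19456 / (4725 * π ^ 2) := by positivity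
  have ha : a = 0 := by
    rcases mul_eq_zero.1 h6 with h8 | h8
    · exact h8
    · exact absurd h8 h7.ne'
  exact ⟨ha, hab ▸ ha, hac ▸ ha, hv, ht⟩

end Pool.Agent.MP4eed4eP.F
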