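import Pool.Agent.Lib.MP_4eed4e_an_P.OutB
import Pool.Agent.Lib.MP_4eed4e_an_PF.FDefs

/-!
MP_4eed4e_an, project P, block F, module FKap: the simple eigenvalues.
-/

namespace Pool.Agent.MP4eed4eP.F

open Real Set MeasureTheory Filter Topology

/-- The indices `(4 ^ j, 5 * 4 ^ j)`. -/
def kap (j : ℕ) : KS := ⟨(4 ^ j, 5 * 4 ^ j), by
  have h : 1 ≤ 4 ^ j := Nat.one_le_pow _ _ (by norm_num)
  refine ⟨h, ?_, ?_⟩ <;> dsimp only <;> omega⟩

private theorem FKap_pow (j : ℕ) : (16 : ℝ) ^ j = (4 ^ j) ^ 2 := by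
  rw [← pow_mul, mul_comm, pow_mul]
  norm_num

theorem nrm_kap (j : ℕ) : nrm (kap j) = 7 * 16 ^ j := by
  simp only [nrm, kap]
  push_cast
  rw [FKap_pow]
  ring

/-- Proof. `mu κ = mu (kap j)` gives `nrm κ = nrm (kap j)`; `nrm_eq_seven`. -/
theorem mu_kap {j : ℕ} {κ : KS} (h : mu κ = mu (kap j)) : κ = kap j := by
  have h1 := nrm_pos κ
  have h2 := nrm_pos (kap j)
  have hpi : (0 : ℝ) < Real.pi ^ 2 := pow_pos Real.pi_pos 2
  have h3 : nrm κ = nrm (kap j) := by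
    unfold mu at h
    rw [div_eq_div_iff (by positivity) (by positivity)] at h
    have h4 : (36 * Real.pi ^ 2) * nrm (kap j) = (36 * Real.pi ^ 2) * nrm κ := by linarith
    exact (mul_left_cancel₀ (by positivity) h4).symm
  rw [nrm_kap] at h3
  exact Subtype.ext (nrm_eq_seven κ j h3)

private theorem FKap_C1 (j : ℕ) : Ci (kap j) 1 = -(2 * 4 ^ j) := by
  have : Ci (kap j) 1 = (((4 ^ j : ℕ) : ℤ) - ((5 * 4 ^ j : ℕ) : ℤ)) / 2 := rfl
  rw [this]
  push_cast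
  omega

private theorem FKap_C0 (j : ℕ) : Ci (kap j) 0 = 4 ^ j := by
  have : Ci (kap j) 0 = ((4 ^ j : ℕ) : ℤ) := rfl
  rw [this]
  push_cast
  rfl

private theorem FKap_C2 (j : ℕ) : Ci (kap j) 2 = -(3 * 4 ^ j) := by
  have : Ci (kap j) 2 = -((((4 ^ j : ℕ) : ℤ) + ((5 * 4 ^ j : ℕ) : ℤ)) / 2) := rfl
  rw [this]
  push_cast
  omega

private theorem FKap_B0 (j : ℕ) : Bi (kap j) 0 = 5 * 4 ^ j := by
  have : Bi (kap j) 0 = ((5 * 4 ^ j : ℕ) : ℤ) := rfl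
  rw [this]
  push_cast
  rfl

private theorem FKap_B1 (j : ℕ) : Bi (kap j) 1 = 4 * 4 ^ j := by
  have : Bi (kap j) 1 = (3 * ((4 ^ j : ℕ) : ℤ) + ((5 * 4 ^ j : ℕ) : ℤ)) / 2 := rfl
  rw [this]
  push_cast
  omega

private theorem FKap_B2 (j : ℕ) : Bi (kap j) 2 = -4 ^ j := by
  have : Bi (kap j) 2 = (3 * ((4 ^ j : ℕ) : ℤ) - ((5 * 4 ^ j : ℕ) : ℤ)) / 2 := rfl
  rw [this]
  push_cast
  omega

/-- Proof. `Ci (kap j) = 4 ^ j (1, -2, -3)`, `Bi (kap j) = 4 ^ j (5, 4, -1)`, so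
`gO (kap j) t = 4 ^ j * g1 (4 ^ j * π * t)`. -/
theorem gO_kap (j : ℕ) (t : ℝ) : gO (kap j) t = 4 ^ j * g1 (4 ^ j * π * t) := by
  unfold gO g1
  rw [Fin.sum_univ_three, FKap_C0, FKap_C1, FKap_C2, FKap_B0, FKap_B1, FKap_B2]
  push_cast
  have e1 : (4 : ℝ) ^ j * (π * t) = 4 ^ j * π * t := by ring
  have e2 : -(2 * (4 : ℝ) ^ j) * (π * t) = -(2 * (4 ^ j * π * t)) := by ring
  have e3 : -(3 * (4 : ℝ) ^ j) * (π * t) = -(3 * (4 ^ j * π * t)) := by ring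
  rw [e1, e2, e3, Real.sin_neg, Real.sin_neg]
  ring

private theorem FKap_cos (k : ℤ) (j : ℕ) (hj : j ≠ 0) :
    Real.cos ((k : ℝ) * 4 ^ j * π) = 1 := by
  obtain ⟨i, rfl⟩ := Nat.exists_eq_succ_of_ne_zero hj
  have : (k : ℝ) * 4 ^ (i + 1) * π = ((2 * k * 4 ^ i : ℤ) : ℝ) * (2 * π) := by
    push_cast
    ring
  rw [Nat.succ_eq_add_one, this]
  exact Real.cos_int_mul_two_pi _

/-- Proof. For `j ≥ 1` the numbers `Ci` are even (`cos (Ci π) = 1`) and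
`gA y = 4 ^ j (sin 5 τ - 2 sin 4 τ + 3 sin τ)`, `τ = 4 ^ j π / 3 * y`; for `j = 0`
`Ci = (1, -2, -3)`, `cos (Ci π) = (-1, 1, -1)`. -/
theorem gA_kap (j : ℕ) (y : ℝ) : gA (kap j) y =
    4 ^ j * (if j = 0 then gm (π / 3 * y) else gp (4 ^ j * π / 3 * y)) := by
  unfold gA
  rw [Fin.sum_univ_three, FKap_C0, FKap_C1, FKap_C2, FKap_B0, FKap_B1, FKap_B2]
  push_cast
  by_cases hj : j = 0
  · subst hj
    simp only [pow_zero, mul_one, if_true, one_mul]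
    unfold gm
    have c0 : Real.cos π = -1 := Real.cos_pi
    have c1 : Real.cos (-2 * π) = 1 := by
      rw [neg_mul, Real.cos_neg, Real.cos_two_pi]
    have c2 : Real.cos (-3 * π) = -1 := by
      have : (-3 * π : ℝ) = -(π + 2 * π) := by ring
      rw [this, Real.cos_neg, Real.cos_add_two_pi, Real.cos_pi]
    have e1 : 5 * (π * y / 3) = 5 * (π / 3 * y) := by ring
    have e2 : 4 * (π * y / 3) = 4 * (π / 3 * y) := by ring
    have e3 : -1 * (π * y / 3) = -(π / 3 * y) := by ring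
    rw [c0, c1, c2, e1, e2, e3, Real.sin_neg]
    ring
  · rw [if_neg hj]
    unfold gp
    have c0 : Real.cos ((4 : ℝ) ^ j * π) = 1 := by
      have := FKap_cos 1 j hj
      push_cast at this
      rwa [one_mul] at this
    have c1 : Real.cos (-(2 * (4 : ℝ) ^ j) * π) = 1 := by
      have := FKap_cos (-2) j hj
      push_cast at this
      rwa [neg_mul] at this
    have c2 : Real.cos (-(3 * (4 : ℝ) ^ j) * π) = 1 := by
      have := FKap_cos (-3) j hj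
      push_cast at this
      rwa [neg_mul] at this
    have e1 : 5 * (4 : ℝ) ^ j * (π * y / 3) = 5 * (4 ^ j * π / 3 * y) := by ring
    have e2 : 4 * (4 : ℝ) ^ j * (π * y / 3) = 4 * (4 ^ j * π / 3 * y) := by ring
    have e3 : -(4 : ℝ) ^ j * (π * y / 3) = -(4 ^ j * π / 3 * y) := by ring
    rw [c0, c1, c2, e1, e2, e3, Real.sin_neg]
    ring

private theorem FKap_mul1 (a I : ℝ) (ha : a ≠ 0) :
    2 / (3 * (7 * a)) * (a * I) = 2 / 21 * I := by
  field_simp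
  ring

private theorem FKap_mul2 (a I : ℝ) (ha : a ≠ 0) :
    1 / (7 * a) * (a * I) = 1 / 7 * I := by
  field_simp

theorem IO_kap (j : ℕ) (psi : ℝ → ℝ) : IO (kap j) psi = IOj j psi := by
  unfold IO IOj
  rw [nrm_kap]
  have h : ∀ t, gO (kap j) t ^ 2 * psi t = 16 ^ j * (g1 (4 ^ j * π * t) ^ 2 * psi t) := by
    intro t
    rw [gO_kap, FKap_pow]
    ring
  simp only [h]
  rw [intervalIntegral.integral_const_mul]
  exact FKap_mul1 _ _ (by positivity)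

theorem IA_kap (j : ℕ) (psi : ℝ → ℝ) : IA (kap j) psi = IAj j psi := by
  unfold IA IAj
  rw [nrm_kap]
  have h : ∀ t, gA (kap j) t ^ 2 * psi t = 16 ^ j *
      ((if j = 0 then gm (π / 3 * t) else gp (4 ^ j * π / 3 * t)) ^ 2 * psi t) := by
    intro t
    rw [gA_kap, FKap_pow]
    ring
  simp only [h]
  rw [intervalIntegral.integral_const_mul]
  exact FKap_mul2 _ _ (by positivity)

end Pool.Agent.MP4eed4eP.F
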