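import Mathlib

/-!
MP_4eed4e_an, project P, block F, module FSep: separation of the eigenvalues by the moments.
-/

namespace Pool.Agent.MP4eed4eP.F

open Real Set MeasureTheory Filter Topology

variable {K : Type*} {x c : K → ℝ}

/-- Proof. `x k ^ (2 * a) ≤ ...`: if `x k ≤ 1` then `x k ^ (2 a) ≤ x k ^ 2`; only finitely many `k`
have `x k > 1` (`Summable.tendsto_cofinite_zero`). Bounded `c`. -/
theorem sep_summable (hx : ∀ k, 0 < x k) (hs : Summable fun k => x k ^ 2) {C : ℝ}
    (hc : ∀ k, |c k| ≤ C) {a : ℕ} (ha : 1 ≤ a) : Summable fun k => x k ^ (2 * a) * c k := by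
  refine Summable.of_norm_bounded_eventually (hs.mul_right C) ?_
  have h1 : ∀ᶠ k in cofinite, x k ^ 2 < 1 :=
    hs.tendsto_cofinite_zero.eventually (gt_mem_nhds one_pos)
  filter_upwards [h1] with k hk
  have hx1 : x k ≤ 1 := by
    by_contra hcon
    push Not at hcon
    nlinarith
  rw [norm_mul, Real.norm_eq_abs, Real.norm_eq_abs, abs_of_nonneg (pow_nonneg (hx k).le _)]
  refine mul_le_mul ?_ (hc k) (abs_nonneg _) (pow_nonneg (hx k).le _)
  exact pow_le_pow_of_le_one (hx k).le hx1 (by omega)

private theorem FSep_fin (hs : Summable fun k => x k ^ 2) {v : ℝ} (hv : 0 < v) :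
    ∃ F : Finset K, ∀ k, k ∈ F ↔ v < x k := by
  have h1 : ∀ᶠ k in cofinite, x k ^ 2 < v ^ 2 :=
    hs.tendsto_cofinite_zero.eventually (gt_mem_nhds (by positivity))
  rw [Filter.eventually_cofinite] at h1
  have h2 : {k | v < x k}.Finite := by
    refine h1.subset fun k hk => ?_
    have hk' : v < x k := hk
    show ¬ x k ^ 2 < v ^ 2
    nlinarith
  exact ⟨h2.toFinset, fun k => by simp⟩

private theorem FSep_main (hx : ∀ k, 0 < x k) (hs : Summable fun k => x k ^ 2) {C : ℝ}
    (hc : ∀ k, |c k| ≤ C) (h : ∀ a : ℕ, 2 ≤ a → ∑' k, x k ^ (2 * a) * c k = 0) (n : ℕ) :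
    ∀ v : ℝ, 0 < v → ∀ F : Finset K, (∀ k, k ∈ F ↔ v < x k) → F.card = n →
      ∑' k, (if x k = v then c k else 0) = 0 := by
  classical
  induction n using Nat.strong_induction_on with
  | _ n ih =>
    intro v hv F hF hn
    have hgs : ∀ a : ℕ, 1 ≤ a → Summable fun k => (x k / v) ^ (2 * a) * c k := by
      intro a ha
      have h1 := (sep_summable hx hs hc ha).mul_left ((v ^ (2 * a))⁻¹)
      refine h1.congr fun k => ?_
      rw [div_pow]
      ring
    have hgt : ∀ a : ℕ, 2 ≤ a → ∑' k, (x k / v) ^ (2 * a) * c k = 0 := by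
      intro a ha
      have h1 : ∀ k, (x k / v) ^ (2 * a) * c k = (v ^ (2 * a))⁻¹ * (x k ^ (2 * a) * c k) := by
        intro k
        rw [div_pow]
        ring
      rw [tsum_congr h1, tsum_mul_left, h a ha, mul_zero]
    have hF0 : ∀ a : ℕ, ∑ k ∈ F, (x k / v) ^ (2 * a) * c k = 0 := by
      intro a
      rw [← Finset.sum_fiberwise_of_maps_to (g := x) (t := F.image x)
        (fun k hk => Finset.mem_image_of_mem x hk)]
      refine Finset.sum_eq_zero fun u hu => ?_
      obtain ⟨k₀, hk₀, hu₀⟩ := Finset.mem_image.1 hu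
      have huv : v < u := by
        rw [← hu₀]
        exact (hF k₀).1 hk₀
      have h1 : ∑ k ∈ F with x k = u, (x k / v) ^ (2 * a) * c k =
          (u / v) ^ (2 * a) * ∑ k ∈ F with x k = u, c k := by
        rw [Finset.mul_sum]
        refine Finset.sum_congr rfl fun k hk => ?_
        rw [(Finset.mem_filter.1 hk).2]
      have h2 : ∑' k, (if x k = u then c k else 0) = ∑ k ∈ F with x k = u, c k := by
        rw [tsum_eq_sum (s := F.filter fun k => x k = u)]
        · refine Finset.sum_congr rfl fun k hk => ?_
          rw [if_pos (Finset.mem_filter.1 hk).2]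
        · intro k hk
          rw [if_neg]
          intro hku
          apply hk
          rw [Finset.mem_filter]
          exact ⟨(hF k).2 (hku ▸ huv), hku⟩
      have h3 : ∑' k, (if x k = u then c k else 0) = 0 := by
        refine ih (F.filter fun k => u < x k).card ?_ u (hv.trans huv) (F.filter fun k => u < x k)
          (fun k => ?_) rfl
        · rw [← hn]
          refine Finset.card_lt_card (Finset.filter_ssubset.2 ⟨k₀, hk₀, ?_⟩)
          rw [hu₀]
          exact lt_irrefl _
        · rw [Finset.mem_filter, hF]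
          exact ⟨fun h4 => h4.2, fun h4 => ⟨huv.trans h4, h4⟩⟩
      rw [h1, ← h2, h3, mul_zero]
    have hlow : ∀ a : ℕ, 1 ≤ a →
        Summable fun k => if x k < v then (x k / v) ^ (2 * a) * c k else 0 := by
      intro a ha
      refine Summable.of_norm_bounded (hgs a ha).norm fun k => ?_
      split_ifs
      · exact le_rfl
      · rw [norm_zero]
        exact norm_nonneg _
    have hhigh : ∀ a : ℕ, HasSum (fun k => if v < x k then (x k / v) ^ (2 * a) * c k else 0)
        (0 : ℝ) := by
      intro a
      have h1 : HasSum (fun k => if v < x k then (x k / v) ^ (2 * a) * c k else 0)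
          (∑ k ∈ F, if v < x k then (x k / v) ^ (2 * a) * c k else 0) := by
        refine hasSum_sum_of_ne_finset_zero fun k hk => ?_
        rw [if_neg fun h2 => hk ((hF k).2 h2)]
      have h2 : (∑ k ∈ F, if v < x k then (x k / v) ^ (2 * a) * c k else 0) = 0 := by
        rw [← hF0 a]
        refine Finset.sum_congr rfl fun k hk => ?_
        rw [if_pos ((hF k).1 hk)]
      rwa [h2] at h1
    have hmid : Summable fun k => if x k = v then c k else 0 := by
      have h1 := ((hgs 1 le_rfl).sub (hlow 1 le_rfl)).sub (hhigh 1).summable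
      refine h1.congr fun k => ?_
      rcases lt_trichotomy (x k) v with h2 | h2 | h2
      · rw [if_pos h2, if_neg h2.not_gt, if_neg h2.ne]
        ring
      · rw [if_neg h2.not_lt, if_neg h2.symm.not_lt, if_pos h2, h2, div_self hv.ne']
        ring
      · rw [if_neg h2.not_gt, if_pos h2, if_neg h2.ne']
        ring
    have heq : ∀ a : ℕ, 2 ≤ a → ∑' k, (if x k = v then c k else 0) =
        -∑' k, (if x k < v then (x k / v) ^ (2 * a) * c k else 0) := by
      intro a ha
      have h1 := (hmid.hasSum.add (hlow a (by omega)).hasSum).add (hhigh a)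
      have h2 : HasSum (fun k => (x k / v) ^ (2 * a) * c k)
          (∑' k, (if x k = v then c k else 0) +
            ∑' k, (if x k < v then (x k / v) ^ (2 * a) * c k else 0) + 0) := by
        convert h1 using 1
        funext k
        rcases lt_trichotomy (x k) v with h2 | h2 | h2
        · rw [if_pos h2, if_neg h2.not_gt, if_neg h2.ne]
          ring
        · rw [if_neg h2.not_lt, if_neg h2.symm.not_lt, if_pos h2, h2, div_self hv.ne']
          ring
        · rw [if_neg h2.not_gt, if_pos h2, if_neg h2.ne']
          ring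
      have h3 := h2.tsum_eq
      rw [hgt a ha] at h3
      linarith
    have hlim : Tendsto (fun a : ℕ =>
        ∑' k, (if x k < v then (x k / v) ^ (2 * a) * c k else 0)) atTop (𝓝 0) := by
      have h0 : Tendsto (fun a : ℕ =>
          ∑' k, (if x k < v then (x k / v) ^ (2 * a) * c k else 0)) atTop
          (𝓝 (∑' _ : K, (0 : ℝ))) := ?_
      · rwa [tsum_zero] at h0
      refine tendsto_tsum_of_dominated_convergence (bound := fun k => (x k / v) ^ 2 * C) ?_
        (fun k => ?_) ?_
      · refine (hs.mul_left ((v ^ 2)⁻¹ * C)).congr fun k => ?_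
        rw [div_pow]
        ring
      · by_cases hk : x k < v
        · simp only [if_pos hk]
          have h1 : 0 ≤ x k / v := div_nonneg (hx k).le hv.le
          have h2 : (x k / v) ^ 2 < 1 := by
            have h3 : x k / v < 1 := (div_lt_one hv).2 hk
            nlinarith
          have h3 := (tendsto_pow_atTop_nhds_zero_of_lt_one (by positivity) h2).mul_const (c k)
          rw [zero_mul] at h3
          refine h3.congr fun a => ?_
          rw [pow_mul]
        · simp only [if_neg hk]
          exact tendsto_const_nhds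
      · filter_upwards [eventually_ge_atTop 1] with a ha k
        have hC : 0 ≤ C := (abs_nonneg _).trans (hc k)
        by_cases hk : x k < v
        · rw [if_pos hk, norm_mul, Real.norm_eq_abs, Real.norm_eq_abs]
          have h1 : 0 ≤ x k / v := div_nonneg (hx k).le hv.le
          rw [abs_of_nonneg (pow_nonneg h1 _)]
          refine mul_le_mul ?_ (hc k) (abs_nonneg _) (by positivity)
          exact pow_le_pow_of_le_one h1 ((div_lt_one hv).2 hk).le (by omega)
        · rw [if_neg hk, norm_zero]
          positivity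
    have hlim2 : Tendsto (fun _ : ℕ => ∑' k, (if x k = v then c k else 0)) atTop (𝓝 (-0)) := by
      refine hlim.neg.congr' ?_
      filter_upwards [eventually_ge_atTop 2] with a ha
      exact (heq a ha).symm
    rw [neg_zero] at hlim2
    exact tendsto_nhds_unique tendsto_const_nhds hlim2

/-- Proof. For `y ≤ 0` the set `{k | x k = y}` is empty. Suppose that the sum `C y` is not zero for
some `y > 0`. Only finitely many `k` have `x k ≥ y`, so there is a largest `y` with `C y ≠ 0`. The
sum of `x k ^ (2 a) c k` over the finite set `{x k > y}` is the sum over the values `v > y` of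
`v ^ (2 a) C v = 0`; so `0 = y ^ (2 a) C y + ∑_{x k < y} x k ^ (2 a) c k` for `a ≥ 2`, that is
`C y = - ∑_{x k < y} (x k / y) ^ (2 a) c k`, and the right side tends to zero for `a → ∞`
(`tendsto_tsum_of_dominated_convergence` with the bound `(x k / y) ^ 4 C`; or split off finitely
many `k`). -/
theorem sep (hx : ∀ k, 0 < x k) (hs : Summable fun k => x k ^ 2) {C : ℝ}
    (hc : ∀ k, |c k| ≤ C) (h : ∀ a : ℕ, 2 ≤ a → ∑' k, x k ^ (2 * a) * c k = 0) (y : ℝ) :
    ∑' k, (if x k = y then c k else 0) = 0 := by
  by_cases hy : 0 < y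
  · obtain ⟨F, hF⟩ := FSep_fin hs hy
    exact FSep_main hx hs hc h F.card y hy F hF rfl
  · have h1 : ∀ k, (if x k = y then c k else 0) = 0 := by
      intro k
      rw [if_neg]
      intro h2
      exact hy (h2 ▸ hx k)
    rw [tsum_congr h1, tsum_zero]

/-- A simple eigenvalue. Proof. `sep` with `y = x k`, `tsum_eq_single k`. -/
theorem sep_one (hx : ∀ k, 0 < x k) (hs : Summable fun k => x k ^ 2) {C : ℝ}
    (hc : ∀ k, |c k| ≤ C) (h : ∀ a : ℕ, 2 ≤ a → ∑' k, x k ^ (2 * a) * c k = 0) {k : K}
    (hk : ∀ k', x k' = x k → k' = k) : c k = 0 := by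
  have h1 := sep hx hs hc h (x k)
  rw [tsum_eq_single k] at h1
  · rwa [if_pos rfl] at h1
  · intro k' hk'
    rw [if_neg]
    exact fun h2 => hk' (hk k' h2)

end Pool.Agent.MP4eed4eP.F
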