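import Pool.Agent.Lib.MP_4eed4e_an_PF.FSer
import Pool.Agent.Lib.MP_4eed4e_an_PF.FKap
import Pool.Agent.Lib.MP_4eed4e_an_PF.FSep
import Pool.Agent.Lib.MP_4eed4e_an_PF.FInj

/-!
MP_4eed4e_an, project P, block F, module FLamB: injectivity in terms of the series.
-/

namespace Pool.Agent.MP4eed4eP.F

open Real Set MeasureTheory Filter Topology

variable {m : ℕ} {th : Fin m → ℝ}

/-- The vector of the derivatives: first derivatives in the directions `s, Ax, Ay, r`, mixed
second derivatives in the directions `t`. -/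
noncomputable def LL {m : ℕ} (th w : Fin m → ℝ) (a : ℕ) : Ix m → ℝ :=
  Sum.elim ![2 * a * ∑' κ, mu κ ^ (2 * a) * IA κ (fun y => y),
    2 * a * ∑' κ, mu κ ^ (2 * a) * (2 / √3 * IA κ (fun y => 1 - y)),
    -(2 * a * ∑' κ, mu κ ^ (2 * a) * IO κ (fun t => t))]
    (Sum.elim (fun i => TT a (Zf th w (Pi.single i 1))) fun i => TT a (hat th i))

private theorem FLamB_int_id : IntervalIntegrable (fun y : ℝ => y) volume 0 1 :=
  continuous_id.intervalIntegrable 0 1

private theorem FLamB_int_sub : IntervalIntegrable (fun y : ℝ => 1 - y) volume 0 1 :=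
  (continuous_const.sub continuous_id).intervalIntegrable 0 1

private theorem FLamB_int_W (th v : Fin m → ℝ) : IntervalIntegrable (Wf th v) volume 0 1 :=
  (Wf_cont th v).intervalIntegrable 0 1

private theorem FLamB_int_WZ (th v w t : Fin m → ℝ) :
    IntervalIntegrable (fun x => Wf th v x + Zf th w t x) volume 0 1 :=
  (FLamB_int_W th v).add (Zf_int th w t 0 1)

private theorem FLamB_TT_zero {a : ℕ} (ha : 1 ≤ a) : TT a (fun _ => (0 : ℝ)) = 0 := by
  have h := TT_lin ha FLamB_int_id FLamB_int_id 0 0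
  simpa only [zero_mul, add_zero] using h

private theorem FLamB_TT_sum {a : ℕ} (ha : 1 ≤ a) {ι : Type} (s : Finset ι) (v : ι → ℝ)
    (f : ι → ℝ → ℝ) (hf : ∀ i, IntervalIntegrable (f i) volume 0 1) :
    IntervalIntegrable (fun x => ∑ i ∈ s, v i * f i x) volume 0 1 ∧
      TT a (fun x => ∑ i ∈ s, v i * f i x) = ∑ i ∈ s, v i * TT a (f i) := by
  classical
  induction s using Finset.induction_on with
  | empty =>
    simp only [Finset.sum_empty]
    exact ⟨continuous_const.intervalIntegrable 0 1, FLamB_TT_zero ha⟩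
  | insert i s hi ih =>
    simp only [Finset.sum_insert hi]
    refine ⟨((hf i).const_mul (v i)).add ih.1, ?_⟩
    have h := TT_lin ha (hf i) ih.1 (v i) 1
    simp only [one_mul] at h
    rw [h, ih.2]

private theorem FLamB_Zf_sum (th w : Fin m → ℝ) (t : Fin m → ℝ) (s : Finset (Fin m)) (x : ℝ) :
    Zf th w (∑ i ∈ s, Pi.single i (t i)) x = ∑ i ∈ s, t i * Zf th w (Pi.single i 1) x := by
  induction s using Finset.induction_on with
  | empty =>
    have h := Zf_lin th w 0 0 0 0 x
    simpa only [Finset.sum_empty, smul_zero, add_zero, zero_mul] using h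
  | insert i s hi ih =>
    rw [Finset.sum_insert hi, Finset.sum_insert hi, ← ih]
    have h := Zf_lin th w (Pi.single i 1) (∑ i ∈ s, Pi.single i (t i)) (t i) 1 x
    rw [one_smul, one_mul] at h
    rw [← h, ← Pi.single_smul, smul_eq_mul, mul_one]

private theorem FLamB_Zf (th w : Fin m → ℝ) (t : Fin m → ℝ) :
    Zf th w t = fun x => ∑ i, t i * Zf th w (Pi.single i 1) x := by
  funext x
  rw [← FLamB_Zf_sum, Finset.univ_sum_single]

private theorem FLamB_hat_int (th : Fin m → ℝ) (i : Fin m) :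
    IntervalIntegrable (hat th i) volume 0 1 := (hat_cont th i).intervalIntegrable 0 1

private theorem FLamB_TT_Wf {a : ℕ} (ha : 1 ≤ a) (th v : Fin m → ℝ) :
    ∑ i, v i * TT a (hat th i) = TT a (Wf th v) :=
  (FLamB_TT_sum ha Finset.univ v (fun i => hat th i) fun i => FLamB_hat_int th i).2.symm

private theorem FLamB_TT_Zf {a : ℕ} (ha : 1 ≤ a) (th w t : Fin m → ℝ) :
    ∑ i, t i * TT a (Zf th w (Pi.single i 1)) = TT a (Zf th w t) := by
  rw [FLamB_Zf th w t]
  exact (FLamB_TT_sum ha Finset.univ t (fun i => Zf th w (Pi.single i 1)) fun i =>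
    Zf_int th w _ 0 1).2.symm

/-- Proof. Linearity (`TT_lin`, `Wf`, `Zf_lin`, `Finset` inductions, `summable_bdd`, `IO_abs`,
`IA_abs`). -/
theorem sum_LL (h : th ∈ MK m) (w : Fin m → ℝ) {a : ℕ} (ha : 2 ≤ a) (v : Ix m → ℝ) :
    ∑ i, v i * LL th w a i = 2 * a * ∑' κ, mu κ ^ (2 * a) *
      (v (iS m) * IA κ (fun y => y) + v (iX m) * (2 / √3) * IA κ (fun y => 1 - y) -
        v (iY m) * IO κ (fun t => t) +
        IO κ (fun x => Wf th (fun i => v (iR i)) x + Zf th w (fun i => v (iT i)) x)) := by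
  have ha1 : 1 ≤ a := by omega
  have s1 := summable_bdd ha1 (c := fun κ => IA κ (fun y => y)) fun κ => IA_abs κ FLamB_int_id
  have s2 := (summable_bdd ha1 (c := fun κ => IA κ (fun y => 1 - y)) fun κ =>
    IA_abs κ FLamB_int_sub)
  have s3 := summable_bdd ha1 (c := fun κ => IO κ (fun t => t)) fun κ => IO_abs κ FLamB_int_id
  have s4 := summable_bdd ha1 (c := fun κ => IO κ (fun x => Wf th (fun i => v (iR i)) x +
    Zf th w (fun i => v (iT i)) x)) fun κ => IO_abs κ (FLamB_int_WZ th _ w _)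
  have hT : ∑ i : Fin m, v (iT i) * TT a (Zf th w (Pi.single i 1)) =
      TT a (Zf th w fun i => v (iT i)) := FLamB_TT_Zf ha1 th w fun i => v (iT i)
  have hR : ∑ i : Fin m, v (iR i) * TT a (hat th i) = TT a (Wf th fun i => v (iR i)) :=
    FLamB_TT_Wf ha1 th fun i => v (iR i)
  have hTR : TT a (Wf th fun i => v (iR i)) + TT a (Zf th w fun i => v (iT i)) =
      2 * a * ∑' κ, mu κ ^ (2 * a) * IO κ (fun x => Wf th (fun i => v (iR i)) x +
        Zf th w (fun i => v (iT i)) x) := by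
    have h1 := TT_lin ha1 (FLamB_int_W th fun i => v (iR i))
      (Zf_int th w (fun i => v (iT i)) 0 1) 1 1
    simp only [one_mul] at h1
    rw [← h1, TT]
  have hB : ∑' κ : KS, mu κ ^ (2 * a) * (2 / √3 * IA κ (fun y => 1 - y)) =
      2 / √3 * ∑' κ : KS, mu κ ^ (2 * a) * IA κ (fun y => 1 - y) := by
    rw [← tsum_mul_left]
    exact tsum_congr fun κ => by ring
  have hS := ((((s1.hasSum.mul_left (v (iS m))).add
    (s2.hasSum.mul_left (v (iX m) * (2 / √3)))).add (s3.hasSum.mul_left (-v (iY m)))).add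
      s4.hasSum).tsum_eq
  have hE : ∑' κ : KS, mu κ ^ (2 * a) *
      (v (iS m) * IA κ (fun y => y) + v (iX m) * (2 / √3) * IA κ (fun y => 1 - y) -
        v (iY m) * IO κ (fun t => t) +
        IO κ (fun x => Wf th (fun i => v (iR i)) x + Zf th w (fun i => v (iT i)) x)) =
      v (iS m) * ∑' κ : KS, mu κ ^ (2 * a) * IA κ (fun y => y) +
        v (iX m) * (2 / √3) * ∑' κ : KS, mu κ ^ (2 * a) * IA κ (fun y => 1 - y) +
        -v (iY m) * ∑' κ : KS, mu κ ^ (2 * a) * IO κ (fun t => t) +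
        ∑' κ : KS, mu κ ^ (2 * a) * IO κ (fun x => Wf th (fun i => v (iR i)) x +
          Zf th w (fun i => v (iT i)) x) := by
    rw [← hS]
    exact tsum_congr fun κ => by ring
  have hL : ∑ i, v i * LL th w a i =
      v (iS m) * (2 * a * ∑' κ, mu κ ^ (2 * a) * IA κ (fun y => y)) +
      v (iX m) * (2 * a * ∑' κ, mu κ ^ (2 * a) * (2 / √3 * IA κ (fun y => 1 - y))) +
      v (iY m) * -(2 * a * ∑' κ, mu κ ^ (2 * a) * IO κ (fun t => t)) +
      (∑ i : Fin m, v (iT i) * TT a (Zf th w (Pi.single i 1)) +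
        ∑ i : Fin m, v (iR i) * TT a (hat th i)) := by
    rw [Fintype.sum_sum_type, Fintype.sum_sum_type, Fin.sum_univ_three]
    rfl
  rw [hL, hT, hR, hE, hB]
  linear_combination hTR

/-- Proof. By `sum_LL` and `sep_one` (`x = mu`, `summable_mu`, `mu_kap`; the coefficients are
bounded by `IO_abs`, `IA_abs`) the coefficient of `kap j` vanishes for every `j`; `IO_kap`,
`IA_kap` and `inj` with `a = v (iS m)`, `b = v (iX m) * (2 / √3)`, `c = v (iY m)`. -/
theorem LL_inj (h : th ∈ MK m) (hn0 : Near th 0)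
    (hn : ∀ i, Near th (fun k => if k = i then 1 / 2 else 0)) (v : Ix m → ℝ)
    (hv : ∀ a : ℕ, 2 ≤ a → ∑ i, v i * LL th (fun i => th i * (1 - th i)) a i = 0) : v = 0 := by
  have hb : ∀ κ : KS, |v (iS m) * IA κ (fun y => y) + v (iX m) * (2 / √3) *
      IA κ (fun y => 1 - y) - v (iY m) * IO κ (fun t => t) +
      IO κ (fun x => Wf th (fun i => v (iR i)) x +
        Zf th (fun i => th i * (1 - th i)) (fun i => v (iT i)) x)| ≤
      |v (iS m)| * (36 * ∫ x in (0 : ℝ)..1, |x|) +
      |v (iX m) * (2 / √3)| * (36 * ∫ x in (0 : ℝ)..1, |1 - x|) +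
      |v (iY m)| * (24 * ∫ x in (0 : ℝ)..1, |x|) +
      24 * ∫ x in (0 : ℝ)..1, |Wf th (fun i => v (iR i)) x +
        Zf th (fun i => th i * (1 - th i)) (fun i => v (iT i)) x| := by
    intro κ
    refine (abs_add_le _ _).trans (add_le_add ((abs_sub _ _).trans (add_le_add
      ((abs_add_le _ _).trans (add_le_add ?_ ?_)) ?_)) ?_)
    · rw [abs_mul]
      exact mul_le_mul_of_nonneg_left (IA_abs κ FLamB_int_id) (abs_nonneg _)
    · rw [abs_mul]
      exact mul_le_mul_of_nonneg_left (IA_abs κ FLamB_int_sub) (abs_nonneg _)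
    · rw [abs_mul]
      exact mul_le_mul_of_nonneg_left (IO_abs κ FLamB_int_id) (abs_nonneg _)
    · exact IO_abs κ (FLamB_int_WZ th _ _ _)
  have h0 : ∀ a : ℕ, 2 ≤ a → ∑' κ : KS, mu κ ^ (2 * a) *
      (v (iS m) * IA κ (fun y => y) + v (iX m) * (2 / √3) *
      IA κ (fun y => 1 - y) - v (iY m) * IO κ (fun t => t) +
      IO κ (fun x => Wf th (fun i => v (iR i)) x +
        Zf th (fun i => th i * (1 - th i)) (fun i => v (iT i)) x)) = 0 := by
    intro a ha
    have h1 := hv a ha
    rw [sum_LL h _ ha v] at h1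
    have h2 : (2 * (a : ℝ)) ≠ 0 := by
      have : 0 < a := by omega
      positivity
    exact (mul_eq_zero.1 h1).resolve_left h2
  have hE : ∀ j : ℕ, v (iS m) * IAj j (fun x => x) + v (iX m) * (2 / √3) *
      IAj j (fun x => 1 - x) - v (iY m) * IOj j (fun x => x) +
        IOj j (fun x => Wf th (fun i => v (iR i)) x +
          Zf th (fun i => th i * (1 - th i)) (fun i => v (iT i)) x) = 0 := by
    intro j
    have h1 := sep_one mu_pos summable_mu hb h0 (k := kap j) fun κ hκ => mu_kap hκ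
    rw [IA_kap, IA_kap, IO_kap, IO_kap] at h1
    exact h1
  obtain ⟨ha, hb', hc, hv', ht⟩ := inj h hn0 hn _ _ _ _ _ hE
  have h3 : (2 / √3 : ℝ) ≠ 0 := by positivity
  have hb2 : v (iX m) = 0 := (mul_eq_zero.1 hb').resolve_right h3
  funext i
  rcases i with i | i | i
  · fin_cases i
    · exact ha
    · exact hb2
    · exact hc
  · exact congrFun ht i
  · exact congrFun hv' i

end Pool.Agent.MP4eed4eP.F
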