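import Pool.Agent.Lib.MP_4eed4e_an_PF.FDefs

/-!
MP_4eed4e_an, project P, block F, module FMark: existence of good marks (Baire).
-/

namespace Pool.Agent.MP4eed4eP.F

open Real Set MeasureTheory Filter Topology

/-- The marks for which some `4 ^ j * th`, `j ≥ N`, is closer than `1 / (N + 1)` to `y`
modulo `2`. -/
def UN {m : ℕ} (y : Fin m → ℝ) (N : ℕ) : Set (Fin m → ℝ) :=
  {th | ∃ j, N ≤ j ∧ ∃ z : Fin m → ℤ, ∀ i, |(4 : ℝ) ^ j * th i - 2 * z i - y i| < 1 / (N + 1)}

theorem UN_open {m : ℕ} (y : Fin m → ℝ) (N : ℕ) : IsOpen (UN y N) := by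
  have h : UN y N = ⋃ (j : ℕ) (_ : N ≤ j) (z : Fin m → ℤ), ⋂ i : Fin m,
      {th : Fin m → ℝ | |(4 : ℝ) ^ j * th i - 2 * z i - y i| < 1 / (N + 1)} := by
    ext th
    constructor
    · rintro ⟨j, hj, z, hz⟩
      exact mem_iUnion.2 ⟨j, mem_iUnion.2 ⟨hj, mem_iUnion.2 ⟨z, mem_iInter.2 fun i => hz i⟩⟩⟩
    · intro h
      obtain ⟨j, h⟩ := mem_iUnion.1 h
      obtain ⟨hj, h⟩ := mem_iUnion.1 h
      obtain ⟨z, h⟩ := mem_iUnion.1 h
      exact ⟨j, hj, z, fun i => mem_iInter.1 h i⟩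
  rw [h]
  exact isOpen_iUnion fun j => isOpen_iUnion fun _ => isOpen_iUnion fun z =>
    isOpen_iInter_of_finite fun i => isOpen_lt (by fun_prop) continuous_const

/-- Proof. Let `th`, `δ > 0` be given. Choose `j ≥ N` with `4 ^ (-j) < δ`, integers `z i` with
`|4 ^ j * th i - 2 * z i - y i| ≤ 1` and the marks `th' i = 4 ^ (-j) (2 z i + y i)`. -/
theorem UN_dense {m : ℕ} (y : Fin m → ℝ) (N : ℕ) : Dense (UN y N) := by
  rw [Metric.dense_iff]
  intro th δ hδ
  obtain ⟨j0, hj0⟩ := exists_pow_lt_of_lt_one hδ (show (1 / 4 : ℝ) < 1 by norm_num)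
  set j := max N j0 with hj
  have hp : (0 : ℝ) < 4 ^ j := by positivity
  have h1 : 1 / (4 : ℝ) ^ j < δ := by
    refine lt_of_le_of_lt ?_ hj0
    rw [one_div_pow]
    exact one_div_le_one_div_of_le (by positivity)
      (pow_le_pow_right₀ (by norm_num) (le_max_right _ _))
  set z : Fin m → ℤ := fun i => round (((4 : ℝ) ^ j * th i - y i) / 2) with hz
  have h2 : ∀ i, |(4 : ℝ) ^ j * th i - 2 * z i - y i| ≤ 1 := by
    intro i
    have h3 := abs_sub_round (((4 : ℝ) ^ j * th i - y i) / 2)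
    have h4 : (4 : ℝ) ^ j * th i - 2 * z i - y i =
        2 * (((4 : ℝ) ^ j * th i - y i) / 2 - (z i : ℝ)) := by ring
    rw [h4, abs_mul, abs_of_pos (show (0 : ℝ) < 2 by norm_num)]
    have h5 : |((4 : ℝ) ^ j * th i - y i) / 2 - (z i : ℝ)| ≤ 1 / 2 := h3
    linarith
  refine ⟨fun i => (2 * z i + y i) / 4 ^ j, ?_, j, le_max_left _ _, z, fun i => ?_⟩
  · rw [Metric.mem_ball, dist_pi_lt_iff hδ]
    intro i
    refine lt_of_le_of_lt ?_ h1
    rw [Real.dist_eq]
    have h6 : (2 * (z i : ℝ) + y i) / 4 ^ j - th i =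
        -(((4 : ℝ) ^ j * th i - 2 * z i - y i) / 4 ^ j) := by
      field_simp
      ring
    rw [h6, abs_neg, abs_div, abs_of_pos hp]
    exact div_le_div_of_nonneg_right (h2 i) hp.le
  · have h7 : (4 : ℝ) ^ j * ((2 * z i + y i) / 4 ^ j) - 2 * z i - y i = 0 := by
      rw [mul_div_cancel₀ _ hp.ne']
      ring
    show |(4 : ℝ) ^ j * ((2 * z i + y i) / 4 ^ j) - 2 * z i - y i| < 1 / ((N : ℝ) + 1)
    rw [h7, abs_zero]
    positivity

/-- Proof. Choose `J N ≥ N` and `z N`. -/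
theorem near_of_UN {m : ℕ} {th y : Fin m → ℝ} (h : ∀ N, th ∈ UN y N) : Near th y := by
  choose J hJ z hz using h
  refine ⟨J, z, tendsto_atTop_mono hJ tendsto_id, fun i => ?_⟩
  refine tendsto_iff_norm_sub_tendsto_zero.2 (squeeze_zero (fun _ => norm_nonneg _)
    (fun l => ?_) (tendsto_one_div_add_atTop_nhds_zero_nat (𝕜 := ℝ)))
  rw [Real.norm_eq_abs]
  exact (hz l i).le

private theorem FMark_open (m : ℕ) : IsOpen (MK m) := by
  have h : MK m = (⋂ (i : Fin m) (j : Fin m) (_ : i < j), {th : Fin m → ℝ | th i < th j}) ∩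
      ⋂ i : Fin m, ({th : Fin m → ℝ | 0 < th i} ∩ {th : Fin m → ℝ | th i < 1}) := by
    ext th
    constructor
    · rintro ⟨h1, h2⟩
      exact ⟨mem_iInter.2 fun i => mem_iInter.2 fun j => mem_iInter.2 fun hij => h1 hij,
        mem_iInter.2 fun i => h2 i⟩
    · rintro ⟨h1, h2⟩
      refine ⟨fun i j hij => ?_, fun i => mem_iInter.1 h2 i⟩
      exact mem_iInter.1 (mem_iInter.1 (mem_iInter.1 h1 i) j) hij
  rw [h]
  refine IsOpen.inter ?_ ?_
  · exact isOpen_iInter_of_finite fun i => isOpen_iInter_of_finite fun j =>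
      isOpen_iInter_of_finite fun _ => isOpen_lt (by fun_prop) (by fun_prop)
  · exact isOpen_iInter_of_finite fun i =>
      (isOpen_lt continuous_const (by fun_prop)).inter (isOpen_lt (by fun_prop) continuous_const)

private theorem FMark_ne (m : ℕ) : (MK m).Nonempty := by
  refine ⟨fun i => ((i : ℕ) + 1 : ℝ) / (m + 2), fun i j hij => ?_, fun i => ⟨?_, ?_⟩⟩
  · have h : ((i : ℕ) : ℝ) < ((j : ℕ) : ℝ) := by exact_mod_cast hij
    show ((i : ℕ) + 1 : ℝ) / (m + 2) < ((j : ℕ) + 1 : ℝ) / (m + 2)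
    exact div_lt_div_of_pos_right (by linarith) (by positivity)
  · positivity
  · have h : ((i : ℕ) : ℝ) < (m : ℝ) := by exact_mod_cast i.2
    rw [div_lt_one (by positivity)]
    linarith

/-- Proof. The set of the admissible marks is open and not empty (`th i = (i + 1) / (m + 2)`), and
the intersection of the countably many sets `UN 0 N`, `UN (e_i / 2) N` is dense
(`dense_iInter_of_isOpen`, Baire). -/
theorem exists_marks (m : ℕ) : ∃ th ∈ MK m, Near th 0 ∧
    ∀ i, Near th (fun k => if k = i then 1 / 2 else 0) := by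
  let Y : Option (Fin m) → Fin m → ℝ := fun o => match o with
    | none => 0
    | some i => fun k => if k = i then 1 / 2 else 0
  have hd : Dense (⋂ p : Option (Fin m) × ℕ, UN (Y p.1) p.2) :=
    dense_iInter_of_isOpen (fun p => UN_open _ _) (fun p => UN_dense _ _)
  obtain ⟨th, h1, h2⟩ := hd.inter_open_nonempty (MK m) (FMark_open m) (FMark_ne m)
  have h3 : ∀ o N, th ∈ UN (Y o) N := fun o N => mem_iInter.1 h2 (o, N)
  exact ⟨th, h1, near_of_UN (h3 none), fun i => near_of_UN (h3 (some i))⟩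

end Pool.Agent.MP4eed4eP.F
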