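import Pool.Agent.Lib.MP_4eed4e_an_PF.FLamA
import Pool.Agent.Lib.MP_4eed4e_an_PF.FLamB
import Pool.Agent.Lib.MP_4eed4e_an_PF.FDetB
import Pool.Agent.Lib.MP_4eed4e_an_PF.FMark

/-!
MP_4eed4e_an, project P, block F, module FEnd: the Jacobian is not identically zero.
-/

namespace Pool.Agent.MP4eed4eP.F

open Real Set MeasureTheory Filter Topology

/-- The determinant of a derivative as the determinant of the matrix of the partial derivatives.
Proof. `fderiv_pi`, `LinearMap.det_toLin'` or `LinearMap.det_eq_det_toMatrix_of_finset`-like: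
the matrix of the map in the standard basis has the entries
`fderiv ℝ (F i) c (Pi.single j 1)` (`LinearMap.toMatrix'`, `LinearMap.det_toMatrix'`). -/
theorem det_fderiv {ι : Type*} [Fintype ι] [DecidableEq ι] (F : ι → (ι → ℝ) → ℝ) (c : ι → ℝ)
    (hF : ∀ i, DifferentiableAt ℝ (F i) c) :
    (fderiv ℝ (fun (c : ι → ℝ) (i : ι) => F i c) c).det =
      (Matrix.of fun i j => fderiv ℝ (F i) c (Pi.single j 1)).det := by
  rw [fderiv_pi hF, ContinuousLinearMap.det, ← LinearMap.det_toMatrix']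
  rfl

/-- Proof. `exists_marks` gives `th`; `w = fun i => th i * (1 - th i)`; `det_near` for
`F a = Fn m a`, `c = cs th`, the direction `dR w`, `T i` = `i` is some `iT j`, `L = LL th w`, with
`Fn_smooth`, `fderiv_iT`, `fderiv_iS`, `fderiv_iX`, `fderiv_iY`, `fderiv_iR`, `fderiv2`,
`LL_inj`. For small `ε > 0` the point `cs th + ε • dR w` is in `CM m` (`cs_mem`, `isOpen_CM`);
`det_fderiv`, `analytic_Fn`. -/
theorem exists_det' (m : ℕ) : ∃ a : Ix m → ℕ, (∀ i, 2 ≤ a i) ∧ ∃ c ∈ CM m,
    (fderiv ℝ (fun (c : Par m) (i : Ix m) => Fn m (a i) c) c).det ≠ 0 := by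
  obtain ⟨th, hth, hn0, hn⟩ := exists_marks m
  obtain ⟨w, hw⟩ : ∃ w : Fin m → ℝ, w = fun i => th i * (1 - th i) := ⟨_, rfl⟩
  obtain ⟨a, ha, hdet⟩ := det_near (fun i : Ix m => ∃ j, i = iT j) (Fn m) (cs th) (dR w)
    (fun a ha => Fn_smooth (by omega) hth)
    (by
      rintro a ha i ⟨j, rfl⟩
      exact fderiv_iT (by omega) hth j)
    (LL th w)
    (by
      intro a ha i hi
      rcases i with i | i | i
      · fin_cases i
        · exact (fderiv_iS ha th hth).symm
        · exact (fderiv_iX ha th hth).symm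
        · exact (fderiv_iY ha th hth).symm
      · exact absurd ⟨i, rfl⟩ hi
      · exact (fderiv_iR ha th hth i).symm)
    (by
      rintro a ha i ⟨j, rfl⟩
      exact (fderiv2 ha hth w j).symm)
    (by
      intro v hv
      rw [hw] at hv
      exact LL_inj hth hn0 hn v hv)
  have hev : ∀ᶠ ε in 𝓝[>] (0 : ℝ), cs th + ε • dR w ∈ CM m := by
    have h1 : Continuous fun ε : ℝ => cs th + ε • dR w := by fun_prop
    have h2 : CM m ∈ 𝓝 ((fun ε : ℝ => cs th + ε • dR w) 0) := by
      change CM m ∈ 𝓝 (cs th + (0 : ℝ) • dR w)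
      rw [zero_smul, add_zero]
      exact (isOpen_CM m).mem_nhds (cs_mem th hth)
    exact nhdsWithin_le_nhds ((h1.continuousAt (x := 0)).eventually h2)
  obtain ⟨ε, h1, h2⟩ := (hdet.and hev).exists
  refine ⟨a, ha, cs th + ε • dR w, h2, ?_⟩
  rw [det_fderiv (fun i => Fn m (a i))]
  · exact h1
  · intro i
    exact (analytic_Fn (le_trans one_le_two (ha i)) _ h2).differentiableAt

end Pool.Agent.MP4eed4eP.F
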