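import Pool.Agent.Lib.MP_4eed4e_an_PF.FNd

/-!
MP_4eed4e_an, project P, block F, module FHat: the piecewise affine functions `Wf` and `Zf`.
-/

namespace Pool.Agent.MP4eed4eP.F

open Real Set MeasureTheory Filter Topology

variable {m : ℕ} {th : Fin m → ℝ}

theorem hat_cont (th : Fin m → ℝ) (i : Fin m) : Continuous (hat th i) := by
  unfold hat
  exact continuous_const.max (((continuous_id.sub continuous_const).div_const _).min
    ((continuous_const.sub continuous_id).div_const _))

theorem Wf_cont (th w : Fin m → ℝ) : Continuous (Wf th w) := by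
  unfold Wf
  exact continuous_finsetSum _ fun i _ => continuous_const.mul (hat_cont th i)

/-- Proof. If `x` is in the interval number `j` (closed) then `hat th i x` is
`(x - nd j) / (nd (j + 1) - nd j)` for `j = i`, `(nd (j + 1) - x) / (nd (j + 1) - nd j)` for
`j = i + 1` and `0` otherwise (in the first case the second quotient is at least `1`, in the last
case one of the quotients is at most `0`; `nd_mono`). -/
theorem hat_piece (h : th ∈ MK m) (i : Fin m) {j : ℕ} (hj : j ≤ m) {x : ℝ}
    (hx : x ∈ Icc (nd th j) (nd th (j + 1))) :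
    hat th i x = if j = i then (x - nd th j) / (nd th (j + 1) - nd th j) else
      if j = i + 1 then (nd th (j + 1) - x) / (nd th (j + 1) - nd th j) else 0 := by
  have hi : (i : ℕ) ≤ m := i.2.le
  have hi1 : (i : ℕ) + 1 ≤ m := i.2
  have h1 : 0 < nd th (i + 1) - nd th i := sub_pos.2 (nd_lt h hi)
  have h2 : 0 < nd th (i + 2) - nd th (i + 1) := sub_pos.2 (nd_lt h hi1)
  unfold hat
  by_cases e1 : j = i
  · subst e1
    rw [if_pos rfl]
    have h3 : (x - nd th i) / (nd th (i + 1) - nd th i) ≤ 1 := by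
      rw [div_le_one h1]
      linarith [hx.2]
    have h4 : 1 ≤ (nd th (i + 2) - x) / (nd th (i + 2) - nd th (i + 1)) := by
      rw [le_div_iff₀ h2]
      linarith [hx.2]
    have h5 : 0 ≤ (x - nd th i) / (nd th (i + 1) - nd th i) :=
      div_nonneg (sub_nonneg.2 hx.1) h1.le
    rw [min_eq_left (h3.trans h4), max_eq_right h5]
  · rw [if_neg e1]
    by_cases e2 : j = i + 1
    · subst e2
      rw [if_pos rfl]
      have h3 : (nd th (i + 2) - x) / (nd th (i + 2) - nd th (i + 1)) ≤ 1 := by
        rw [div_le_one h2]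
        linarith [hx.1]
      have h4 : 1 ≤ (x - nd th i) / (nd th (i + 1) - nd th i) := by
        rw [le_div_iff₀ h1]
        linarith [hx.1]
      have h5 : 0 ≤ (nd th (i + 2) - x) / (nd th (i + 2) - nd th (i + 1)) :=
        div_nonneg (sub_nonneg.2 hx.2) h2.le
      rw [min_eq_right (h3.trans h4), max_eq_right h5]
    · rw [if_neg e2]
      apply max_eq_left
      rcases lt_or_gt_of_ne e1 with e3 | e3
      · refine (min_le_left _ _).trans (div_nonpos_of_nonpos_of_nonneg ?_ h1.le)
        have h3 : nd th (j + 1) ≤ nd th i := nd_mono h e3 (by omega)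
        linarith [hx.2]
      · refine (min_le_right _ _).trans (div_nonpos_of_nonpos_of_nonneg ?_ h2.le)
        have h3 : nd th (i + 2) ≤ nd th j := nd_mono h (by omega) (by omega)
        linarith [hx.1]

/-- the sum over the marks picks one node value -/
theorem FHat_pick (w : Fin m → ℝ) (k : ℕ) (A : ℝ) :
    ∑ i : Fin m, w i * (if k = (i : ℕ) + 1 then A else 0) = nv w k * A := by
  rcases Nat.eq_zero_or_pos k with rfl | hk
  · rw [nv_zero, zero_mul]
    exact Finset.sum_eq_zero fun i _ => by rw [if_neg (by omega), mul_zero]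
  · by_cases hkm : k - 1 < m
    · have e : nv w k = w ⟨k - 1, hkm⟩ := by
        rw [nv, if_neg (by omega), dif_pos hkm]
      rw [e, Finset.sum_eq_single ⟨k - 1, hkm⟩]
      · rw [if_pos (by change k = k - 1 + 1; omega)]
      · intro i _ hi
        have : ¬k = (i : ℕ) + 1 := fun hki => hi (Fin.ext (by change (i : ℕ) = k - 1; omega))
        rw [if_neg this, mul_zero]
      · intro hi
        exact absurd (Finset.mem_univ _) hi
    · have e : nv w k = 0 := by
        rw [nv, if_neg (by omega), dif_neg hkm]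
      rw [e, zero_mul]
      exact Finset.sum_eq_zero fun i _ => by
        have := i.2
        rw [if_neg (by omega), mul_zero]

/-- Proof. `hat_piece`, the sum has at most two nonzero terms; `nv_zero`, `nv_mark`, `nv_last`. -/
theorem Wf_piece (h : th ∈ MK m) (w : Fin m → ℝ) {j : ℕ} (hj : j ≤ m) {x : ℝ}
    (hx : x ∈ Icc (nd th j) (nd th (j + 1))) :
    Wf th w x = nv w j + sl th w j * (x - nd th j) := by
  have h1 : nd th (j + 1) - nd th j ≠ 0 := (sub_pos.2 (nd_lt h hj)).ne'
  have h2 : Wf th w x = nv w (j + 1) * ((x - nd th j) / (nd th (j + 1) - nd th j)) +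
      nv w j * ((nd th (j + 1) - x) / (nd th (j + 1) - nd th j)) := by
    rw [← FHat_pick, ← FHat_pick, ← Finset.sum_add_distrib]
    unfold Wf
    refine Finset.sum_congr rfl fun i _ => ?_
    rw [hat_piece h i hj hx]
    by_cases e1 : j = i
    · rw [if_pos e1, if_pos (by omega), if_neg (by omega), mul_zero, add_zero]
    · rw [if_neg e1, if_neg (by omega : ¬j + 1 = (i : ℕ) + 1), mul_zero, zero_add]
  rw [h2, sl]
  field_simp
  ring

theorem Wf_mark (h : th ∈ MK m) (w : Fin m → ℝ) (i : Fin m) : Wf th w (th i) = w i := by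
  have hi1 : (i : ℕ) + 1 ≤ m := i.2
  rw [← nd_mark th i, Wf_piece h w hi1 ⟨le_rfl, (nd_lt h hi1).le⟩, sub_self, mul_zero, add_zero,
    nv_mark]

theorem Wf_pl (h : th ∈ MK m) (w : Fin m → ℝ) :
    PL th (Wf th w) (fun j => nv w j - sl th w j * nd th j) (fun j => sl th w j) := by
  intro j hj x hx
  rw [Wf_piece h w hj ⟨hx.1.le, hx.2.le⟩]
  ring

/-- Proof. `piece_unique`: only one term of the sum is nonzero. -/
theorem Zf_piece (h : th ∈ MK m) (w t : Fin m → ℝ) {j : ℕ} (hj : j ≤ m) {x : ℝ}
    (hx : x ∈ Ioo (nd th j) (nd th (j + 1))) :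
    Zf th w t x = -(sl th w j) * (nv t j + sl th t j * (x - nd th j)) := by
  unfold Zf
  rw [Finset.sum_eq_single j]
  · rw [indicator_of_mem hx]
  · intro i hi hij
    rw [indicator_of_notMem]
    intro hxi
    exact hij (piece_unique h (Nat.lt_succ_iff.1 (Finset.mem_range.1 hi)) hj hxi hx)
  · intro hi
    exact absurd (Finset.mem_range.2 (Nat.lt_succ_iff.2 hj)) hi

theorem Zf_pl (h : th ∈ MK m) (w t : Fin m → ℝ) :
    PL th (Zf th w t) (fun j => -(sl th w j) * (nv t j - sl th t j * nd th j))
      (fun j => -(sl th w j) * sl th t j) := by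
  intro j hj x hx
  rw [Zf_piece h w t hj hx]
  ring

theorem Zf_int (th w t : Fin m → ℝ) (a b : ℝ) : IntervalIntegrable (Zf th w t) volume a b := by
  have e : Zf th w t = ∑ j ∈ Finset.range (m + 1), (Ioo (nd th j) (nd th (j + 1))).indicator
      (fun x => -(sl th w j) * (nv t j + sl th t j * (x - nd th j))) := by
    funext x
    rw [Finset.sum_apply]
    rfl
  rw [e]
  refine IntervalIntegrable.sum _ fun j _ => ?_
  have h1 : IntervalIntegrable (fun x => -(sl th w j) * (nv t j + sl th t j * (x - nd th j)))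
      volume a b := by
    apply Continuous.intervalIntegrable
    fun_prop
  exact ⟨h1.1.indicator measurableSet_Ioo, h1.2.indicator measurableSet_Ioo⟩

/-- Proof. On the interval `j` the interpolation of `t` is bounded by `∑ i, |t i|`. -/
theorem Zf_bdd (h : th ∈ MK m) (w t : Fin m → ℝ) : ∃ C : ℝ, ∀ x, |Zf th w t x| ≤ C := by
  refine ⟨∑ j ∈ Finset.range (m + 1), |sl th w j| *
    (|nv t j| + |sl th t j| * |nd th (j + 1) - nd th j|), fun x => ?_⟩
  unfold Zf
  refine (Finset.abs_sum_le_sum_abs _ _).trans (Finset.sum_le_sum fun j _ => ?_)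
  by_cases hx : x ∈ Ioo (nd th j) (nd th (j + 1))
  · rw [indicator_of_mem hx, abs_mul, abs_neg]
    refine mul_le_mul_of_nonneg_left ?_ (abs_nonneg _)
    refine (abs_add_le _ _).trans (add_le_add_right ?_ _)
    rw [abs_mul]
    refine mul_le_mul_of_nonneg_left ?_ (abs_nonneg _)
    rw [abs_of_pos (sub_pos.2 hx.1)]
    exact (sub_le_sub_right hx.2.le _).trans (le_abs_self _)
  · rw [indicator_of_notMem hx, abs_zero]
    positivity

/-- Linearity in the values. -/
theorem Wf_add (th v w : Fin m → ℝ) (x : ℝ) : Wf th (v + w) x = Wf th v x + Wf th w x := by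
  unfold Wf
  rw [← Finset.sum_add_distrib]
  exact Finset.sum_congr rfl fun i _ => by rw [Pi.add_apply, add_mul]

theorem Wf_smul (th w : Fin m → ℝ) (c x : ℝ) : Wf th (c • w) x = c * Wf th w x := by
  unfold Wf
  rw [Finset.mul_sum]
  exact Finset.sum_congr rfl fun i _ => by rw [Pi.smul_apply, smul_eq_mul, mul_assoc]

theorem FHat_nv (s t : Fin m → ℝ) (b c : ℝ) (j : ℕ) :
    nv (b • s + c • t) j = b * nv s j + c * nv t j := by
  unfold nv
  split_ifs <;> simp

theorem FHat_sl (th s t : Fin m → ℝ) (b c : ℝ) (j : ℕ) :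
    sl th (b • s + c • t) j = b * sl th s j + c * sl th t j := by
  unfold sl
  rw [FHat_nv, FHat_nv]
  ring

/-- `Zf` is linear in `t`. Proof. `nv`, `sl` are linear in the values. -/
theorem Zf_lin (th w s t : Fin m → ℝ) (b c x : ℝ) :
    Zf th w (b • s + c • t) x = b * Zf th w s x + c * Zf th w t x := by
  unfold Zf
  rw [Finset.mul_sum, Finset.mul_sum, ← Finset.sum_add_distrib]
  refine Finset.sum_congr rfl fun j _ => ?_
  by_cases hx : x ∈ Ioo (nd th j) (nd th (j + 1))
  · rw [indicator_of_mem hx, indicator_of_mem hx, indicator_of_mem hx, FHat_nv, FHat_sl]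
    ring
  · rw [indicator_of_notMem hx, indicator_of_notMem hx, indicator_of_notMem hx]
    ring

theorem FHat_par (th : Fin m → ℝ) {j : ℕ} (hj : j ≤ m + 1) :
    nv (fun i => th i * (1 - th i)) j = nd th j * (1 - nd th j) := by
  rcases Nat.eq_zero_or_pos j with rfl | hj0
  · rw [nv_zero, nd_zero, zero_mul]
  · by_cases hjm : j = m + 1
    · rw [hjm, nv_last, nd_last, sub_self, mul_zero]
    · obtain ⟨i, rfl⟩ : ∃ i : Fin m, j = (i : ℕ) + 1 :=
        ⟨⟨j - 1, by omega⟩, by change j = j - 1 + 1; omega⟩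
      rw [nv_mark, nd_mark]

/-- The slopes of the interpolation of the parabola. Proof.
`(b (1 - b) - a (1 - a)) / (b - a) = 1 - a - b`; the nodes `0` and `1` have the values `0`. -/
theorem sl_par (h : th ∈ MK m) {j : ℕ} (hj : j ≤ m) :
    sl th (fun i => th i * (1 - th i)) j = 1 - nd th j - nd th (j + 1) := by
  have h1 : nd th (j + 1) - nd th j ≠ 0 := (sub_pos.2 (nd_lt h hj)).ne'
  rw [sl, FHat_par th (by omega), FHat_par th (by omega), div_eq_iff h1]
  ring

end Pool.Agent.MP4eed4eP.F
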