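import Pool.Agent.Lib.MP_4eed4e_an_PF.FLip

/-!
MP_4eed4e_an, project P, block F, module FHatL: the derivative of the interpolation with respect
to the marks, in `L¹`.
-/

namespace Pool.Agent.MP4eed4eP.F

open Real Set MeasureTheory Filter Topology

variable {m : ℕ} {th : Fin m → ℝ}

private theorem nd_move (th t : Fin m → ℝ) (τ : ℝ) (j : ℕ) :
    nd (th + τ • t) j = nd th j + τ * nv t j := by
  unfold nd nv
  by_cases h0 : j = 0
  · subst h0
    simp
  · by_cases h : j ≤ m
    · have h1 : 1 ≤ j ∧ j ≤ m := ⟨by omega, h⟩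
      have h2 : j - 1 < m := by omega
      rw [dif_pos h1, dif_pos h1, if_neg h0, dif_pos h2]
      simp
    · have h1 : ¬ (1 ≤ j ∧ j ≤ m) := fun h' => h h'.2
      have h2 : ¬ j - 1 < m := by omega
      rw [dif_neg h1, dif_neg h1, if_neg h0, if_neg h0, dif_neg h2]
      simp

private theorem dist_move (th t : Fin m → ℝ) (τ : ℝ) : dist (th + τ • t) th = |τ| * ‖t‖ := by
  rw [dist_eq_norm, add_sub_cancel_left, norm_smul, Real.norm_eq_abs]

private theorem ev_move (th t : Fin m → ℝ) {r : ℝ} (hr : 0 < r) :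
    ∀ᶠ τ : ℝ in 𝓝 0, dist (th + τ • t) th < r := by
  have hc : Continuous fun τ : ℝ => dist (th + τ • t) th := by fun_prop
  have h0 : dist (th + (0 : ℝ) • t) th < r := by
    rw [zero_smul, add_zero, dist_self]
    exact hr
  exact hc.continuousAt.eventually_lt continuousAt_const h0

/-- Proof. Let `x` be in the open interval number `j` of `th`. For small `τ` it is in the interval
number `j` of `th + τ • t`, with the end points `a + τ p`, `b + τ q`, `p = nv t j`,
`q = nv t (j + 1)` (`nd_zero`, `nd_mark`, `nd_last`: the nodes `0` and `1` do not move), so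
`Wf (th + τ • t) w x = u + (v - u) (x - a - τ p) / (b - a + τ (q - p))` with `u = nv w j`,
`v = nv w (j + 1)` (`Wf_piece`). The derivative at `τ = 0` is
`(v - u) (- p / (b - a) - (x - a) (q - p) / (b - a) ^ 2) = - sl w j * (p + sl t j (x - a))`. -/
theorem Wf_deriv (h : th ∈ MK m) (w t : Fin m → ℝ) {j : ℕ} (hj : j ≤ m) {x : ℝ}
    (hx : x ∈ Ioo (nd th j) (nd th (j + 1))) :
    HasDerivAt (fun τ : ℝ => Wf (th + τ • t) w x) (Zf th w t x) 0 := by
  obtain ⟨g, r, hg, hr, hgap⟩ := gap h
  rw [Zf_piece h w t hj hx]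
  have hab : 0 < nd th (j + 1) - nd th j := sub_pos.2 (nd_lt h hj)
  have hev : (fun τ : ℝ => Wf (th + τ • t) w x) =ᶠ[𝓝 0] fun τ : ℝ =>
      nv w j + (nv w (j + 1) - nv w j) * ((x - nd th j - τ * nv t j) /
        (nd th (j + 1) - nd th j + τ * (nv t (j + 1) - nv t j))) := by
    have e1 : ∀ᶠ τ : ℝ in 𝓝 0, nd th j + τ * nv t j < x := by
      have hc : Continuous fun τ : ℝ => nd th j + τ * nv t j := by fun_prop
      refine hc.continuousAt.eventually_lt continuousAt_const ?_
      rw [zero_mul, add_zero]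
      exact hx.1
    have e2 : ∀ᶠ τ : ℝ in 𝓝 0, x < nd th (j + 1) + τ * nv t (j + 1) := by
      have hc : Continuous fun τ : ℝ => nd th (j + 1) + τ * nv t (j + 1) := by fun_prop
      refine continuousAt_const.eventually_lt hc.continuousAt ?_
      rw [zero_mul, add_zero]
      exact hx.2
    filter_upwards [ev_move th t hr, e1, e2] with τ h3 h4 h5
    have h6 := (hgap _ h3).1
    rw [Wf_piece h6 w hj ⟨by rw [nd_move]; exact h4.le, by rw [nd_move]; exact h5.le⟩]
    unfold sl
    rw [nd_move, nd_move]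
    have e3 : nd th (j + 1) + τ * nv t (j + 1) - (nd th j + τ * nv t j) =
      nd th (j + 1) - nd th j + τ * (nv t (j + 1) - nv t j) := by ring
    rw [e3]
    ring
  refine HasDerivAt.congr_of_eventuallyEq ?_ hev
  have d1 : HasDerivAt (fun τ : ℝ => x - nd th j - τ * nv t j) (-(1 * nv t j)) 0 :=
    ((hasDerivAt_id (0 : ℝ)).mul_const (nv t j)).const_sub _
  have d2 : HasDerivAt (fun τ : ℝ => nd th (j + 1) - nd th j + τ * (nv t (j + 1) - nv t j))
      (1 * (nv t (j + 1) - nv t j)) 0 :=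
    ((hasDerivAt_id (0 : ℝ)).mul_const (nv t (j + 1) - nv t j)).const_add _
  have hne : nd th (j + 1) - nd th j + 0 * (nv t (j + 1) - nv t j) ≠ 0 := by
    rw [zero_mul, add_zero]
    exact hab.ne'
  refine (((d1.div d2 hne).const_mul (nv w (j + 1) - nv w j)).const_add (nv w j)).congr_deriv ?_
  unfold sl
  have hab' := hab.ne'
  field_simp
  ring

/-- Proof. `intervalIntegral.tendsto_integral_filter_of_dominated_convergence` (the filter is
countably generated). The bound: `|Wf (th + τ • t) w x - Wf th w x| / |τ| ≤ C * ‖t‖` for small `τ`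
(`Wf_lip`, `dist (th + τ • t) th = |τ| * ‖t‖`), and `Zf_bdd`. The limit for every `x` in `(0, 1)`
which is not a mark (`exists_piece`, `Wf_deriv`, `hasDerivAt_iff_tendsto_slope`); the marks and the
end points are a finite set. Measurability: `Wf_cont`, `Zf_int`. -/
theorem Wf_L1 (h : th ∈ MK m) (w t : Fin m → ℝ) :
    Tendsto (fun τ : ℝ => ∫ x in (0 : ℝ)..1,
      |(Wf (th + τ • t) w x - Wf th w x) / τ - Zf th w t x|) (𝓝[≠] 0) (𝓝 0) := by
  obtain ⟨C, r, hC, hr, hlip⟩ := Wf_lip h w
  obtain ⟨B, hB⟩ := Zf_bdd h w t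
  have h0 : 𝓝 (0 : ℝ) = 𝓝 (∫ _x in (0 : ℝ)..1, (0 : ℝ)) := by simp
  rw [h0]
  refine intervalIntegral.tendsto_integral_filter_of_dominated_convergence
    (fun _ => C * ‖t‖ + B) ?_ ?_ intervalIntegrable_const ?_
  · refine Eventually.of_forall fun τ => ?_
    have h1 : AEStronglyMeasurable (fun x => (Wf (th + τ • t) w x - Wf th w x) / τ)
        (volume.restrict (uIoc (0 : ℝ) 1)) :=
      (((Wf_cont (th + τ • t) w).sub (Wf_cont th w)).div_const τ).aestronglyMeasurable
    have h2 : AEStronglyMeasurable (Zf th w t) (volume.restrict (uIoc (0 : ℝ) 1)) :=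
      (Zf_int th w t 0 1).aestronglyMeasurable_restrict_uIoc
    exact (h1.sub h2).norm
  · have h3 : ∀ᶠ τ : ℝ in 𝓝[≠] 0, dist (th + τ • t) th < r :=
      (ev_move th t hr).filter_mono nhdsWithin_le_nhds
    filter_upwards [h3, self_mem_nhdsWithin] with τ h4 h5
    refine Eventually.of_forall fun x hx => ?_
    rw [uIoc_of_le zero_le_one] at hx
    have h6 := hlip _ h4 x ⟨hx.1.le, hx.2⟩
    rw [dist_move] at h6
    have h7 : 0 < |τ| := abs_pos.2 h5
    rw [Real.norm_eq_abs, abs_abs]
    refine (abs_sub _ _).trans (add_le_add ?_ (hB x))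
    rw [abs_div, div_le_iff₀ h7]
    linarith
  · have hfin : (range th ∪ {1} : Set ℝ).Finite := (finite_range th).union (finite_singleton 1)
    have hae : ∀ᵐ x : ℝ, x ∉ (range th ∪ {1} : Set ℝ) := hfin.countable.ae_notMem volume
    filter_upwards [hae] with x hx1 hx2
    rw [uIoc_of_le zero_le_one] at hx2
    have hx3 : x ∈ Ioo (0 : ℝ) 1 :=
      ⟨hx2.1, lt_of_le_of_ne hx2.2 fun h' => hx1 (Or.inr h')⟩
    obtain ⟨j, hj, hxj⟩ := exists_piece h hx3 fun i h' => hx1 (Or.inl ⟨i, h'.symm⟩)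
    have hd := hasDerivAt_iff_tendsto_slope_zero.1 (Wf_deriv h w t hj hxj)
    have h8 := (hd.sub_const (Zf th w t x)).abs
    rw [sub_self, abs_zero] at h8
    refine h8.congr fun τ => ?_
    rw [zero_add, zero_smul, add_zero, smul_eq_mul, div_eq_inv_mul]

end Pool.Agent.MP4eed4eP.F
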