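import Pool.Agent.Lib.MP_4eed4e_an_P.OutB
import Pool.Agent.Lib.MP_4eed4e_an_PF.FHatL

/-!
MP_4eed4e_an, project P, block F, module FSer: the series `TT a psi`.
-/

namespace Pool.Agent.MP4eed4eP.F

open Real Set MeasureTheory Filter Topology

/-- The series which occurs in the derivatives of the traces. -/
noncomputable def TT (a : ℕ) (psi : ℝ → ℝ) : ℝ := 2 * a * ∑' κ : KS, mu κ ^ (2 * a) * IO κ psi

private theorem gO_cont (κ : KS) : Continuous (gO κ) := by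
  unfold gO
  fun_prop

private theorem gA_cont (κ : KS) : Continuous (gA κ) := by
  unfold gA
  fun_prop

private theorem nrm_pos' (κ : KS) : 0 < nrm κ := lt_of_lt_of_le (by norm_num) (nrm_pos κ)

private theorem sq_gO (κ : KS) (x : ℝ) : gO κ x ^ 2 ≤ 36 * nrm κ := by
  have h := abs_gO κ x
  have h2 : |gO κ x| ^ 2 ≤ (6 * √(nrm κ)) ^ 2 := pow_le_pow_left₀ (abs_nonneg _) h 2
  rw [sq_abs, mul_pow, Real.sq_sqrt (nrm_pos' κ).le] at h2
  linarith

private theorem sq_gA (κ : KS) (x : ℝ) : gA κ x ^ 2 ≤ 36 * nrm κ := by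
  have h := abs_gA κ x
  have h2 : |gA κ x| ^ 2 ≤ (6 * √(nrm κ)) ^ 2 := pow_le_pow_left₀ (abs_nonneg _) h 2
  rw [sq_abs, mul_pow, Real.sq_sqrt (nrm_pos' κ).le] at h2
  linarith

private theorem int_bd {g psi : ℝ → ℝ} {N : ℝ} (hg : Continuous g) (hb : ∀ x, g x ^ 2 ≤ N)
    (hi : IntervalIntegrable psi volume 0 1) :
    |∫ x in (0 : ℝ)..1, g x ^ 2 * psi x| ≤ N * ∫ x in (0 : ℝ)..1, |psi x| := by
  have h1 : |∫ x in (0 : ℝ)..1, g x ^ 2 * psi x| ≤ ∫ x in (0 : ℝ)..1, |g x ^ 2 * psi x| :=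
    intervalIntegral.abs_integral_le_integral_abs zero_le_one
  have hint : IntervalIntegrable (fun x => g x ^ 2 * psi x) volume 0 1 :=
    hi.continuousOn_mul (hg.pow 2).continuousOn
  have h2 : ∫ x in (0 : ℝ)..1, |g x ^ 2 * psi x| ≤ ∫ x in (0 : ℝ)..1, N * |psi x| := by
    refine intervalIntegral.integral_mono_on zero_le_one hint.abs (hi.abs.const_mul N) ?_
    intro x _
    rw [abs_mul, abs_of_nonneg (sq_nonneg (g x))]
    exact mul_le_mul_of_nonneg_right (hb x) (abs_nonneg _)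
  rw [intervalIntegral.integral_const_mul] at h2
  linarith

theorem mu_pos (κ : KS) : 0 < mu κ := by
  unfold mu
  have := nrm_pos' κ
  positivity

/-- Proof. `gO` is continuous, `gO ^ 2 ≤ 36 nrm` (`abs_gO`), `2 / (3 nrm) * 36 nrm = 24`. -/
theorem IO_abs (κ : KS) {psi : ℝ → ℝ} (hi : IntervalIntegrable psi volume 0 1) :
    |IO κ psi| ≤ 24 * ∫ x in (0 : ℝ)..1, |psi x| := by
  unfold IO
  have hn := nrm_pos' κ
  have h := int_bd (gO_cont κ) (sq_gO κ) hi
  rw [abs_mul, abs_of_pos (by positivity : 0 < 2 / (3 * nrm κ))]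
  calc 2 / (3 * nrm κ) * |∫ x in (0 : ℝ)..1, gO κ x ^ 2 * psi x|
      ≤ 2 / (3 * nrm κ) * (36 * nrm κ * ∫ x in (0 : ℝ)..1, |psi x|) :=
        mul_le_mul_of_nonneg_left h (by positivity)
    _ = 24 * ∫ x in (0 : ℝ)..1, |psi x| := by
        field_simp
        ring

theorem IO_lin (κ : KS) {f g : ℝ → ℝ} (hf : IntervalIntegrable f volume 0 1)
    (hg : IntervalIntegrable g volume 0 1) (b c : ℝ) :
    IO κ (fun x => b * f x + c * g x) = b * IO κ f + c * IO κ g := by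
  unfold IO
  have h1 : IntervalIntegrable (fun x => gO κ x ^ 2 * f x) volume 0 1 :=
    hf.continuousOn_mul ((gO_cont κ).pow 2).continuousOn
  have h2 : IntervalIntegrable (fun x => gO κ x ^ 2 * g x) volume 0 1 :=
    hg.continuousOn_mul ((gO_cont κ).pow 2).continuousOn
  have e : ∫ x in (0 : ℝ)..1, gO κ x ^ 2 * (b * f x + c * g x)
      = b * (∫ x in (0 : ℝ)..1, gO κ x ^ 2 * f x) + c * ∫ x in (0 : ℝ)..1, gO κ x ^ 2 * g x := by
    rw [← intervalIntegral.integral_const_mul, ← intervalIntegral.integral_const_mul,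
      ← intervalIntegral.integral_add (h1.const_mul b) (h2.const_mul c)]
    refine intervalIntegral.integral_congr fun x _ => ?_
    ring
  rw [e]
  ring

/-- Proof. `1 / nrm * 36 nrm = 36` (`abs_gA`). -/
theorem IA_abs (κ : KS) {psi : ℝ → ℝ} (hi : IntervalIntegrable psi volume 0 1) :
    |IA κ psi| ≤ 36 * ∫ x in (0 : ℝ)..1, |psi x| := by
  unfold IA
  have hn := nrm_pos' κ
  have h := int_bd (gA_cont κ) (sq_gA κ) hi
  rw [abs_mul, abs_of_pos (by positivity : 0 < 1 / nrm κ)]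
  calc 1 / nrm κ * |∫ x in (0 : ℝ)..1, gA κ x ^ 2 * psi x|
      ≤ 1 / nrm κ * (36 * nrm κ * ∫ x in (0 : ℝ)..1, |psi x|) :=
        mul_le_mul_of_nonneg_left h (by positivity)
    _ = 36 * ∫ x in (0 : ℝ)..1, |psi x| := by
        field_simp

/-- A series with bounded coefficients converges. Proof. `mu κ ^ (2 a) ≤ mu κ ^ 2` for all but
finitely many `κ` (`summable_mu`), or `mu κ ≤ 9 / (28 π ^ 2) < 1` (`nrm_pos`). -/
theorem summable_bdd {a : ℕ} (ha : 1 ≤ a) {c : KS → ℝ} {C : ℝ} (hc : ∀ κ, |c κ| ≤ C) :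
    Summable fun κ => mu κ ^ (2 * a) * c κ := by
  have hmu1 : ∀ κ : KS, mu κ ≤ 1 := by
    intro κ
    unfold mu
    have h1 := nrm_pos κ
    have hpi : (9 : ℝ) ≤ Real.pi ^ 2 := by nlinarith [Real.pi_gt_three]
    rw [div_le_one (by positivity)]
    nlinarith
  have hC : 0 ≤ C := le_trans (abs_nonneg _) (hc ⟨(1, 5), by decide⟩)
  refine Summable.of_norm_bounded (g := fun κ => mu κ ^ 2 * C) (summable_mu.mul_right C) ?_
  intro κ
  rw [Real.norm_eq_abs, abs_mul, abs_of_nonneg (pow_nonneg (mu_pos κ).le _)]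
  refine mul_le_mul ?_ (hc κ) (abs_nonneg _) (pow_nonneg (mu_pos κ).le _)
  exact pow_le_pow_of_le_one (mu_pos κ).le (hmu1 κ) (by omega)

theorem TT_lin {a : ℕ} (ha : 1 ≤ a) {f g : ℝ → ℝ} (hf : IntervalIntegrable f volume 0 1)
    (hg : IntervalIntegrable g volume 0 1) (b c : ℝ) :
    TT a (fun x => b * f x + c * g x) = b * TT a f + c * TT a g := by
  unfold TT
  have hs : ∀ {h : ℝ → ℝ}, IntervalIntegrable h volume 0 1 →
      Summable fun κ => mu κ ^ (2 * a) * IO κ h := fun hh =>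
    summable_bdd ha (fun κ => IO_abs κ hh)
  have e : ∀ κ : KS, mu κ ^ (2 * a) * IO κ (fun x => b * f x + c * g x)
      = b * (mu κ ^ (2 * a) * IO κ f) + c * (mu κ ^ (2 * a) * IO κ g) := by
    intro κ
    rw [IO_lin κ hf hg]
    ring
  simp_rw [e]
  rw [((hs hf).mul_left b).tsum_add ((hs hg).mul_left c), tsum_mul_left, tsum_mul_left]
  ring

/-- Proof. `IO_abs`, with the constant `2 a * 24 * ∑' κ, mu κ ^ (2 a)`. -/
theorem TT_abs {a : ℕ} (ha : 1 ≤ a) : ∃ C : ℝ, 0 ≤ C ∧ ∀ psi : ℝ → ℝ,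
    IntervalIntegrable psi volume 0 1 → |TT a psi| ≤ C * ∫ x in (0 : ℝ)..1, |psi x| := by
  have hsm : Summable fun κ : KS => mu κ ^ (2 * a) := by
    have := summable_bdd ha (c := fun _ => (1 : ℝ)) (C := 1) (fun κ => by simp)
    simpa using this
  have hnn : 0 ≤ ∑' κ : KS, mu κ ^ (2 * a) := tsum_nonneg fun κ => pow_nonneg (mu_pos κ).le _
  refine ⟨2 * a * (24 * ∑' κ : KS, mu κ ^ (2 * a)), by positivity, ?_⟩
  intro psi hi
  unfold TT
  set I := ∫ x in (0 : ℝ)..1, |psi x| with hI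
  have hb : Summable fun κ : KS => mu κ ^ (2 * a) * (24 * I) := hsm.mul_right _
  have h1 : |∑' κ : KS, mu κ ^ (2 * a) * IO κ psi| ≤ ∑' κ : KS, mu κ ^ (2 * a) * (24 * I) := by
    rw [← Real.norm_eq_abs]
    refine tsum_of_norm_bounded hb.hasSum ?_
    intro κ
    rw [Real.norm_eq_abs, abs_mul, abs_of_nonneg (pow_nonneg (mu_pos κ).le _)]
    exact mul_le_mul_of_nonneg_left (IO_abs κ hi) (pow_nonneg (mu_pos κ).le _)
  rw [tsum_mul_right] at h1
  rw [abs_mul, abs_of_nonneg (by positivity : (0 : ℝ) ≤ 2 * a)]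
  calc (2 * a : ℝ) * |∑' κ : KS, mu κ ^ (2 * a) * IO κ psi|
      ≤ 2 * a * ((∑' κ : KS, mu κ ^ (2 * a)) * (24 * I)) :=
        mul_le_mul_of_nonneg_left h1 (by positivity)
    _ = 2 * a * (24 * ∑' κ : KS, mu κ ^ (2 * a)) * I := by ring

/-- Proof. `hasDerivAt_iff_tendsto_slope`; for `τ ≠ 0`, by `TT_lin`, the slope minus `TT a (Zf ..)`
is `TT a` of `(Wf (th + τ • t) w - Wf th w) / τ - Zf th w t`, so `TT_abs` and `Wf_L1`. -/
theorem TT_deriv {m a : ℕ} (ha : 1 ≤ a) {th : Fin m → ℝ} (h : th ∈ MK m) (w t : Fin m → ℝ) :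
    HasDerivAt (fun τ : ℝ => TT a (Wf (th + τ • t) w)) (TT a (Zf th w t)) 0 := by
  obtain ⟨C, hC, hb⟩ := TT_abs ha
  have hW : ∀ s : Fin m → ℝ, IntervalIntegrable (Wf s w) volume 0 1 := fun s =>
    (Wf_cont s w).intervalIntegrable 0 1
  have hZ : IntervalIntegrable (Zf th w t) volume 0 1 := Zf_int th w t 0 1
  rw [hasDerivAt_iff_tendsto_slope, tendsto_iff_dist_tendsto_zero]
  have hlim := (Wf_L1 h w t).const_mul C
  rw [mul_zero] at hlim
  refine squeeze_zero' (Eventually.of_forall fun τ => dist_nonneg) ?_ hlim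
  filter_upwards [self_mem_nhdsWithin] with τ hτ
  have hτ0 : τ ≠ 0 := hτ
  have hD : IntervalIntegrable (fun x => (Wf (th + τ • t) w x - Wf th w x) / τ) volume 0 1 :=
    ((hW (th + τ • t)).sub (hW th)).div_const τ
  have e1 : TT a (fun x => (Wf (th + τ • t) w x - Wf th w x) / τ)
      = τ⁻¹ * TT a (Wf (th + τ • t) w) + (-τ⁻¹) * TT a (Wf th w) := by
    rw [← TT_lin ha (hW (th + τ • t)) (hW th) τ⁻¹ (-τ⁻¹)]
    congr 1
    funext x
    field_simp
    ring
  have e2 : TT a (fun x => (Wf (th + τ • t) w x - Wf th w x) / τ - Zf th w t x)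
      = TT a (fun x => (Wf (th + τ • t) w x - Wf th w x) / τ) - TT a (Zf th w t) := by
    have := TT_lin ha hD hZ 1 (-1)
    simp only [one_mul, neg_mul, ← sub_eq_add_neg] at this
    exact this
  have e3 : slope (fun τ : ℝ => TT a (Wf (th + τ • t) w)) 0 τ
      = TT a (fun x => (Wf (th + τ • t) w x - Wf th w x) / τ) := by
    rw [e1, slope_def_field]
    simp only [zero_smul, add_zero, sub_zero]
    field_simp
    ring
  rw [e3, Real.dist_eq, ← e2]
  exact hb _ (hD.sub hZ)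

end Pool.Agent.MP4eed4eP.F
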