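import Pool.Agent.Lib.MP_4eed4e_an_P.OutD
import Pool.Agent.Lib.MP_4eed4e_an_P.OutE
import Pool.Agent.Lib.MP_4eed4e_an_PF.FSer

/-!
MP_4eed4e_an, project P, block F, module FLamA: first and second derivatives of the traces in the
directions of the marks.
-/

namespace Pool.Agent.MP4eed4eP.F

open Real Set MeasureTheory Filter Topology

variable {m : ℕ} {th : Fin m → ℝ}

/-- The direction in the parameter space which moves the numbers `r`. -/
def dR {m : ℕ} (w : Fin m → ℝ) : Par m := ∑ i, w i • Pi.single (iR i) 1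

theorem isOpen_MK (m : ℕ) : IsOpen (MK m) := by
  have h1 : MK m = (⋂ i : Fin m, ⋂ j : Fin m, {th : Fin m → ℝ | i < j → th i < th j}) ∩
      ⋂ i : Fin m, {th : Fin m → ℝ | 0 < th i ∧ th i < 1} := by
    ext th
    simp only [MK, Set.mem_ofPred_eq, Set.mem_inter_iff, Set.mem_iInter]
    exact ⟨fun h => ⟨fun i j hij => h.1 hij, h.2⟩, fun h => ⟨fun i j hij => h.1 i j hij, h.2⟩⟩
  rw [h1]
  refine IsOpen.inter (isOpen_iInter_of_finite fun i => isOpen_iInter_of_finite fun j => ?_)
    (isOpen_iInter_of_finite fun i => ?_)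
  · by_cases hij : i < j
    · have h2 : {th : Fin m → ℝ | i < j → th i < th j} = {th : Fin m → ℝ | th i < th j} := by
        ext th
        simp [hij]
      rw [h2]
      exact isOpen_lt (continuous_apply i) (continuous_apply j)
    · have h2 : {th : Fin m → ℝ | i < j → th i < th j} = Set.univ := by
        ext th
        simp [hij]
      rw [h2]
      exact isOpen_univ
  · exact (isOpen_lt continuous_const (continuous_apply i)).inter
      (isOpen_lt (continuous_apply i) continuous_const)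

theorem cs_add (th t : Fin m → ℝ) (τ : ℝ) :
    cs (th + τ • t) = cs th + τ • ∑ i, t i • (Pi.single (iT i) 1 : Par m) := by
  funext k
  rw [Pi.add_apply, Pi.smul_apply, Finset.sum_apply]
  rcases k with k | k | k
  · have h1 : ∀ i : Fin m, (t i • (Pi.single (iT i) 1 : Par m)) (Sum.inl k) = 0 := by
      intro i
      rw [Pi.smul_apply, Pi.single_eq_of_ne (by simp [iT]), smul_zero]
    simp only [h1, Finset.sum_const_zero, smul_zero, add_zero]
    rfl
  · have h1 : ∀ i : Fin m, (t i • (Pi.single (iT i) 1 : Par m)) (Sum.inr (Sum.inl k)) =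
        if i = k then t i else 0 := by
      intro i
      by_cases hik : i = k
      · subst hik
        rw [Pi.smul_apply, if_pos rfl]
        have : (Pi.single (iT i) (1 : ℝ) : Par m) (Sum.inr (Sum.inl i)) = 1 := by
          rw [show (Sum.inr (Sum.inl i) : Ix m) = iT i from rfl, Pi.single_eq_same]
        rw [this, smul_eq_mul, mul_one]
      · rw [Pi.smul_apply, if_neg hik, Pi.single_eq_of_ne, smul_zero]
        intro h2
        apply hik
        have h3 : (Sum.inr (Sum.inl k) : Ix m) = Sum.inr (Sum.inl i) := h2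
        exact (Sum.inl_injective (Sum.inr_injective h3)).symm
    simp only [h1, Finset.sum_ite_eq', Finset.mem_univ, if_true]
    rfl
  · have h1 : ∀ i : Fin m, (t i • (Pi.single (iT i) 1 : Par m)) (Sum.inr (Sum.inr k)) = 0 := by
      intro i
      rw [Pi.smul_apply, Pi.single_eq_of_ne (by simp [iT]), smul_zero]
    simp only [h1, Finset.sum_const_zero, smul_zero, add_zero]
    rfl

private theorem FLamA_cs_single (th : Fin m → ℝ) (i : Fin m) (τ : ℝ) :
    cs (th + τ • (Pi.single i 1 : Fin m → ℝ)) = cs th + τ • (Pi.single (iT i) 1 : Par m) := by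
  classical
  rw [cs_add]
  congr 2
  rw [Finset.sum_eq_single i]
  · rw [Pi.single_eq_same, one_smul]
  · intro j _ hj
    rw [Pi.single_eq_of_ne hj, zero_smul]
  · intro h
    exact absurd (Finset.mem_univ i) h

private theorem FLamA_near (h : th ∈ MK m) (t : Fin m → ℝ) :
    ∀ᶠ τ : ℝ in 𝓝 0, th + τ • t ∈ MK m := by
  have h1 : Continuous fun τ : ℝ => th + τ • t := by fun_prop
  have h2 : th + (0 : ℝ) • t ∈ MK m := by rwa [zero_smul, add_zero]
  exact h1.continuousAt.eventually ((isOpen_MK m).mem_nhds h2)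

/-- Proof. `analytic_Fn`, `cs_mem`. -/
theorem Fn_smooth {a : ℕ} (ha : 1 ≤ a) (h : th ∈ MK m) : ContDiffAt ℝ 2 (Fn m a) (cs th) :=
  (analytic_Fn ha (cs th) (cs_mem th h)).contDiffAt

private theorem FLamA_line {E : Type*} [NormedAddCommGroup E] [NormedSpace ℝ E]
    {f : Par m → E} {c : Par m} (hf : DifferentiableAt ℝ f c) (e : Par m) :
    HasDerivAt (fun τ : ℝ => f (c + τ • e)) (fderiv ℝ f c e) 0 := by
  have h1 : HasDerivAt (fun τ : ℝ => c + τ • e) e 0 := by
    simpa using ((hasDerivAt_id (0 : ℝ)).smul_const e).const_add c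
  have h2 : HasFDerivAt f (fderiv ℝ f c) (c + (0 : ℝ) • e) := by
    rw [zero_smul, add_zero]
    exact hf.hasFDerivAt
  exact h2.comp_hasDerivAt (0 : ℝ) h1

/-- Proof. `Fn m a (cs th')` is the same number for all `th'` in `MK m` (`Dom_cs`), an open set;
`cs (th + τ • e_i) = cs th + τ • e_{iT i}` (`cs_add`). -/
theorem fderiv_iT {a : ℕ} (ha : 1 ≤ a) (h : th ∈ MK m) (i : Fin m) :
    fderiv ℝ (Fn m a) (cs th) (Pi.single (iT i) 1) = 0 := by
  have h1 := FLamA_line ((Fn_smooth ha h).differentiableAt (by norm_num))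
    (Pi.single (iT i) 1 : Par m)
  have h2 : (fun τ : ℝ => Fn m a (cs th + τ • (Pi.single (iT i) 1 : Par m))) =ᶠ[𝓝 0]
      fun _ => fa a T0 := by
    filter_upwards [FLamA_near h (Pi.single i 1)] with τ hτ
    rw [← FLamA_cs_single]
    show fa a (Dom (cs (th + τ • (Pi.single i 1 : Fin m → ℝ)))) = fa a T0
    rw [Dom_cs _ hτ]
  exact h1.unique ((hasDerivAt_const (0 : ℝ) (fa a T0)).congr_of_eventuallyEq h2)

private theorem FLamA_sum {a : ℕ} (ha : 1 ≤ a) (th w : Fin m → ℝ) (s : Finset (Fin m)) :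
    TT a (fun x => ∑ i ∈ s, w i * hat th i x) = ∑ i ∈ s, w i * TT a (hat th i) := by
  classical
  induction s using Finset.induction_on with
  | empty =>
    have h0 : IntervalIntegrable (fun _ : ℝ => (0 : ℝ)) volume 0 1 :=
      intervalIntegrable_const
    have h1 := TT_lin ha h0 h0 0 0
    simpa using h1
  | insert i s hi ih =>
    rw [Finset.sum_insert hi, ← ih]
    have h1 : IntervalIntegrable (hat th i) volume 0 1 := (hat_cont th i).intervalIntegrable _ _
    have h2 : IntervalIntegrable (fun x => ∑ i ∈ s, w i * hat th i x) volume 0 1 := by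
      apply Continuous.intervalIntegrable
      exact continuous_finsetSum _ fun j _ => continuous_const.mul (hat_cont th j)
    have h3 := TT_lin ha h1 h2 (w i) 1
    rw [one_mul] at h3
    rw [← h3]
    congr 1
    funext x
    rw [Finset.sum_insert hi, one_mul]

/-- Proof. `fderiv_iR` and linearity (`TT_lin`, `Finset` induction, `hat_cont`). -/
theorem fderiv_dR {a : ℕ} (ha : 2 ≤ a) (h : th ∈ MK m) (w : Fin m → ℝ) :
    fderiv ℝ (Fn m a) (cs th) (dR w) = TT a (Wf th w) := by
  have h1 : TT a (Wf th w) = ∑ i, w i * TT a (hat th i) :=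
    FLamA_sum (by omega) th w Finset.univ
  rw [h1, dR, map_sum]
  refine Finset.sum_congr rfl fun i _ => ?_
  rw [map_smul, smul_eq_mul, fderiv_iR ha th h i]
  rfl

/-- Proof. The second derivative is symmetric (`ContDiffAt.isSymmSndFDerivAt`), so the left side
is `fderiv ℝ (fderiv ℝ (Fn m a)) (cs th) (Pi.single (iT i) 1) (dR w)`, the derivative at `τ = 0` of
`τ ↦ fderiv ℝ (Fn m a) (cs (th + τ • Pi.single i 1)) (dR w) = TT a (Wf (th + τ • e_i) w)` (for
small `τ`, `isOpen_MK`); `TT_deriv`. -/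
theorem fderiv2 {a : ℕ} (ha : 2 ≤ a) (h : th ∈ MK m) (w : Fin m → ℝ) (i : Fin m) :
    fderiv ℝ (fderiv ℝ (Fn m a)) (cs th) (dR w) (Pi.single (iT i) 1) =
      TT a (Zf th w (Pi.single i 1)) := by
  have hs : ContDiffAt ℝ 2 (Fn m a) (cs th) := Fn_smooth (by omega) h
  have hsym : IsSymmSndFDerivAt ℝ (Fn m a) (cs th) := hs.isSymmSndFDerivAt (by simp)
  have hD : DifferentiableAt ℝ (fderiv ℝ (Fn m a)) (cs th) :=
    (hs.fderiv_right (m := 1) (by norm_num)).differentiableAt (by norm_num)
  rw [hsym.eq (dR w) (Pi.single (iT i) 1)]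
  have h1 := FLamA_line hD (Pi.single (iT i) 1 : Par m)
  have h2 : HasDerivAt (fun τ : ℝ => fderiv ℝ (Fn m a)
      (cs th + τ • (Pi.single (iT i) 1 : Par m)) (dR w))
      (fderiv ℝ (fderiv ℝ (Fn m a)) (cs th) (Pi.single (iT i) 1) (dR w)) 0 := by
    have h3 := h1.clm_apply (hasDerivAt_const (0 : ℝ) (dR w))
    simpa using h3
  have h4 : (fun τ : ℝ => fderiv ℝ (Fn m a)
      (cs th + τ • (Pi.single (iT i) 1 : Par m)) (dR w)) =ᶠ[𝓝 0]
      fun τ => TT a (Wf (th + τ • (Pi.single i 1 : Fin m → ℝ)) w) := by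
    filter_upwards [FLamA_near h (Pi.single i 1)] with τ hτ
    rw [← FLamA_cs_single, fderiv_dR ha hτ w]
  exact h2.unique ((TT_deriv (by omega) h w (Pi.single i 1)).congr_of_eventuallyEq h4)

end Pool.Agent.MP4eed4eP.F
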