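import Pool.Agent.Lib.MP_4eed4e_an_PF.FHat

/-!
MP_4eed4e_an, project P, block F, module FLip: the interpolation depends on the marks in a
Lipschitz way, uniformly.
-/

namespace Pool.Agent.MP4eed4eP.F

open Real Set MeasureTheory Filter Topology

variable {m : ℕ} {th : Fin m → ℝ}

private theorem FLip_nd (th' th : Fin m → ℝ) (j : ℕ) : |nd th' j - nd th j| ≤ dist th' th := by
  unfold nd
  split_ifs with h1 h2
  · rw [← Real.dist_eq]
    exact dist_le_pi_dist th' th _
  · rw [sub_self, abs_zero]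
    exact dist_nonneg
  · rw [sub_self, abs_zero]
    exact dist_nonneg

private theorem FLip_mk {th' : Fin m → ℝ} {g : ℝ} (hg : 0 < g)
    (hgap : ∀ j ≤ m, g ≤ nd th' (j + 1) - nd th' j) : th' ∈ MK m := by
  have hlt : ∀ i j : ℕ, i < j → j ≤ m + 1 → nd th' i < nd th' j := by
    intro i j hij
    induction j, hij using Nat.le_induction with
    | base =>
      intro hj
      have := hgap i (by omega)
      linarith
    | succ j _ ih =>
      intro hj
      have h1 := ih (by omega)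
      have h2 := hgap j (by omega)
      linarith
  refine ⟨fun i j hij => ?_, fun i => ⟨?_, ?_⟩⟩
  · have h1 := hlt (i + 1) (j + 1) (Nat.succ_lt_succ hij) (by have := j.2; omega)
    rwa [nd_mark, nd_mark] at h1
  · have h1 := hlt 0 (i + 1) (by omega) (by have := i.2; omega)
    rwa [nd_mark, nd_zero] at h1
  · have h1 := hlt (i + 1) (m + 1) (by have := i.2; omega) le_rfl
    rwa [nd_mark, nd_last] at h1

/-- Proof. Finitely many strict inequalities: `g = min_j (nd (j + 1) - nd j) > 0`; if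
`dist th' th < g / 3` then all `nd th' (j + 1) - nd th' j > g / 3`. -/
theorem gap (h : th ∈ MK m) : ∃ g r : ℝ, 0 < g ∧ 0 < r ∧ ∀ th' : Fin m → ℝ, dist th' th < r →
    th' ∈ MK m ∧ ∀ j ≤ m, g ≤ nd th' (j + 1) - nd th' j := by
  obtain ⟨g, hg, hgj⟩ : ∃ g : ℝ, 0 < g ∧ ∀ j ≤ m, 3 * g ≤ nd th (j + 1) - nd th j := by
    have hne : (Finset.range (m + 1)).Nonempty := ⟨0, Finset.mem_range.2 (Nat.succ_pos m)⟩
    obtain ⟨k, hk, hmin⟩ := (Finset.range (m + 1)).exists_min_image
      (fun j => nd th (j + 1) - nd th j) hne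
    have hk0 : 0 < nd th (k + 1) - nd th k :=
      sub_pos.2 (nd_lt h (Nat.lt_succ_iff.1 (Finset.mem_range.1 hk)))
    refine ⟨(nd th (k + 1) - nd th k) / 3, by linarith, fun j hj => ?_⟩
    have := hmin j (Finset.mem_range.2 (Nat.lt_succ_iff.2 hj))
    linarith
  refine ⟨g, g, hg, hg, fun th' hd => ?_⟩
  have hgap : ∀ j ≤ m, g ≤ nd th' (j + 1) - nd th' j := by
    intro j hj
    have h1 := abs_le.1 (FLip_nd th' th j)
    have h2 := abs_le.1 (FLip_nd th' th (j + 1))
    have h3 := hgj j hj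
    linarith [h1.1, h1.2, h2.1, h2.2]
  exact ⟨FLip_mk hg hgap, hgap⟩

theorem nd_dist (th' th : Fin m → ℝ) (j : ℕ) : |nd th' j - nd th j| ≤ dist th' th := by
  exact FLip_nd th' th j

private theorem FLip_quot {g a b a' b' x D : ℝ} (hg : 0 < g) (h0 : g ≤ b - a)
    (h1 : g ≤ b' - a') (ha : |a' - a| ≤ D) (hb : |b' - b| ≤ D) (hx : |x - a| ≤ 1)
    (hD : 0 ≤ D) :
    |(x - a') / (b' - a') - (x - a) / (b - a)| ≤ (2 / g + 2 / g ^ 2) * D := by
  have p0 : 0 < b - a := hg.trans_le h0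
  have p1 : 0 < b' - a' := hg.trans_le h1
  have e : (x - a') / (b' - a') - (x - a) / (b - a) =
      (a - a') / (b' - a') + (x - a) * ((b - b') + (a' - a)) / ((b' - a') * (b - a)) := by
    field_simp
    ring
  rw [e]
  have t1 : |(a - a') / (b' - a')| ≤ D / g := by
    rw [abs_div, abs_of_pos p1]
    refine div_le_div₀ hD ?_ hg h1
    rwa [abs_sub_comm]
  have t2 : |(x - a) * ((b - b') + (a' - a)) / ((b' - a') * (b - a))| ≤ 2 * D / g ^ 2 := by
    rw [abs_div, abs_of_pos (mul_pos p1 p0), abs_mul]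
    refine div_le_div₀ (by linarith) ?_ (by positivity) ?_
    · have u1 : |(b - b') + (a' - a)| ≤ 2 * D := by
        refine (abs_add_le _ _).trans ?_
        rw [abs_sub_comm b b']
        linarith
      calc |x - a| * |(b - b') + (a' - a)| ≤ 1 * (2 * D) :=
            mul_le_mul hx u1 (abs_nonneg _) zero_le_one
        _ = 2 * D := one_mul _
    · rw [sq]
      exact mul_le_mul h1 h0 hg.le p1.le
  refine (abs_add_le _ _).trans ((add_le_add t1 t2).trans ?_)
  have t3 : D / g ≤ 2 / g * D := by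
    rw [div_mul_eq_mul_div]
    exact div_le_div_of_nonneg_right (by linarith) hg.le
  have t4 : 2 * D / g ^ 2 = 2 / g ^ 2 * D := by ring
  rw [t4, add_mul]
  linarith

private theorem FLip_quot2 {g a b a' b' x D : ℝ} (hg : 0 < g) (h0 : g ≤ b - a)
    (h1 : g ≤ b' - a') (ha : |a' - a| ≤ D) (hb : |b' - b| ≤ D) (hx : |x - b| ≤ 1)
    (hD : 0 ≤ D) :
    |(b' - x) / (b' - a') - (b - x) / (b - a)| ≤ (2 / g + 2 / g ^ 2) * D := by
  have h := FLip_quot (g := g) (a := -b) (b := -a) (a' := -b') (b' := -a') (x := -x) (D := D)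
    hg (by linarith) (by linarith) (by rw [← abs_neg]; convert hb using 2; ring)
    (by rw [← abs_neg]; convert ha using 2; ring)
    (by rw [← abs_neg]; convert hx using 2; ring) hD
  convert h using 4 <;> ring

/-- Proof. `max` and `min` are `1`-Lipschitz (`abs_max_sub_max_le_abs`, `abs_min_sub_min_le_max`);
`(x - a') / (b' - a') - (x - a) / (b - a)` has the absolute value at most
`|a' - a| / g + |x - a| (|b' - b| + |a' - a|) / g ^ 2` with `g` from `gap`, and `|x - a| ≤ 1`. -/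
theorem hat_lip (h : th ∈ MK m) : ∃ C r : ℝ, 0 ≤ C ∧ 0 < r ∧ ∀ th' : Fin m → ℝ, dist th' th < r →
    ∀ (i : Fin m), ∀ x ∈ Icc (0 : ℝ) 1, |hat th' i x - hat th i x| ≤ C * dist th' th := by
  obtain ⟨g, r, hg, hr, hgap⟩ := gap h
  refine ⟨2 / g + 2 / g ^ 2, r, by positivity, hr, fun th' hd i x hx => ?_⟩
  have hi : (i : ℕ) ≤ m := i.2.le
  have hi1 : (i : ℕ) + 1 ≤ m := i.2
  have hth : dist th th < r := by rwa [dist_self]
  obtain ⟨hm', hg'⟩ := hgap th' hd
  obtain ⟨-, hg0⟩ := hgap th hth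
  obtain ⟨D, hD⟩ : ∃ D, D = dist th' th := ⟨_, rfl⟩
  have hD0 : 0 ≤ D := by
    rw [hD]
    exact dist_nonneg
  have n0 := FLip_nd th' th i
  have n1 := FLip_nd th' th (i + 1)
  have n2 := FLip_nd th' th (i + 2)
  rw [← hD] at n0 n1 n2 ⊢
  have m0 := nd_mem h (j := i) (by omega)
  have m1 := nd_mem h (j := i + 1) (by omega)
  have m2 := nd_mem h (j := i + 2) (by omega)
  have q1 := FLip_quot (x := x) hg (hg0 i hi) (hg' i hi) n0 n1
    (by rw [abs_le]; constructor <;> linarith [hx.1, hx.2, m0.1, m0.2]) hD0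
  have q2 := FLip_quot2 (x := x) hg (hg0 (i + 1) hi1) (hg' (i + 1) hi1) n1 n2
    (by rw [abs_le]; constructor <;> linarith [hx.1, hx.2, m2.1, m2.2]) hD0
  unfold hat
  rw [max_comm, max_comm (0 : ℝ)]
  exact (abs_max_sub_max_le_abs _ _ _).trans
    ((abs_min_sub_min_le_max _ _ _ _).trans (max_le q1 q2))

theorem Wf_lip (h : th ∈ MK m) (w : Fin m → ℝ) : ∃ C r : ℝ, 0 ≤ C ∧ 0 < r ∧
    ∀ th' : Fin m → ℝ, dist th' th < r →
      ∀ x ∈ Icc (0 : ℝ) 1, |Wf th' w x - Wf th w x| ≤ C * dist th' th := by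
  obtain ⟨C, r, hC, hr, hl⟩ := hat_lip h
  refine ⟨∑ i, |w i| * C, r, Finset.sum_nonneg fun i _ => mul_nonneg (abs_nonneg _) hC, hr,
    fun th' hd x hx => ?_⟩
  unfold Wf
  rw [← Finset.sum_sub_distrib, Finset.sum_mul]
  refine (Finset.abs_sum_le_sum_abs _ _).trans (Finset.sum_le_sum fun i _ => ?_)
  rw [← mul_sub, abs_mul, mul_assoc]
  exact mul_le_mul_of_nonneg_left (hl th' hd i x hx) (abs_nonneg _)

end Pool.Agent.MP4eed4eP.F
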