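import Pool.Agent.Lib.MP_4eed4e_an_PF.FDefs

/-!
MP_4eed4e_an, project P, block F, module FNd: the nodes.
-/

namespace Pool.Agent.MP4eed4eP.F

open Real Set MeasureTheory Filter Topology

variable {m : ℕ} {th : Fin m → ℝ}

theorem nd_zero (th : Fin m → ℝ) : nd th 0 = 0 := by
  unfold nd
  rw [dif_neg (by omega), if_pos rfl]

theorem nd_mark (th : Fin m → ℝ) (i : Fin m) : nd th (i + 1) = th i := by
  have hi := i.2
  unfold nd
  rw [dif_pos ⟨by omega, by omega⟩]
  rfl

theorem nd_last (th : Fin m → ℝ) : nd th (m + 1) = 1 := by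
  unfold nd
  rw [dif_neg (by omega), if_neg (by omega)]

theorem nv_zero (w : Fin m → ℝ) : nv w 0 = 0 := by
  unfold nv
  rw [if_pos rfl]

theorem nv_mark (w : Fin m → ℝ) (i : Fin m) : nv w (i + 1) = w i := by
  have hi := i.2
  unfold nv
  rw [if_neg (by omega), dif_pos (by omega)]
  rfl

theorem nv_last (w : Fin m → ℝ) : nv w (m + 1) = 0 := by
  unfold nv
  rw [if_neg (by omega), dif_neg (by omega)]

theorem nd_lt (h : th ∈ MK m) {j : ℕ} (hj : j ≤ m) : nd th j < nd th (j + 1) := by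
  rcases Nat.eq_zero_or_pos j with rfl | hj0
  · rw [nd_zero]
    rcases Nat.eq_zero_or_pos m with rfl | hm
    · rw [nd_last th]
      norm_num
    · have h1 : nd th (0 + 1) = th ⟨0, hm⟩ := nd_mark th ⟨0, hm⟩
      rw [h1]
      exact (h.2 _).1
  · obtain ⟨k, rfl⟩ : ∃ k, j = k + 1 := ⟨j - 1, by omega⟩
    have hk : k < m := by omega
    have h1 : nd th (k + 1) = th ⟨k, hk⟩ := nd_mark th ⟨k, hk⟩
    rw [h1]
    rcases Nat.lt_or_ge (k + 1) m with hk1 | hk1
    · have h2 : nd th (k + 1 + 1) = th ⟨k + 1, hk1⟩ := nd_mark th ⟨k + 1, hk1⟩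
      rw [h2]
      exact h.1 (Fin.mk_lt_mk.2 (Nat.lt_succ_self k))
    · have h2 : k + 1 = m := by omega
      rw [h2, nd_last]
      exact (h.2 _).2

/-- Proof. `nd_lt` and induction. -/
theorem nd_mono (h : th ∈ MK m) {i j : ℕ} (hij : i ≤ j) (hj : j ≤ m + 1) : nd th i ≤ nd th j := by
  induction j, hij using Nat.le_induction with
  | base => exact le_refl _
  | succ j _ ih => exact (ih (by omega)).trans (nd_lt h (by omega)).le

theorem nd_mem (h : th ∈ MK m) {j : ℕ} (hj : j ≤ m + 1) : nd th j ∈ Icc (0 : ℝ) 1 := by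
  have h1 := nd_mono h (Nat.zero_le j) hj
  have h2 := nd_mono h hj (le_refl _)
  rw [nd_zero] at h1
  rw [nd_last] at h2
  exact ⟨h1, h2⟩

private theorem FNd_piece {x : ℝ} (hx : 0 < x) (hm : ∀ i, x ≠ th i) (k : ℕ)
    (hk : k ≤ m + 1) (hxk : x < nd th k) : ∃ j ≤ m, x ∈ Ioo (nd th j) (nd th (j + 1)) := by
  induction k with
  | zero =>
    rw [nd_zero] at hxk
    exact absurd hxk (not_lt.2 hx.le)
  | succ k ih =>
    rcases lt_or_ge x (nd th k) with h1 | h1
    · exact ih (by omega) h1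
    · refine ⟨k, by omega, lt_of_le_of_ne h1 ?_, hxk⟩
      rcases Nat.eq_zero_or_pos k with rfl | hk0
      · rw [nd_zero]
        exact hx.ne
      · obtain ⟨l, rfl⟩ : ∃ l, k = l + 1 := ⟨k - 1, by omega⟩
        have hl : l < m := by omega
        have h2 : nd th (l + 1) = th ⟨l, hl⟩ := nd_mark th ⟨l, hl⟩
        rw [h2]
        exact (hm _).symm

/-- Every point of `(0, 1)` which is not a mark lies in exactly one interval. Proof. Take the
largest `j ≤ m` with `nd th j < x` (`Nat.findGreatest`, or induction on `k`: `x < nd th k` implies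
that `x` is in one of the first `k` intervals or is a mark). -/
theorem exists_piece (h : th ∈ MK m) {x : ℝ} (hx : x ∈ Ioo (0 : ℝ) 1) (hm : ∀ i, x ≠ th i) :
    ∃ j ≤ m, x ∈ Ioo (nd th j) (nd th (j + 1)) :=
  FNd_piece hx.1 hm (m + 1) (le_refl _) (by rw [nd_last]; exact hx.2)

/-- Proof. `nd_mono`. -/
theorem piece_unique (h : th ∈ MK m) {x : ℝ} {i j : ℕ} (hi : i ≤ m) (hj : j ≤ m)
    (hxi : x ∈ Ioo (nd th i) (nd th (i + 1))) (hxj : x ∈ Ioo (nd th j) (nd th (j + 1))) :
    i = j := by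
  rcases lt_trichotomy i j with hij | hij | hij
  · have h1 := nd_mono h (show i + 1 ≤ j from hij) (by omega)
    exact absurd (hxi.2.trans_le h1) (not_lt.2 hxj.1.le)
  · exact hij
  · have h1 := nd_mono h (show j + 1 ≤ i from hij) (by omega)
    exact absurd (hxj.2.trans_le h1) (not_lt.2 hxi.1.le)

/-- The integral over `[0, 1]` is the sum of the integrals over the intervals. Proof.
`intervalIntegral.sum_integral_adjacent_intervals` with `n = m + 1`; `f` is interval integrable on
every interval (`IntervalIntegrable.mono_set`, `nd_mem`). -/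
theorem sum_integral (h : th ∈ MK m) {f : ℝ → ℝ} (hf : IntervalIntegrable f volume 0 1) :
    ∫ x in (0 : ℝ)..1, f x =
      ∑ j ∈ Finset.range (m + 1), ∫ x in (nd th j)..(nd th (j + 1)), f x := by
  have h1 : ∀ k < m + 1, IntervalIntegrable f volume (nd th k) (nd th (k + 1)) := by
    intro k hk
    refine hf.mono_set ?_
    have h2 := nd_mem h (show k ≤ m + 1 by omega)
    have h3 := nd_mem h (show k + 1 ≤ m + 1 by omega)
    rw [uIcc_of_le (nd_lt h (show k ≤ m by omega)).le, uIcc_of_le zero_le_one]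
    exact Icc_subset_Icc h2.1 h3.2
  rw [intervalIntegral.sum_integral_adjacent_intervals h1, nd_zero, nd_last]

end Pool.Agent.MP4eed4eP.F
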