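import Pool.Agent.Lib.MP_4eed4e_an_PF.FDefs

/-!
MP_4eed4e_an, project P, block F, module FTrig: the trigonometric polynomials.
-/

namespace Pool.Agent.MP4eed4eP.F

open Real Set MeasureTheory Filter Topology

private theorem FTrig_c5 (x : ℝ) : cos (5 * x) = 16 * cos x ^ 5 - 20 * cos x ^ 3 + 5 * cos x := by
  have hs : sin x ^ 2 = 1 - cos x ^ 2 := by
    have h := sin_sq_add_cos_sq x
    linarith
  have h1 : (3 * sin x - 4 * sin x ^ 3) * (2 * sin x * cos x) =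
      2 * cos x * (sin x ^ 2) * (3 - 4 * sin x ^ 2) := by ring
  rw [show 5 * x = 3 * x + 2 * x by ring, cos_add, cos_three_mul, sin_three_mul, cos_two_mul,
    sin_two_mul, h1, hs]
  ring

private theorem FTrig_c4 (x : ℝ) : cos (4 * x) = 8 * cos x ^ 4 - 8 * cos x ^ 2 + 1 := by
  rw [show 4 * x = 2 * (2 * x) by ring, cos_two_mul, cos_two_mul]
  ring

private theorem FTrig_c6 (x : ℝ) :
    cos (6 * x) = 32 * cos x ^ 6 - 48 * cos x ^ 4 + 18 * cos x ^ 2 - 1 := by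
  rw [show 6 * x = 2 * (3 * x) by ring, cos_two_mul, cos_three_mul]
  ring

/-- Proof. `sin a * sin b = (cos (a - b) - cos (a + b)) / 2`
(`Real.cos_sub`, `Real.cos_add` for the arguments written as sums of multiples of `τ`). -/
theorem g1_sq (τ : ℝ) : g1 τ ^ 2 = 21 - 24 * cos τ - 15 / 2 * cos (2 * τ) + 20 * cos (3 * τ)
    - 13 * cos (4 * τ) + 4 * cos (5 * τ) - 1 / 2 * cos (6 * τ) := by
  have hs : sin τ ^ 2 = 1 - cos τ ^ 2 := by
    have h := sin_sq_add_cos_sq τ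
    linarith
  have h1 : (5 * sin τ - 4 * (2 * sin τ * cos τ) + (3 * sin τ - 4 * sin τ ^ 3)) ^ 2 =
      (sin τ ^ 2) * (8 - 8 * cos τ - 4 * sin τ ^ 2) ^ 2 := by ring
  unfold g1
  rw [FTrig_c4, FTrig_c5, FTrig_c6, cos_three_mul, cos_two_mul, sin_two_mul, sin_three_mul, h1, hs]
  ring

private theorem FTrig_ds (k τ : ℝ) : HasDerivAt (fun x => sin (k * x)) (k * cos (k * τ)) τ := by
  have h := ((hasDerivAt_id τ).const_mul k).sin
  refine h.congr_deriv ?_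
  simp only [id]
  ring

private theorem FTrig_dc (k τ : ℝ) : HasDerivAt (fun x => cos (k * x)) (-(k * sin (k * τ))) τ := by
  have h := ((hasDerivAt_id τ).const_mul k).cos
  refine h.congr_deriv ?_
  simp only [id]
  ring

theorem Q1_deriv (τ : ℝ) : HasDerivAt Q1 (g1 τ ^ 2 - 21) τ := by
  have h := ((((((hasDerivAt_sin τ).const_mul (-24 : ℝ)).sub
    ((FTrig_ds 2 τ).const_mul (15 / 4))).add ((FTrig_ds 3 τ).const_mul (20 / 3))).sub
    ((FTrig_ds 4 τ).const_mul (13 / 4))).add ((FTrig_ds 5 τ).const_mul (4 / 5))).sub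
    ((FTrig_ds 6 τ).const_mul (1 / 12))
  refine HasDerivAt.congr_deriv (f := Q1) h ?_
  rw [g1_sq]
  ring

theorem Q2_deriv (τ : ℝ) : HasDerivAt Q2 (Q1 τ) τ := by
  have h := ((((((hasDerivAt_cos τ).const_mul (24 : ℝ)).add
    ((FTrig_dc 2 τ).const_mul (15 / 8))).sub ((FTrig_dc 3 τ).const_mul (20 / 9))).add
    ((FTrig_dc 4 τ).const_mul (13 / 16))).sub ((FTrig_dc 5 τ).const_mul (4 / 25))).add
    ((FTrig_dc 6 τ).const_mul (1 / 72))
  refine HasDerivAt.congr_deriv (f := Q2) h ?_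
  unfold Q1
  ring

theorem g1_cont : Continuous g1 := by
  unfold g1
  fun_prop

theorem Q1_cont : Continuous Q1 := by
  unfold Q1
  fun_prop

theorem Q2_cont : Continuous Q2 := by
  unfold Q2
  fun_prop

theorem Q1_bdd (τ : ℝ) : |Q1 τ| ≤ 40 := by
  have h1 := neg_one_le_sin τ
  have h2 := sin_le_one τ
  have h3 := neg_one_le_sin (2 * τ)
  have h4 := sin_le_one (2 * τ)
  have h5 := neg_one_le_sin (3 * τ)
  have h6 := sin_le_one (3 * τ)
  have h7 := neg_one_le_sin (4 * τ)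
  have h8 := sin_le_one (4 * τ)
  have h9 := neg_one_le_sin (5 * τ)
  have h10 := sin_le_one (5 * τ)
  have h11 := neg_one_le_sin (6 * τ)
  have h12 := sin_le_one (6 * τ)
  unfold Q1
  rw [abs_le]
  constructor <;> linarith

theorem Q2_bdd (τ : ℝ) : |Q2 τ| ≤ 30 := by
  have h1 := neg_one_le_cos τ
  have h2 := cos_le_one τ
  have h3 := neg_one_le_cos (2 * τ)
  have h4 := cos_le_one (2 * τ)
  have h5 := neg_one_le_cos (3 * τ)
  have h6 := cos_le_one (3 * τ)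
  have h7 := neg_one_le_cos (4 * τ)
  have h8 := cos_le_one (4 * τ)
  have h9 := neg_one_le_cos (5 * τ)
  have h10 := cos_le_one (5 * τ)
  have h11 := neg_one_le_cos (6 * τ)
  have h12 := cos_le_one (6 * τ)
  unfold Q2
  rw [abs_le]
  constructor <;> linarith

private theorem FTrig_ps (k : ℤ) (τ : ℝ) (z : ℤ) :
    sin ((k : ℝ) * (τ - z * (2 * π))) = sin (k * τ) := by
  rw [show (k : ℝ) * (τ - z * (2 * π)) = k * τ - ((k * z : ℤ) : ℝ) * (2 * π) by
    push_cast; ring, sin_sub_int_mul_two_pi]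

private theorem FTrig_pc (k : ℤ) (τ : ℝ) (z : ℤ) :
    cos ((k : ℝ) * (τ - z * (2 * π))) = cos (k * τ) := by
  rw [show (k : ℝ) * (τ - z * (2 * π)) = k * τ - ((k * z : ℤ) : ℝ) * (2 * π) by
    push_cast; ring, cos_sub_int_mul_two_pi]

theorem Q1_per (τ : ℝ) (z : ℤ) : Q1 (τ - z * (2 * π)) = Q1 τ := by
  have h1 := sin_sub_int_mul_two_pi τ z
  have h2 := FTrig_ps 2 τ z
  have h3 := FTrig_ps 3 τ z
  have h4 := FTrig_ps 4 τ z
  have h5 := FTrig_ps 5 τ z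
  have h6 := FTrig_ps 6 τ z
  push_cast at h2 h3 h4 h5 h6
  unfold Q1
  rw [h1, h2, h3, h4, h5, h6]

theorem Q2_per (τ : ℝ) (z : ℤ) : Q2 (τ - z * (2 * π)) = Q2 τ := by
  have h1 := cos_sub_int_mul_two_pi τ z
  have h2 := FTrig_pc 2 τ z
  have h3 := FTrig_pc 3 τ z
  have h4 := FTrig_pc 4 τ z
  have h5 := FTrig_pc 5 τ z
  have h6 := FTrig_pc 6 τ z
  push_cast at h2 h3 h4 h5 h6
  unfold Q2
  rw [h1, h2, h3, h4, h5, h6]

theorem Q1_zero : Q1 0 = 0 := by
  simp [Q1]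

private theorem FTrig_np (m k : ℕ) : sin ((m : ℝ) * (k * π)) = 0 := by
  rw [← mul_assoc, ← Nat.cast_mul, sin_nat_mul_pi]

theorem Q1_pi (k : ℕ) : Q1 (k * π) = 0 := by
  have h1 := sin_nat_mul_pi k
  have h2 := FTrig_np 2 k
  have h3 := FTrig_np 3 k
  have h4 := FTrig_np 4 k
  have h5 := FTrig_np 5 k
  have h6 := FTrig_np 6 k
  push_cast at h2 h3 h4 h5 h6
  unfold Q1
  rw [h1, h2, h3, h4, h5, h6]
  ring

/-- Proof. `Q1 (π / 2) = -24 - 20 / 3 + 4 / 5`. -/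
theorem Q1_half : Q1 (π / 2) ≠ 0 := by
  have h2 : sin (2 * (π / 2)) = 0 := by rw [mul_div_cancel₀ _ (two_ne_zero), sin_pi]
  have h3 : sin (3 * (π / 2)) = -1 := by
    rw [sin_three_mul, sin_pi_div_two]
    norm_num
  have h4 : sin (4 * (π / 2)) = 0 := by
    rw [show 4 * (π / 2) = 2 * π by ring, sin_two_pi]
  have h5 : sin (5 * (π / 2)) = 1 := by
    rw [show 5 * (π / 2) = π / 2 + 2 * π by ring, sin_add_two_pi, sin_pi_div_two]
  have h6 : sin (6 * (π / 2)) = 0 := by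
    rw [show 6 * (π / 2) = π + 2 * π by ring, sin_add_two_pi, sin_pi]
  unfold Q1
  rw [h2, h3, h4, h5, h6, sin_pi_div_two]
  norm_num

/-- Proof. `Q2 0 > 24`, `Q2 (π / 2) = - 15 / 8 + 13 / 16 - 1 / 72`. -/
theorem Q2_half : Q2 (π / 2) ≠ Q2 0 := by
  unfold Q2
  rw [FTrig_c4, FTrig_c5, FTrig_c6, cos_three_mul, cos_two_mul, cos_pi_div_two, FTrig_c4,
    FTrig_c5, FTrig_c6]
  simp only [mul_zero, cos_zero]
  norm_num

/-- Proof. Only the frequencies `1, 3, 5` contribute: `2 * (24 - 20 / 9 - 4 / 25)`. -/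
theorem Q2_pi : Q2 0 - Q2 π = 9728 / 225 := by
  unfold Q2
  rw [FTrig_c4, FTrig_c5, FTrig_c6, FTrig_c4, FTrig_c5, FTrig_c6, cos_three_mul, cos_two_mul,
    cos_three_mul, cos_two_mul, cos_pi, cos_zero]
  norm_num

theorem g1_bdd (τ : ℝ) : g1 τ ^ 2 ≤ 100 := by
  have h1 := neg_one_le_sin τ
  have h2 := sin_le_one τ
  have h3 := neg_one_le_sin (2 * τ)
  have h4 := sin_le_one (2 * τ)
  have h5 := neg_one_le_sin (3 * τ)
  have h6 := sin_le_one (3 * τ)
  have h7 : -10 ≤ g1 τ := by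
    unfold g1
    linarith
  have h8 : g1 τ ≤ 10 := by
    unfold g1
    linarith
  have h9 := sq_le_sq' h7 h8
  linarith

end Pool.Agent.MP4eed4eP.F
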