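import Pool.Agent.Lib.MP_4eed4e_an_PF.FNd
import Pool.Agent.Lib.MP_4eed4e_an_PF.FTrig

/-!
MP_4eed4e_an, project P, block F, module FPiece: integrals of piecewise affine functions against
the square of the profile.
-/

namespace Pool.Agent.MP4eed4eP.F

open Real Set MeasureTheory Filter Topology

variable {m : ℕ} {th : Fin m → ℝ}

/-- Proof. `F x = Q1 (lam x) (al + be x) / lam - be Q2 (lam x) / lam ^ 2` has the derivative
`(g1 (lam x) ^ 2 - 21) (al + be x)` (`Q1_deriv`, `Q2_deriv`);
`intervalIntegral.integral_eq_sub_of_hasDerivAt`. -/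
theorem piece_int {lam : ℝ} (hl : 0 < lam) (a b al be : ℝ) :
    ∫ x in a..b, g1 (lam * x) ^ 2 * (al + be * x) =
      21 * (∫ x in a..b, (al + be * x)) +
        (Q1 (lam * b) * (al + be * b) / lam - be * Q2 (lam * b) / lam ^ 2) -
        (Q1 (lam * a) * (al + be * a) / lam - be * Q2 (lam * a) / lam ^ 2) := by
  have hd : ∀ x ∈ uIcc a b, HasDerivAt
      (fun x : ℝ => Q1 (lam * x) * (al + be * x) / lam - be * Q2 (lam * x) / lam ^ 2)
      ((g1 (lam * x) ^ 2 - 21) * (al + be * x)) x := by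
    intro x _
    have h1 : HasDerivAt (fun x : ℝ => lam * x) (lam * 1) x := (hasDerivAt_id x).const_mul lam
    have h2 : HasDerivAt (fun x : ℝ => Q1 (lam * x)) ((g1 (lam * x) ^ 2 - 21) * (lam * 1)) x :=
      HasDerivAt.comp (h₂ := Q1) x (Q1_deriv (lam * x)) h1
    have h3 : HasDerivAt (fun x : ℝ => Q2 (lam * x)) (Q1 (lam * x) * (lam * 1)) x :=
      HasDerivAt.comp (h₂ := Q2) x (Q2_deriv (lam * x)) h1
    have h4 : HasDerivAt (fun x : ℝ => al + be * x) (be * 1) x :=
      ((hasDerivAt_id x).const_mul be).const_add al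
    refine (((h2.mul h4).div_const lam).sub ((h3.const_mul be).div_const (lam ^ 2))).congr_deriv ?_
    field_simp
    ring
  have hc : Continuous fun x : ℝ => (g1 (lam * x) ^ 2 - 21) * (al + be * x) := by
    have := g1_cont
    fun_prop
  have h5 := intervalIntegral.integral_eq_sub_of_hasDerivAt hd (hc.intervalIntegrable a b)
  have h6 : ∫ x in a..b, g1 (lam * x) ^ 2 * (al + be * x) =
      (∫ x in a..b, (g1 (lam * x) ^ 2 - 21) * (al + be * x)) +
        ∫ x in a..b, 21 * (al + be * x) := by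
    rw [← intervalIntegral.integral_add (hc.intervalIntegrable a b)
      (Continuous.intervalIntegrable (by fun_prop) a b)]
    refine intervalIntegral.integral_congr fun x _ => ?_
    ring
  rw [h6, h5, intervalIntegral.integral_const_mul]
  ring

private theorem FPiece_abel (G : ℕ → ℝ → ℝ) (x : ℕ → ℝ) (m : ℕ) :
    ∑ j ∈ Finset.range (m + 1), (G j (x (j + 1)) - G j (x j)) =
      G m (x (m + 1)) - G 0 (x 0) + ∑ j ∈ Finset.Icc 1 m, (G (j - 1) (x j) - G j (x j)) := by
  induction m with
  | zero => simp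
  | succ m ih =>
    rw [Finset.sum_range_succ, ih, Finset.sum_Icc_succ_top (by omega)]
    simp only [Nat.add_sub_cancel]
    ring

private theorem FPiece_congr {a b : ℝ} (hab : a ≤ b) {f g : ℝ → ℝ}
    (h : ∀ x ∈ Ioo a b, f x = g x) : ∫ x in a..b, f x = ∫ x in a..b, g x := by
  rw [intervalIntegral.integral_of_le hab, intervalIntegral.integral_of_le hab,
    integral_Ioc_eq_integral_Ioo, integral_Ioc_eq_integral_Ioo]
  exact setIntegral_congr_fun measurableSet_Ioo h

/-- Proof. `sum_integral`; on every interval the integrand agrees with the one of `piece_int`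
almost everywhere (`intervalIntegral.integral_congr_ae` or
`intervalIntegral.integral_congr_Ioo`-like argument, the end points are a null set). The sum of the
boundary terms is telescoping: at the node `j`, `1 ≤ j ≤ m`, the intervals `j - 1` and `j`
contribute `- jm j * Q1 / lam + (be j - be (j - 1)) * Q2 / lam ^ 2`; the end `0` contributes
`be 0 * Q2 0 / lam ^ 2` (`Q1 0 = 0`) and the end `1` the rest. -/
theorem pl_int (h : th ∈ MK m) {psi : ℝ → ℝ} {al be : ℕ → ℝ} (hi : IntervalIntegrable psi volume 0 1)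
    (hp : PL th psi al be) {lam : ℝ} (hl : 0 < lam) :
    ∫ x in (0 : ℝ)..1, g1 (lam * x) ^ 2 * psi x = 21 * (∫ x in (0 : ℝ)..1, psi x) -
      (∑ j ∈ Finset.Icc 1 m, jm th al be j * Q1 (lam * nd th j)) / lam +
      ((∑ j ∈ Finset.Icc 1 m, (be j - be (j - 1)) * Q2 (lam * nd th j)) + be 0 * Q2 0 -
        be m * Q2 lam) / lam ^ 2 + Q1 lam * (al m + be m) / lam := by
  have hc : Continuous fun x : ℝ => g1 (lam * x) ^ 2 := by
    have := g1_cont
    fun_prop
  have h1 : IntervalIntegrable (fun x => g1 (lam * x) ^ 2 * psi x) volume 0 1 :=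
    hi.continuousOn_mul hc.continuousOn
  set G : ℕ → ℝ → ℝ := fun j x =>
    Q1 (lam * x) * (al j + be j * x) / lam - be j * Q2 (lam * x) / lam ^ 2 with hG
  have h2 : ∀ j ∈ Finset.range (m + 1),
      ∫ x in (nd th j)..(nd th (j + 1)), g1 (lam * x) ^ 2 * psi x =
        21 * (∫ x in (nd th j)..(nd th (j + 1)), psi x) +
          (G j (nd th (j + 1)) - G j (nd th j)) := by
    intro j hj
    have hj' : j ≤ m := Nat.lt_succ_iff.1 (Finset.mem_range.1 hj)
    have h3 := (nd_lt h hj').le
    rw [FPiece_congr h3 (g := fun x => g1 (lam * x) ^ 2 * (al j + be j * x))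
      (fun x hx => by rw [hp j hj' x hx]), FPiece_congr h3 (hp j hj'), piece_int hl]
    simp only [hG]
    ring
  rw [sum_integral h h1, sum_integral h hi, Finset.sum_congr rfl h2, Finset.sum_add_distrib,
    ← Finset.mul_sum, FPiece_abel G (nd th) m]
  have h4 : ∑ j ∈ Finset.Icc 1 m, (G (j - 1) (nd th j) - G j (nd th j)) =
      -(∑ j ∈ Finset.Icc 1 m, jm th al be j * Q1 (lam * nd th j)) / lam +
        (∑ j ∈ Finset.Icc 1 m, (be j - be (j - 1)) * Q2 (lam * nd th j)) / lam ^ 2 := by
    rw [neg_div, Finset.sum_div, Finset.sum_div, ← Finset.sum_neg_distrib,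
      ← Finset.sum_add_distrib]
    refine Finset.sum_congr rfl fun j _ => ?_
    simp only [hG, jm]
    ring
  rw [h4]
  simp only [hG, nd_last, nd_zero, mul_one, mul_zero, Q1_zero, zero_mul, zero_div]
  ring

/-- A piecewise affine function with vanishing coefficients vanishes almost everywhere. -/
theorem pl_zero (h : th ∈ MK m) {psi : ℝ → ℝ} {al be : ℕ → ℝ} (hp : PL th psi al be)
    (h0 : ∀ j ≤ m, al j = 0 ∧ be j = 0) (f : ℝ → ℝ) : ∫ x in (0 : ℝ)..1, f x * psi x = 0 := by
  refine intervalIntegral.integral_zero_ae ?_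
  have hfin : (range th ∪ {1}).Finite := (finite_range th).union (finite_singleton 1)
  have h1 : ∀ᵐ x : ℝ, x ∉ range th ∪ {1} :=
    compl_mem_ae_iff.2 (hfin.measure_zero volume)
  filter_upwards [h1] with x hx hx01
  rw [uIoc_of_le zero_le_one] at hx01
  have h2 : x ≠ 1 := fun h3 => hx (Or.inr h3)
  have h3 : ∀ i, x ≠ th i := fun i h4 => hx (Or.inl ⟨i, h4.symm⟩)
  obtain ⟨j, hj, h5⟩ := exists_piece h ⟨hx01.1, lt_of_le_of_ne hx01.2 h2⟩ h3
  rw [hp j hj x h5, (h0 j hj).1, (h0 j hj).2]
  ring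

end Pool.Agent.MP4eed4eP.F
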